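import Pool.Agent.Helper48.LK.Defs

/-!
# T4. Completion of the cliques (Aharoni, Berger, Ziv type swaps)

Paper proof. Consider `S ⊆ C.biUnion G \ F` and `g : V → Fin X` with `g = f` on `F`, `g` proper on
`F ∪ S`, `g u ∈ A x` for `u ∈ S ∩ G x`; take `|S|` maximal. Suppose `u₀ ∈ G x₀ \ F`, `u₀ ∉ S`.
`g` is injective on `S ∩ G x₀`, so there is `γ ∈ A x₀` not used on `S ∩ G x₀`. Choose
`y₀ ∈ G x₀ \ F` without neighbour of colour `γ` in `F`, and, if `y₀ ∈ S`, with `g y₀` not a colour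
of a neighbour of `u₀` in `(F ∪ S) \ G x₀` (at most `d` values `y₀` are excluded). Let `J` be the
set of `x ∈ C`, `x ≠ x₀`, such that `γ` is used on `S ∩ G x`, by the unique `u_x`. For `x ∈ J` let
`W_x` be the set of `y ∈ G x \ F` with: no neighbour of colour `γ` in `F`; `y` not adjacent to
`y₀`; if `y ∈ S` then `g y` is not a colour of a neighbour of `u_x` in `(F ∪ S) \ G x`, and
`g y ≠ g y₀` if also `y₀ ∈ S`. `|W_x| ≥ w - 2d - 1`. By the local lemma (`lll`, coordinates
`J → Fin w'`, events = adjacent pairs) there are `y_x ∈ W_x` (`x ∈ J`), pairwise non adjacent.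
Let `π` be the involution of `V` which swaps `u_x` and `y_x` for `x ∈ J ∪ {x₀}` (`u_{x₀} = u₀`,
`y_{x₀} = y₀`), `S' = π(S ∪ {u₀})`, `g' v = g (π v)`, where `g` is first changed to `γ` at `u₀`.
Then `S'`, `g'` satisfy the same conditions and `|S'| = |S| + 1`.
-/

set_option autoImplicit false
set_option linter.unusedSectionVars false

namespace Pool.Agent.Helper48.LK

open Pool.Agent.Helper32.Sq

/-- Independent transversals. -/
theorem transversal {V : Type} [Fintype V] [DecidableEq V] (H : SimpleGraph V)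
    [DecidableRel H.Adj] (J : Finset V) (W : V → Finset V) (d w : ℕ)
    (hW : ∀ x ∈ J, ∀ y ∈ J, x ≠ y → Disjoint (W x) (W y))
    (hw : ∀ x ∈ J, w ≤ (W x).card)
    (hd : ∀ x ∈ J, ∀ u ∈ W x, dg H ((J.erase x).biUnion W) u ≤ d) (hwd : 16 * d + 4 ≤ w) :
    ∃ y : V → V, (∀ x ∈ J, y x ∈ W x) ∧ ∀ x ∈ J, ∀ x' ∈ J, x ≠ x' → ¬ H.Adj (y x) (y x') := by
  classical
  have he : ∀ x : V, ∃ e : Fin w → V, x ∈ J → (∀ i, e i ∈ W x) ∧ Function.Injective e := by
    intro x
    by_cases hx : x ∈ J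
    · obtain ⟨W', hW', hc⟩ := Finset.exists_subset_card_eq (hw x hx)
      let e := W'.equivFinOfCardEq hc
      refine ⟨fun i => (e.symm i : V), fun _ => ⟨fun i => hW' (e.symm i).2, ?_⟩⟩
      intro i j hij
      exact e.symm.injective (Subtype.ext hij)
    · exact ⟨fun _ => x, fun h => absurd h hx⟩
  choose e he using he
  have hw0 : 0 < w := by omega
  have : Nonempty (Fin w) := ⟨⟨0, hw0⟩⟩
  set P : V × V × Fin w × Fin w → Prop := fun p =>
    p.1 ∈ J ∧ p.2.1 ∈ J ∧ p.1 ≠ p.2.1 ∧ H.Adj (e p.1 p.2.2.1) (e p.2.1 p.2.2.2) with hP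
  set A : V × V × Fin w × Fin w → Finset (V → Fin w) := fun p =>
    if P p then Finset.univ.filter fun ω => ω p.1 = p.2.2.1 ∧ ω p.2.1 = p.2.2.2 else ∅ with hAdef
  set T : V × V × Fin w × Fin w → Finset V := fun p => if P p then {p.1, p.2.1} else ∅ with hTdef
  -- counting the events at one vertex
  have hS1 : ∀ x : V, ((Finset.univ : Finset (V × V × Fin w × Fin w)).filter fun p =>
      P p ∧ p.1 = x).card ≤ d * w := by
    intro x
    have h := Finset.card_le_mul_card_image_of_maps_to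
      (s := (Finset.univ : Finset (V × V × Fin w × Fin w)).filter fun p => P p ∧ p.1 = x)
      (t := (Finset.univ : Finset (Fin w))) (f := fun p => p.2.2.1)
      (fun _ _ => Finset.mem_univ _) d ?_
    · rwa [Finset.card_univ, Fintype.card_fin] at h
    · intro i _
      by_cases hx : x ∈ J
      · refine le_trans ?_ (hd x hx (e x i) ((he x hx).1 i))
        unfold dg
        apply Finset.card_le_card_of_injOn (fun p => e p.2.1 p.2.2.2)
        · rintro ⟨a, b, i', j⟩ hp
          simp only [Finset.coe_filter, Finset.mem_filter, Finset.mem_univ, true_and, hP,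
            Set.mem_ofPred_eq, Finset.mem_biUnion, Finset.mem_erase] at hp ⊢
          obtain ⟨⟨⟨ha, hb, hab, hadj⟩, rfl⟩, rfl⟩ := hp
          exact ⟨⟨b, ⟨hab.symm, hb⟩, (he b hb).1 j⟩, hadj⟩
        · rintro ⟨a, b, i', j⟩ hp ⟨a', b', i'', j'⟩ hp' heq
          simp only [Finset.coe_filter, Finset.mem_filter, Finset.mem_univ, true_and, hP,
            Set.mem_ofPred_eq] at hp hp' heq
          obtain ⟨⟨⟨ha, hb, hab, hadj⟩, rfl⟩, rfl⟩ := hp
          obtain ⟨⟨⟨ha', hb', hab', hadj'⟩, rfl⟩, rfl⟩ := hp'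
          have hbb : b = b' := by
            by_contra hne
            have h1 := (he b hb).1 j
            have h2 := (he b' hb').1 j'
            rw [← heq] at h2
            exact Finset.disjoint_left.1 (hW b hb b' hb' hne) h1 h2
          subst hbb
          have hjj : j = j' := (he b hb).2 heq
          rw [hjj]
      · rw [Finset.card_eq_zero.2]
        · exact Nat.zero_le _
        · rw [Finset.eq_empty_iff_forall_notMem]
          rintro ⟨a, b, i', j⟩ hp
          simp only [Finset.mem_filter, Finset.mem_univ, true_and, hP] at hp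
          obtain ⟨⟨⟨ha, _⟩, rfl⟩, _⟩ := hp
          exact hx ha
  have hS2 : ∀ x : V, ((Finset.univ : Finset (V × V × Fin w × Fin w)).filter fun p =>
      P p ∧ p.2.1 = x).card ≤ d * w := by
    intro x
    refine le_trans ?_ (hS1 x)
    apply Finset.card_le_card_of_injOn (fun p => (p.2.1, p.1, p.2.2.2, p.2.2.1))
    · rintro ⟨a, b, i, j⟩ hp
      simp only [Finset.coe_filter, Finset.mem_univ, true_and, hP, Set.mem_ofPred_eq] at hp ⊢
      exact ⟨⟨hp.1.2.1, hp.1.1, hp.1.2.2.1.symm, hp.1.2.2.2.symm⟩, hp.2⟩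
    · rintro ⟨a, b, i, j⟩ _ ⟨a', b', i', j'⟩ _ heq
      simp only [Prod.mk.injEq] at heq ⊢
      exact ⟨heq.2.1, heq.1, heq.2.2.2, heq.2.2.1⟩
  have key : ∃ ω : V → Fin w, ∀ p, ω ∉ A p := by
    refine lll A T (fun p => ?_) (1 / (w : ℝ) ^ 2) (4 * (d * w)) (by positivity) (fun p => ?_)
      (fun p => ?_) ?_
    · intro ω ω' h hmem
      by_cases hp : P p
      · rw [hAdef] at hmem ⊢
        rw [hTdef] at h
        simp only [if_pos hp, Finset.mem_filter, Finset.mem_univ, true_and, Finset.mem_insert,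
          Finset.mem_singleton, forall_eq_or_imp, forall_eq] at hmem h ⊢
        rw [← h.1, ← h.2]
        exact hmem
      · rw [hAdef] at hmem
        simp only [if_neg hp, Finset.notMem_empty] at hmem
    · by_cases hp : P p
      · have h1 := card_prescribed (ι := V) (α := Fin w) ({p.1, p.2.1} : Finset V)
          (fun v => if v = p.1 then p.2.2.1 else p.2.2.2)
        rw [Finset.card_pair hp.2.2.1, Fintype.card_fin] at h1
        have h2 : A p = (Finset.univ : Finset (V → Fin w)).filter fun ω =>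
            ∀ i ∈ ({p.1, p.2.1} : Finset V), ω i = if i = p.1 then p.2.2.1 else p.2.2.2 := by
          rw [hAdef]
          simp only [if_pos hp]
          ext ω
          have hne : p.2.1 ≠ p.1 := hp.2.2.1.symm
          simp [hne]
        rw [h2, ← h1]
        have hw' : (0 : ℝ) < (w : ℝ) ^ 2 := by positivity
        rw [← mul_assoc, mul_comm (1 / (w : ℝ) ^ 2), mul_assoc, one_div, inv_mul_cancel₀ hw'.ne',
          mul_one]
      · rw [hAdef]
        simp only [if_neg hp, Finset.card_empty, Nat.cast_zero]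
        positivity
    · by_cases hp : P p
      · have hsub : ((Finset.univ : Finset (V × V × Fin w × Fin w)).filter fun p' =>
            ¬ Disjoint (T p) (T p')) ⊆
            ((Finset.univ.filter fun p' => P p' ∧ p'.1 = p.1) ∪
              (Finset.univ.filter fun p' => P p' ∧ p'.2.1 = p.1)) ∪
            ((Finset.univ.filter fun p' => P p' ∧ p'.1 = p.2.1) ∪
              (Finset.univ.filter fun p' => P p' ∧ p'.2.1 = p.2.1)) := by
          intro p' hp'
          rw [Finset.mem_filter] at hp'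
          have h3 := hp'.2
          rw [hTdef] at h3
          by_cases hpp : P p'
          · simp only [if_pos hp, if_pos hpp] at h3
            rw [Finset.not_disjoint_iff] at h3
            obtain ⟨a, ha, ha'⟩ := h3
            simp only [Finset.mem_insert, Finset.mem_singleton] at ha ha'
            simp only [Finset.mem_union, Finset.mem_filter, Finset.mem_univ, true_and]
            rcases ha with rfl | rfl
            · rcases ha' with h | h
              · exact Or.inl (Or.inl ⟨hpp, h.symm⟩)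
              · exact Or.inl (Or.inr ⟨hpp, h.symm⟩)
            · rcases ha' with h | h
              · exact Or.inr (Or.inl ⟨hpp, h.symm⟩)
              · exact Or.inr (Or.inr ⟨hpp, h.symm⟩)
          · simp only [if_neg hpp] at h3
            exact absurd (Finset.disjoint_empty_right _) h3
        refine (Finset.card_le_card hsub).trans ?_
        refine (Finset.card_union_le _ _).trans ?_
        have h4 := Finset.card_union_le (Finset.univ.filter fun p' => P p' ∧ p'.1 = p.1)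
          (Finset.univ.filter fun p' => P p' ∧ p'.2.1 = p.1)
        have h5 := Finset.card_union_le (Finset.univ.filter fun p' => P p' ∧ p'.1 = p.2.1)
          (Finset.univ.filter fun p' => P p' ∧ p'.2.1 = p.2.1)
        have := hS1 p.1
        have := hS1 p.2.1
        have := hS2 p.1
        have := hS2 p.2.1
        omega
      · rw [Finset.card_eq_zero.2]
        · exact Nat.zero_le _
        · rw [Finset.eq_empty_iff_forall_notMem]
          intro p' hp'
          rw [Finset.mem_filter] at hp'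
          have h3 := hp'.2
          rw [hTdef] at h3
          simp only [if_neg hp] at h3
          exact absurd (Finset.disjoint_empty_left _) h3
    · have hw' : (0 : ℝ) < w := by exact_mod_cast hw0
      have h6 : (16 * d + 4 : ℝ) ≤ w := by exact_mod_cast hwd
      push_cast
      rw [show (4 : ℝ) * (1 / (w : ℝ) ^ 2) * (4 * (d * w) + 1) = (16 * d * w + 4) / (w : ℝ) ^ 2 by ring,
        div_le_one (by positivity)]
      have h7 : (1 : ℝ) ≤ w := by exact_mod_cast hw0
      nlinarith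
  obtain ⟨ω, hω⟩ := key
  refine ⟨fun x => e x (ω x), fun x hx => (he x hx).1 _, fun x hx x' hx' hne hadj => ?_⟩
  have hp : P (x, x', ω x, ω x') := ⟨hx, hx', hne, hadj⟩
  apply hω (x, x', ω x, ω x')
  rw [hAdef]
  simp only [if_pos hp]
  simp

/-- The partial colourings of the cliques. -/
structure Inv {V : Type} [Fintype V] [DecidableEq V] {X : ℕ} (H : SimpleGraph V)
    (F : Finset V) (f : V → Fin X) (C : Finset V) (G : V → Finset V) (A : V → Finset (Fin X))
    (S : Finset V) (g : V → Fin X) : Prop where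
  sub : S ⊆ C.biUnion G
  dF : ∀ v ∈ S, v ∉ F
  ext : ∀ v ∈ F, g v = f v
  proper : Proper H (F ∪ S) g
  mem : ∀ x ∈ C, ∀ u ∈ S, u ∈ G x → g u ∈ A x

/-- The simultaneous swap. -/
theorem swap_step {V : Type} [Fintype V] [DecidableEq V] {X : ℕ} (H : SimpleGraph V)
    [DecidableRel H.Adj] (F : Finset V) (f : V → Fin X) (hf : Proper H F f) (C : Finset V)
    (G : V → Finset V) (hG : ∀ x ∈ C, ∀ y ∈ C, x ≠ y → Disjoint (G x) (G y))
    (hcl : ∀ x ∈ C, ∀ u ∈ G x, ∀ v ∈ G x, u ≠ v → H.Adj u v)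
    (A : V → Finset (Fin X)) (S : Finset V) (g : V → Fin X) (J : Finset V) (hJ : J ⊆ C)
    (U Y : V → V) (γ : Fin X) (hS : S ⊆ C.biUnion G) (hSF : ∀ v ∈ S, v ∉ F)
    (hgf : ∀ v ∈ F, g v = f v)
    (hU : ∀ x ∈ J, U x ∈ G x ∧ U x ∈ S ∧ g (U x) = γ)
    (hY : ∀ x ∈ J, Y x ∈ G x ∧ Y x ∉ F)
    (h2 : ∀ z ∈ S, g z = γ → ∃ x ∈ J, z = U x)
    (h3 : ∀ x ∈ J, ∀ v ∈ F, H.Adj (Y x) v → f v ≠ γ)
    (h4 : ∀ x ∈ J, ∀ x' ∈ J, x ≠ x' → ¬ H.Adj (Y x) (Y x'))
    (h5 : ∀ x ∈ J, Y x ∈ S → g (Y x) ≠ γ → ∀ v ∈ F ∪ S, v ∉ G x → g v ≠ γ → H.Adj (U x) v →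
      g v ≠ g (Y x))
    (h6 : ∀ a ∈ F ∪ S, ∀ b ∈ F ∪ S, H.Adj a b → g a ≠ γ → g a ≠ g b)
    (h7 : ∀ x ∈ J, ∀ x' ∈ J, x ≠ x' → H.Adj (U x) (U x') → Y x ∈ S → Y x' ∈ S → g (Y x) ≠ γ →
      g (Y x) ≠ g (Y x'))
    (h9 : ∀ x ∈ C, ∀ u ∈ S, u ∈ G x → g u ∈ A x) :
    ∃ (S' : Finset V) (g' : V → Fin X), Inv H F f C G A S' g' ∧ S'.card = S.card := by
  classical
  obtain ⟨π, hπ1, hπ2⟩ : ∃ π : V → V,
      (∀ x ∈ J, ∀ v ∈ G x, π v = Equiv.swap (U x) (Y x) v) ∧
      (∀ v, (∀ x ∈ J, v ∉ G x) → π v = v) := by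
    refine ⟨fun v => if h : ∃ x ∈ J, v ∈ G x then
      Equiv.swap (U h.choose) (Y h.choose) v else v, ?_, ?_⟩
    · intro x hx v hv
      have h : ∃ x ∈ J, v ∈ G x := ⟨x, hx, hv⟩
      have hc : h.choose = x := by
        by_contra hne
        exact Finset.disjoint_left.1 (hG _ (hJ h.choose_spec.1) x (hJ hx) hne)
          h.choose_spec.2 hv
      simp only [dif_pos h, hc]
    · intro v hv
      have h : ¬ ∃ x ∈ J, v ∈ G x := by
        rintro ⟨x, hx, hxv⟩
        exact hv x hx hxv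
      simp only [dif_neg h]
  have hswapG : ∀ x ∈ J, ∀ v ∈ G x, Equiv.swap (U x) (Y x) v ∈ G x := by
    intro x hx v hv
    by_cases h1 : v = U x
    · rw [h1, Equiv.swap_apply_left]
      exact (hY x hx).1
    · by_cases h2 : v = Y x
      · rw [h2, Equiv.swap_apply_right]
        exact (hU x hx).1
      · rw [Equiv.swap_apply_of_ne_of_ne h1 h2]
        exact hv
  have hππ : ∀ v, π (π v) = v := by
    intro v
    by_cases h : ∃ x ∈ J, v ∈ G x
    · obtain ⟨x, hx, hv⟩ := h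
      rw [hπ1 x hx v hv, hπ1 x hx _ (hswapG x hx v hv), Equiv.swap_apply_self]
    · have h' : ∀ x ∈ J, v ∉ G x := fun x hx hv => h ⟨x, hx, hv⟩
      rw [hπ2 v h', hπ2 v h']
  have hπG : ∀ x ∈ C, ∀ v ∈ G x, π v ∈ G x := by
    intro x hx v hv
    by_cases hxJ : x ∈ J
    · rw [hπ1 x hxJ v hv]
      exact hswapG x hxJ v hv
    · rw [hπ2 v]
      · exact hv
      · intro x' hx' hv'
        have hne : x ≠ x' := fun he => hxJ (he ▸ hx')
        exact Finset.disjoint_left.1 (hG x hx x' (hJ hx') hne) hv hv'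
  have hπF : ∀ v ∈ F, π v = v := by
    intro v hv
    by_cases h : ∃ x ∈ J, v ∈ G x
    · obtain ⟨x, hx, hvx⟩ := h
      rw [hπ1 x hx v hvx, Equiv.swap_apply_of_ne_of_ne]
      · rintro rfl
        exact hSF _ (hU x hx).2.1 hv
      · rintro rfl
        exact (hY x hx).2 hv
    · exact hπ2 v fun x hx hv => h ⟨x, hx, hv⟩
  have hπinj : Function.Injective π := by
    intro a b hab
    rw [← hππ a, ← hππ b, hab]
  have hmem : ∀ v, v ∈ S.image π ↔ π v ∈ S := by
    intro v
    constructor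
    · intro h
      obtain ⟨z, hz, rfl⟩ := Finset.mem_image.1 h
      rw [hππ]
      exact hz
    · intro h
      exact Finset.mem_image.2 ⟨π v, h, hππ v⟩
  refine ⟨S.image π, fun v => g (π v), ⟨?_, ?_, ?_, ?_, ?_⟩, Finset.card_image_of_injective _ hπinj⟩
  · intro v hv
    obtain ⟨z, hz, rfl⟩ := Finset.mem_image.1 hv
    obtain ⟨x, hx, hzx⟩ := Finset.mem_biUnion.1 (hS hz)
    exact Finset.mem_biUnion.2 ⟨x, hx, hπG x hx z hzx⟩
  · intro v hv hvF
    rw [hmem, hπF v hvF] at hv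
    exact hSF v hv hvF
  · intro v hv
    rw [hπF v hv]
    exact hgf v hv
  · -- properness
    have cl : ∀ v ∈ F ∪ S.image π, (v ∈ F ∧ π v = v) ∨ (∃ x ∈ J, v = Y x ∧ π v = U x) ∨
        (∃ x ∈ J, v = U x ∧ π v = Y x ∧ Y x ∈ S ∧ g (Y x) ≠ γ) ∨
        (v ∈ S ∧ π v = v ∧ g v ≠ γ) := by
      intro v hv
      rcases Finset.mem_union.1 hv with hv | hv
      · exact Or.inl ⟨hv, hπF v hv⟩
      · right
        rw [hmem] at hv
        by_cases hγ : g (π v) = γ
        · obtain ⟨x, hx, hxe⟩ := h2 _ hv hγ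
          refine Or.inl ⟨x, hx, ?_, hxe⟩
          rw [← hππ v, hxe, hπ1 x hx _ (hU x hx).1, Equiv.swap_apply_left]
        · right
          obtain ⟨x, hx, hzx⟩ := Finset.mem_biUnion.1 (hS hv)
          by_cases hxJ : x ∈ J
          · by_cases hy : π v = Y x
            · left
              refine ⟨x, hxJ, ?_, hy, hy ▸ hv, hy ▸ hγ⟩
              rw [← hππ v, hy, hπ1 x hxJ _ (hY x hxJ).1, Equiv.swap_apply_right]
            · right
              have hu : π v ≠ U x := fun he => hγ (he ▸ (hU x hxJ).2.2)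
              have hvv : v = π v := by
                conv_lhs => rw [← hππ v]
                rw [hπ1 x hxJ _ hzx, Equiv.swap_apply_of_ne_of_ne hu hy]
              rw [← hvv] at hv hγ
              exact ⟨hv, hvv.symm, hγ⟩
          · right
            have hvv : v = π v := by
              conv_lhs => rw [← hππ v]
              refine hπ2 _ fun x' hx' hv' => ?_
              have hne : x ≠ x' := fun he => hxJ (he ▸ hx')
              exact Finset.disjoint_left.1 (hG x hx x' (hJ hx') hne) hzx hv'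
            rw [← hvv] at hv hγ
            exact ⟨hv, hvv.symm, hγ⟩
    have c13 : ∀ a, a ∈ F → ∀ x ∈ J, H.Adj a (U x) → Y x ∈ S → g (Y x) ≠ γ →
        g a ≠ g (Y x) := by
      intro a ha x hx hadj hYS hYγ
      by_cases haγ : g a = γ
      · rw [haγ]
        exact hYγ.symm
      · by_cases hax : a ∈ G x
        · have hne : a ≠ Y x := fun he => (hY x hx).2 (he ▸ ha)
          exact h6 a (Finset.mem_union_left _ ha) _ (Finset.mem_union_right _ hYS)
            (hcl x (hJ hx) a hax _ (hY x hx).1 hne) haγ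
        · exact h5 x hx hYS hYγ a (Finset.mem_union_left _ ha) hax haγ hadj.symm
    have c34 : ∀ b, b ∈ S → π b = b → g b ≠ γ → ∀ x ∈ J, H.Adj b (U x) → Y x ∈ S →
        g (Y x) ≠ γ → g b ≠ g (Y x) := by
      intro b hb hπb hbγ x hx hadj hYS hYγ
      by_cases hbx : b ∈ G x
      · have hne : b ≠ Y x := by
          intro he
          have h1 : π b = U x := by
            rw [hπ1 x hx b hbx, he, Equiv.swap_apply_right]
          rw [hπb] at h1
          exact hbγ (h1 ▸ (hU x hx).2.2)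
        exact h6 b (Finset.mem_union_right _ hb) _ (Finset.mem_union_right _ hYS)
          (hcl x (hJ hx) b hbx _ (hY x hx).1 hne) hbγ
      · exact h5 x hx hYS hYγ b (Finset.mem_union_right _ hb) hbx hbγ hadj.symm
    intro a ha b hb hab
    simp only
    rcases cl a ha with ⟨haF, ha1⟩ | ⟨x, hx, ha0, ha1⟩ | ⟨x, hx, ha0, ha1, ha2, ha3⟩ |
      ⟨haS, ha1, ha2⟩
    · rcases cl b hb with ⟨hbF, hb1⟩ | ⟨x', hx', hb0, hb1⟩ | ⟨x', hx', hb0, hb1, hb2, hb3⟩ |
        ⟨hbS, hb1, hb2⟩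
      · rw [ha1, hb1, hgf a haF, hgf b hbF]
        exact hf a haF b hbF hab
      · rw [ha1, hb1, (hU x' hx').2.2, hgf a haF]
        exact h3 x' hx' a haF (hb0 ▸ hab.symm)
      · rw [ha1, hb1]
        exact c13 a haF x' hx' (hb0 ▸ hab) hb2 hb3
      · rw [ha1, hb1]
        exact (h6 b (Finset.mem_union_right _ hbS) a (Finset.mem_union_left _ haF) hab.symm
          hb2).symm
    · rcases cl b hb with ⟨hbF, hb1⟩ | ⟨x', hx', hb0, hb1⟩ | ⟨x', hx', hb0, hb1, hb2, hb3⟩ |
        ⟨hbS, hb1, hb2⟩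
      · rw [ha1, hb1, (hU x hx).2.2, hgf b hbF]
        exact (h3 x hx b hbF (ha0 ▸ hab)).symm
      · exfalso
        have hne : x ≠ x' := by
          rintro rfl
          rw [ha0, hb0] at hab
          exact H.irrefl hab
        exact h4 x hx x' hx' hne (by rw [← ha0, ← hb0]; exact hab)
      · rw [ha1, hb1, (hU x hx).2.2]
        exact hb3.symm
      · rw [ha1, hb1, (hU x hx).2.2]
        exact hb2.symm
    · rcases cl b hb with ⟨hbF, hb1⟩ | ⟨x', hx', hb0, hb1⟩ | ⟨x', hx', hb0, hb1, hb2, hb3⟩ |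
        ⟨hbS, hb1, hb2⟩
      · rw [ha1, hb1]
        exact (c13 b hbF x hx (ha0 ▸ hab.symm) ha2 ha3).symm
      · rw [ha1, hb1, (hU x' hx').2.2]
        exact ha3
      · rw [ha1, hb1]
        have hne : x ≠ x' := by
          rintro rfl
          rw [ha0, hb0] at hab
          exact H.irrefl hab
        exact h7 x hx x' hx' hne (by rw [← ha0, ← hb0]; exact hab) ha2 hb2 ha3
      · rw [ha1, hb1]
        exact (c34 b hbS hb1 hb2 x hx (ha0 ▸ hab.symm) ha2 ha3).symm
    · rcases cl b hb with ⟨hbF, hb1⟩ | ⟨x', hx', hb0, hb1⟩ | ⟨x', hx', hb0, hb1, hb2, hb3⟩ |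
        ⟨hbS, hb1, hb2⟩
      · rw [ha1, hb1]
        exact h6 a (Finset.mem_union_right _ haS) b (Finset.mem_union_left _ hbF) hab ha2
      · rw [ha1, hb1, (hU x' hx').2.2]
        exact ha2
      · rw [ha1, hb1]
        exact c34 a haS ha1 ha2 x' hx' (hb0 ▸ hab) hb2 hb3
      · rw [ha1, hb1]
        exact h6 a (Finset.mem_union_right _ haS) b (Finset.mem_union_right _ hbS) hab ha2
  · intro x hx v hv hvx
    rw [hmem] at hv
    exact h9 x hx _ hv (hπG x hx v hvx)

/-- One more vertex can be coloured. -/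
theorem step {V : Type} [Fintype V] [DecidableEq V] {X : ℕ} (H : SimpleGraph V)
    [DecidableRel H.Adj] (F : Finset V) (f : V → Fin X) (hf : Proper H F f) (C : Finset V)
    (G : V → Finset V) (hG : ∀ x ∈ C, ∀ y ∈ C, x ≠ y → Disjoint (G x) (G y))
    (hcl : ∀ x ∈ C, ∀ u ∈ G x, ∀ v ∈ G x, u ≠ v → H.Adj u v)
    (A : V → Finset (Fin X)) (hA : ∀ x ∈ C, (G x \ F).card ≤ (A x).card) (w d : ℕ)
    (hw : ∀ x ∈ C, ∀ γ ∈ A x,
      w ≤ ((G x \ F).filter fun u => ∀ v ∈ F, H.Adj u v → f v ≠ γ).card)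
    (hd : ∀ x ∈ C, ∀ u ∈ G x, dg H (Finset.univ \ G x) u ≤ d) (hwd : 20 * d + 20 ≤ w)
    (S : Finset V) (g : V → Fin X) (h : Inv H F f C G A S g) (u₀ : V)
    (hu₀ : u₀ ∈ C.biUnion G) (hu₀F : u₀ ∉ F) (hu₀S : u₀ ∉ S) :
    ∃ (S' : Finset V) (g' : V → Fin X), Inv H F f C G A S' g' ∧ S'.card = S.card + 1 := by
  classical
  obtain ⟨x₀, hx₀, hux₀⟩ := Finset.mem_biUnion.1 hu₀
  have inj : ∀ x ∈ C, ∀ a ∈ S, ∀ b ∈ S, a ∈ G x → b ∈ G x → g a = g b → a = b := by
    intro x hx a ha b hb hax hbx hab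
    by_contra hne
    exact h.proper a (Finset.mem_union_right _ ha) b (Finset.mem_union_right _ hb)
      (hcl x hx a hax b hbx hne) hab
  -- the colour
  obtain ⟨γ, hγA, hγ⟩ : ∃ γ ∈ A x₀, ∀ u ∈ S, u ∈ G x₀ → g u ≠ γ := by
    by_contra hcon
    push Not at hcon
    have h1 : A x₀ ⊆ (S.filter fun u => u ∈ G x₀).image g := by
      intro γ hγ
      obtain ⟨u, hu, hux, hug⟩ := hcon γ hγ
      exact Finset.mem_image.2 ⟨u, Finset.mem_filter.2 ⟨hu, hux⟩, hug⟩
    have h2 := (Finset.card_le_card h1).trans Finset.card_image_le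
    have h3 : (S.filter fun u => u ∈ G x₀).card < (G x₀ \ F).card := by
      apply Finset.card_lt_card
      rw [Finset.ssubset_iff]
      refine ⟨u₀, fun hm => hu₀S (Finset.mem_filter.1 hm).1, ?_⟩
      intro v hv
      rcases Finset.mem_insert.1 hv with rfl | hv
      · exact Finset.mem_sdiff.2 ⟨hux₀, hu₀F⟩
      · rw [Finset.mem_filter] at hv
        exact Finset.mem_sdiff.2 ⟨hv.2, h.dF v hv.1⟩
    have h4 := hA x₀ hx₀
    omega
  -- colours seen from outside
  have out : ∀ x ∈ C, ∀ z ∈ G x, (S.filter fun y => y ∈ G x ∧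
      ∃ v ∈ F ∪ S, v ∉ G x ∧ H.Adj z v ∧ g v = g y).card ≤ d := by
    intro x hx z hz
    refine le_trans ?_ (hd x hx z hz)
    have h1 : (S.filter fun y => y ∈ G x ∧
        ∃ v ∈ F ∪ S, v ∉ G x ∧ H.Adj z v ∧ g v = g y).image g ⊆
        ((Finset.univ \ G x).filter fun u => H.Adj z u).image g := by
      intro c hc
      obtain ⟨y, hy, rfl⟩ := Finset.mem_image.1 hc
      obtain ⟨_, _, v, _, hv1, hv2, hv3⟩ := Finset.mem_filter.1 hy
      exact Finset.mem_image.2 ⟨v, Finset.mem_filter.2 ⟨Finset.mem_sdiff.2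
        ⟨Finset.mem_univ _, hv1⟩, hv2⟩, hv3⟩
    have h2 : ((S.filter fun y => y ∈ G x ∧
        ∃ v ∈ F ∪ S, v ∉ G x ∧ H.Adj z v ∧ g v = g y).image g).card =
        (S.filter fun y => y ∈ G x ∧
          ∃ v ∈ F ∪ S, v ∉ G x ∧ H.Adj z v ∧ g v = g y).card := by
      apply Finset.card_image_of_injOn
      intro a ha b hb hab
      have ha' := Finset.mem_filter.1 (Finset.mem_coe.1 ha)
      have hb' := Finset.mem_filter.1 (Finset.mem_coe.1 hb)
      exact inj x hx a ha'.1 b hb'.1 ha'.2.1 hb'.2.1 hab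
    rw [← h2]
    exact (Finset.card_le_card h1).trans Finset.card_image_le
  -- the partner of `u₀`
  obtain ⟨y₀, hy₀G, hy₀F, hy₀γ, hy₀S⟩ : ∃ y₀ ∈ G x₀, y₀ ∉ F ∧
      (∀ v ∈ F, H.Adj y₀ v → f v ≠ γ) ∧
      (y₀ ∈ S → ∀ v ∈ F ∪ S, v ∉ G x₀ → H.Adj u₀ v → g v ≠ g y₀) := by
    by_contra hcon
    push Not at hcon
    have h1 : ((G x₀ \ F).filter fun u => ∀ v ∈ F, H.Adj u v → f v ≠ γ) ⊆
        S.filter fun y => y ∈ G x₀ ∧ ∃ v ∈ F ∪ S, v ∉ G x₀ ∧ H.Adj u₀ v ∧ g v = g y := by
      intro y hy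
      rw [Finset.mem_filter, Finset.mem_sdiff] at hy
      obtain ⟨hyS, v, hv1, hv2, hv3, hv4⟩ := hcon y hy.1.1 hy.1.2 hy.2
      exact Finset.mem_filter.2 ⟨hyS, hy.1.1, v, hv1, hv2, hv3, hv4⟩
    have h2 := hw x₀ hx₀ γ hγA
    have h3 := (Finset.card_le_card h1).trans (out x₀ hx₀ u₀ hux₀)
    omega
  -- the other cliques
  set J : Finset V := C.filter fun x => x ≠ x₀ ∧ ∃ u ∈ S, u ∈ G x ∧ g u = γ with hJ
  have hu : ∀ x : V, ∃ u : V, x ∈ J → u ∈ S ∧ u ∈ G x ∧ g u = γ := by
    intro x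
    by_cases hx : x ∈ J
    · obtain ⟨_, _, u, hu⟩ := Finset.mem_filter.1 hx
      exact ⟨u, fun _ => hu⟩
    · exact ⟨x, fun h => absurd h hx⟩
  choose u hu using hu
  have hJC : ∀ x ∈ J, x ∈ C := fun x hx => (Finset.mem_filter.1 hx).1
  have hJne : ∀ x ∈ J, x ≠ x₀ := fun x hx => (Finset.mem_filter.1 hx).2.1
  set W : V → Finset V := fun x => (G x \ F).filter fun y =>
    (∀ v ∈ F, H.Adj y v → f v ≠ γ) ∧ ¬ H.Adj y₀ y ∧
      (y ∈ S → (∀ v ∈ F ∪ S, v ∉ G x → H.Adj (u x) v → g v ≠ g y) ∧ (y₀ ∈ S → g y₀ ≠ g y))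
    with hW
  have hWG : ∀ x, W x ⊆ G x := fun x y hy =>
    (Finset.mem_sdiff.1 (Finset.mem_filter.1 hy).1).1
  have hWcard : ∀ x ∈ J, 16 * d + 4 ≤ (W x).card := by
    intro x hx
    have hγx : γ ∈ A x := by
      have h1 := h.mem x (hJC x hx) (u x) (hu x hx).1 (hu x hx).2.1
      rwa [(hu x hx).2.2] at h1
    have h1 := hw x (hJC x hx) γ hγx
    have h2 : ((G x \ F).filter fun u => ∀ v ∈ F, H.Adj u v → f v ≠ γ) ⊆
        ((W x ∪ (Finset.univ \ G x₀).filter fun v => H.Adj y₀ v) ∪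
          (S.filter fun y => y ∈ G x ∧
            ∃ v ∈ F ∪ S, v ∉ G x ∧ H.Adj (u x) v ∧ g v = g y)) ∪
          S.filter fun y => y ∈ G x ∧ g y₀ = g y := by
      intro y hy
      rw [Finset.mem_filter, Finset.mem_sdiff] at hy
      by_contra hcon
      simp only [Finset.mem_union, not_or] at hcon
      obtain ⟨⟨⟨c1, c2⟩, c3⟩, c4⟩ := hcon
      apply c1
      refine Finset.mem_filter.2 ⟨Finset.mem_sdiff.2 hy.1, hy.2, ?_, fun hyS => ⟨?_, ?_⟩⟩
      · intro hadj
        apply c2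
        refine Finset.mem_filter.2 ⟨Finset.mem_sdiff.2 ⟨Finset.mem_univ _, fun hy0 => ?_⟩, hadj⟩
        exact Finset.disjoint_left.1 (hG x (hJC x hx) x₀ hx₀ (hJne x hx)) hy.1.1 hy0
      · intro v hv hvx hadj hg
        exact c3 (Finset.mem_filter.2 ⟨hyS, hy.1.1, v, Finset.mem_union.1 hv, hvx, hadj, hg⟩)
      · intro _ hg
        exact c4 (Finset.mem_filter.2 ⟨hyS, hy.1.1, hg⟩)
    have h3 : ((Finset.univ \ G x₀).filter fun v => H.Adj y₀ v).card ≤ d := hd x₀ hx₀ y₀ hy₀G
    have h4 := out x (hJC x hx) (u x) (hu x hx).2.1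
    have h5 : (S.filter fun y => y ∈ G x ∧ g y₀ = g y).card ≤ 1 := by
      rw [Finset.card_le_one]
      intro a ha b hb
      rw [Finset.mem_filter] at ha hb
      exact inj x (hJC x hx) a ha.1 b hb.1 ha.2.1 hb.2.1 (ha.2.2.symm.trans hb.2.2)
    have h6 := Finset.card_le_card h2
    have h7 := Finset.card_union_le ((W x ∪ (Finset.univ \ G x₀).filter fun v => H.Adj y₀ v) ∪
          (S.filter fun y => y ∈ G x ∧
            ∃ v ∈ F ∪ S, v ∉ G x ∧ H.Adj (u x) v ∧ g v = g y))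
          (S.filter fun y => y ∈ G x ∧ g y₀ = g y)
    have h8 := Finset.card_union_le (W x ∪ (Finset.univ \ G x₀).filter fun v => H.Adj y₀ v)
          (S.filter fun y => y ∈ G x ∧
            ∃ v ∈ F ∪ S, v ∉ G x ∧ H.Adj (u x) v ∧ g v = g y)
    have h9 := Finset.card_union_le (W x) ((Finset.univ \ G x₀).filter fun v => H.Adj y₀ v)
    omega
  obtain ⟨y, hyW, hyadj⟩ := transversal H J W d (16 * d + 4)
    (fun x hx x' hx' hne => Finset.disjoint_of_subset_left (hWG x)
      (Finset.disjoint_of_subset_right (hWG x') (hG x (hJC x hx) x' (hJC x' hx') hne)))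
    hWcard (fun x hx v hv => by
      refine le_trans (dg_mono H ?_ v) (hd x (hJC x hx) v (hWG x hv))
      intro z hz
      obtain ⟨x', hx', hzx'⟩ := Finset.mem_biUnion.1 hz
      rw [Finset.mem_erase] at hx'
      refine Finset.mem_sdiff.2 ⟨Finset.mem_univ _, fun hzx => ?_⟩
      exact Finset.disjoint_left.1 (hG x' (hJC x' hx'.2) x (hJC x hx) hx'.1) (hWG x' hzx') hzx)
    le_rfl
  have hyS : ∀ x ∈ J, y x ∈ G x ∧ y x ∉ F ∧ (∀ v ∈ F, H.Adj (y x) v → f v ≠ γ) ∧
      ¬ H.Adj y₀ (y x) ∧ (y x ∈ S → (∀ v ∈ F ∪ S, v ∉ G x → H.Adj (u x) v → g v ≠ g (y x)) ∧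
        (y₀ ∈ S → g y₀ ≠ g (y x))) := by
    intro x hx
    have h1 := Finset.mem_filter.1 (hyW x hx)
    have h2 := Finset.mem_sdiff.1 h1.1
    exact ⟨h2.1, h2.2, h1.2⟩
  have hx₀J : x₀ ∉ J := fun hx => hJne x₀ hx rfl
  -- the data of the swap
  have hU0 : Function.update u x₀ u₀ x₀ = u₀ := Function.update_self _ _ _
  have hY0 : Function.update y x₀ y₀ x₀ = y₀ := Function.update_self _ _ _
  have hU1 : ∀ x ∈ J, Function.update u x₀ u₀ x = u x := fun x hx =>
    Function.update_of_ne (hJne x hx) _ _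
  have hY1 : ∀ x ∈ J, Function.update y x₀ y₀ x = y x := fun x hx =>
    Function.update_of_ne (hJne x hx) _ _
  have hg0 : Function.update g u₀ γ u₀ = γ := Function.update_self _ _ _
  have hg1 : ∀ v, v ≠ u₀ → Function.update g u₀ γ v = g v := fun v hv =>
    Function.update_of_ne hv _ _
  have hne0 : ∀ v, Function.update g u₀ γ v ≠ γ → v ≠ u₀ := by
    rintro v hv rfl
    exact hv hg0
  have hinS : ∀ v, v ∈ insert u₀ S → v ≠ u₀ → v ∈ S := fun v hv hne =>
    (Finset.mem_insert.1 hv).resolve_left hne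
  have hinFS : ∀ v, v ∈ F ∪ insert u₀ S → v ≠ u₀ → v ∈ F ∪ S := by
    intro v hv hne
    rcases Finset.mem_union.1 hv with hv | hv
    · exact Finset.mem_union_left _ hv
    · exact Finset.mem_union_right _ (hinS v hv hne)
  have hres := swap_step H F f hf C G hG hcl A (insert u₀ S) (Function.update g u₀ γ)
    (insert x₀ J) ?_ (Function.update u x₀ u₀) (Function.update y x₀ y₀) γ ?_ ?_ ?_ ?_ ?_ ?_ ?_
    ?_ ?_ ?_ ?_ ?_
  · obtain ⟨S', g', hi, hc⟩ := hres
    exact ⟨S', g', hi, by rw [hc, Finset.card_insert_of_notMem hu₀S]⟩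
  · -- J ⊆ C
    intro x hx
    rcases Finset.mem_insert.1 hx with rfl | hx
    · exact hx₀
    · exact hJC x hx
  · -- S ⊆
    intro v hv
    rcases Finset.mem_insert.1 hv with rfl | hv
    · exact hu₀
    · exact h.sub hv
  · intro v hv
    rcases Finset.mem_insert.1 hv with rfl | hv
    · exact hu₀F
    · exact h.dF v hv
  · intro v hv
    rw [hg1 v (fun he => hu₀F (he ▸ hv))]
    exact h.ext v hv
  · -- hU
    intro x hx
    rcases Finset.mem_insert.1 hx with rfl | hx
    · rw [hU0]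
      exact ⟨hux₀, Finset.mem_insert_self _ _, hg0⟩
    · rw [hU1 x hx]
      have h1 := hu x hx
      refine ⟨h1.2.1, Finset.mem_insert_of_mem h1.1, ?_⟩
      rw [hg1 _ (fun he => hu₀S (he ▸ h1.1))]
      exact h1.2.2
  · -- hY
    intro x hx
    rcases Finset.mem_insert.1 hx with rfl | hx
    · rw [hY0]
      exact ⟨hy₀G, hy₀F⟩
    · rw [hY1 x hx]
      exact ⟨(hyS x hx).1, (hyS x hx).2.1⟩
  · -- h2
    intro z hz hzγ
    by_cases hz0 : z = u₀
    · exact ⟨x₀, Finset.mem_insert_self _ _, by rw [hU0, hz0]⟩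
    · have hzS := hinS z hz hz0
      rw [hg1 z hz0] at hzγ
      obtain ⟨x, hx, hzx⟩ := Finset.mem_biUnion.1 (h.sub hzS)
      have hne : x ≠ x₀ := by
        rintro rfl
        exact hγ z hzS hzx hzγ
      have hxJ : x ∈ J := Finset.mem_filter.2 ⟨hx, hne, z, hzS, hzx, hzγ⟩
      refine ⟨x, Finset.mem_insert_of_mem hxJ, ?_⟩
      rw [hU1 x hxJ]
      exact inj x hx z hzS (u x) (hu x hxJ).1 hzx (hu x hxJ).2.1
        (hzγ.trans (hu x hxJ).2.2.symm)
  · -- h3
    intro x hx
    rcases Finset.mem_insert.1 hx with rfl | hx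
    · rw [hY0]
      exact hy₀γ
    · rw [hY1 x hx]
      exact (hyS x hx).2.2.1
  · -- h4
    intro x hx x' hx' hne
    rcases Finset.mem_insert.1 hx with hx1 | hx1
    · rcases Finset.mem_insert.1 hx' with hx2 | hx2
      · exact absurd (hx1.trans hx2.symm) hne
      · rw [hx1, hY0, hY1 x' hx2]
        exact (hyS x' hx2).2.2.2.1
    · rcases Finset.mem_insert.1 hx' with hx2 | hx2
      · rw [hx2, hY0, hY1 x hx1]
        exact fun hadj => (hyS x hx1).2.2.2.1 hadj.symm
      · rw [hY1 x hx1, hY1 x' hx2]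
        exact hyadj x hx1 x' hx2 hne
  · -- h5
    intro x hx hYS hYγ v hv hvx hvγ hadj
    have hY' := hne0 _ hYγ
    have hv' := hne0 _ hvγ
    rw [hg1 _ hY', hg1 _ hv']
    have hYS' := hinS _ hYS hY'
    have hvS := hinFS v hv hv'
    rcases Finset.mem_insert.1 hx with rfl | hx
    · rw [hY0] at hYS' ⊢
      rw [hU0] at hadj
      exact hy₀S hYS' v hvS hvx hadj
    · rw [hY1 x hx] at hYS' ⊢
      rw [hU1 x hx] at hadj
      exact ((hyS x hx).2.2.2.2 hYS').1 v hvS hvx hadj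
  · -- h6
    intro a ha b hb hab haγ
    have ha' := hne0 _ haγ
    by_cases hb' : b = u₀
    · rw [hb', hg0]
      exact haγ
    · rw [hg1 _ ha', hg1 _ hb']
      exact h.proper a (hinFS a ha ha') b (hinFS b hb hb') hab
  · -- h7
    intro x hx x' hx' hne hadj hYS hYS' hYγ
    have hY' := hne0 _ hYγ
    rw [hg1 _ hY']
    have hYS1 := hinS _ hYS hY'
    by_cases hb' : Function.update y x₀ y₀ x' = u₀
    · rw [hb', hg0]
      rw [hg1 _ hY'] at hYγ
      exact hYγ
    · rw [hg1 _ hb']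
      have hYS2 := hinS _ hYS' hb'
      rcases Finset.mem_insert.1 hx with hx1 | hx1
      · rcases Finset.mem_insert.1 hx' with hx2 | hx2
        · exact absurd (hx1.trans hx2.symm) hne
        · rw [hx1, hY0] at hYS1 ⊢
          rw [hY1 x' hx2] at hYS2 ⊢
          exact ((hyS x' hx2).2.2.2.2 hYS2).2 hYS1
      · rcases Finset.mem_insert.1 hx' with hx2 | hx2
        · rw [hx2, hY0] at hYS2 ⊢
          rw [hY1 x hx1] at hYS1 ⊢
          exact (((hyS x hx1).2.2.2.2 hYS1).2 hYS2).symm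
        · exfalso
          rw [hU1 x hx1, hU1 x' hx2] at hadj
          exact h.proper _ (Finset.mem_union_right _ (hu x hx1).1) _
            (Finset.mem_union_right _ (hu x' hx2).1) hadj
            ((hu x hx1).2.2.trans (hu x' hx2).2.2.symm)
  · -- h9
    intro x hx v hv hvx
    by_cases hv0 : v = u₀
    · rw [hv0] at hvx ⊢
      rw [hg0]
      have : x = x₀ := by
        by_contra hne
        exact Finset.disjoint_left.1 (hG x hx x₀ hx₀ hne) hvx hux₀
      rw [this]
      exact hγA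
    · rw [hg1 v hv0]
      exact h.mem x hx v (hinS v hv hv0) hvx

theorem completion {V : Type} [Fintype V] [DecidableEq V] {X : ℕ} (H : SimpleGraph V)
    [DecidableRel H.Adj] (F : Finset V) (f : V → Fin X) (hf : Proper H F f) (C : Finset V)
    (G : V → Finset V) (hG : ∀ x ∈ C, ∀ y ∈ C, x ≠ y → Disjoint (G x) (G y))
    (hcl : ∀ x ∈ C, ∀ u ∈ G x, ∀ v ∈ G x, u ≠ v → H.Adj u v)
    (A : V → Finset (Fin X)) (hA : ∀ x ∈ C, (G x \ F).card ≤ (A x).card)
    (hAF : ∀ x ∈ C, ∀ u ∈ G x, u ∈ F → f u ∉ A x) (w d : ℕ)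
    (hw : ∀ x ∈ C, ∀ γ ∈ A x,
      w ≤ ((G x \ F).filter fun u => ∀ v ∈ F, H.Adj u v → f v ≠ γ).card)
    (hd : ∀ x ∈ C, ∀ u ∈ G x, dg H (Finset.univ \ G x) u ≤ d) (hwd : 20 * d + 20 ≤ w) :
    ∃ g : V → Fin X, (∀ v ∈ F, g v = f v) ∧ Proper H (F ∪ C.biUnion G) g := by
  classical
  have key : ∀ n : ℕ, (∃ (S : Finset V) (g : V → Fin X), Inv H F f C G A S g ∧ n ≤ S.card) ∨
      ∃ (S : Finset V) (g : V → Fin X), Inv H F f C G A S g ∧
        ∀ v ∈ C.biUnion G, v ∉ F → v ∈ S := by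
    intro n
    induction n with
    | zero =>
      refine Or.inl ⟨∅, f, ⟨Finset.empty_subset _, ?_, fun _ _ => rfl, ?_, ?_⟩, Nat.zero_le _⟩
      · intro v hv
        exact absurd hv (Finset.notMem_empty v)
      · rw [Finset.union_empty]
        exact hf
      · intro x _ v hv
        exact absurd hv (Finset.notMem_empty v)
    | succ n ih =>
      rcases ih with ⟨S, g, hS, hn⟩ | hd
      · by_cases hall : ∀ v ∈ C.biUnion G, v ∉ F → v ∈ S
        · exact Or.inr ⟨S, g, hS, hall⟩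
        · push Not at hall
          obtain ⟨u₀, hu₀, hu₀F, hu₀S⟩ := hall
          obtain ⟨S', g', hi, hc⟩ := step H F f hf C G hG hcl A hA w d hw hd hwd S g hS u₀ hu₀
            hu₀F hu₀S
          exact Or.inl ⟨S', g', hi, by omega⟩
      · exact Or.inr hd
  rcases key ((Finset.univ : Finset V).card + 1) with ⟨S, g, _, hn⟩ | ⟨S, g, hS, hall⟩
  · have := Finset.card_le_univ S
    rw [Finset.card_univ] at hn
    omega
  · refine ⟨g, hS.ext, hS.proper.mono ?_⟩
    intro v hv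
    rcases Finset.mem_union.1 hv with hv | hv
    · exact Finset.mem_union_left _ hv
    · by_cases hvF : v ∈ F
      · exact Finset.mem_union_left _ hvF
      · exact Finset.mem_union_right _ (hall v hv hvF)

end Pool.Agent.Helper48.LK
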