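import Pool.Agent.Helper48.LK.T6a
import Pool.Agent.Helper48.LK.T4_Complete

/-!
# T6b. Colouring a decomposed graph
-/

set_option autoImplicit false
set_option linter.unusedSectionVars false

namespace Pool.Agent.Helper48.LK

open Pool.Agent.Helper32.Sq

theorem colour_dec (σ κ e C1 CR C5 c2 : ℝ) (hσ : 0 < σ) (hκ : 0 < κ) (hκ1 : κ ≤ 1 / 2)
    (he : 0 < e) (heκ : e ≤ κ / 200) (hC1 : 0 < C1) (hCR : 0 < CR)
    (hC5 : 96 * (pm 3 (κ / 16) : ℝ) ^ 2 ≤ C5) (hc2 : 0 < c2) :
    ∃ k0 : ℕ, ∀ k : ℕ, k0 ≤ k → ∃ D0 : ℕ, ∀ D : ℕ, D0 ≤ D → ∀ T : ℕ,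
      (2 * k - 3 / 2) * D ≤ (T : ℝ) → (T : ℝ) ≤ 3 * k * D →
      ∀ (V : Type) [Fintype V] [DecidableEq V] (H : SimpleGraph V) [DecidableRel H.Adj]
        (C : Finset V) (G R : V → Finset V) (O : Finset V),
        Dec k D T σ κ e C1 CR C5 c2 H C G R O →
        ∃ f : V → Fin T, Proper H Finset.univ f := by
  classical
  set m : ℝ := (pm 3 (κ / 16) : ℝ) with hm
  have hm0 : 0 < m := by
    rw [hm]
    have h1 : (0 : ℝ) < 16 * 3 + 2 * 3 / (κ / 16) := by positivity
    have h2 : 0 < pm 3 (κ / 16) := Nat.ceil_pos.2 h1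
    exact_mod_cast h2
  have hC50 : 0 < C5 := lt_of_lt_of_le (by positivity) hC5
  set M : ℕ := ⌈8 * CR / σ⌉₊ + 4 with hM
  have hM4 : (4 : ℝ) ≤ M := by
    rw [hM]
    push_cast
    have : (0 : ℝ) ≤ (⌈8 * CR / σ⌉₊ : ℝ) := by positivity
    linarith
  have hM0' : (0 : ℝ) < M := by linarith
  have hM0 : 0 < M := by exact_mod_cast hM0'
  have hMCR : CR / M ≤ σ / 8 := by
    have h1 : 8 * CR / σ ≤ (M : ℝ) := by
      rw [hM]
      push_cast
      have := Nat.le_ceil (8 * CR / σ)
      linarith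
    rw [div_le_iff₀ hσ] at h1
    rw [div_le_iff₀ hM0']
    linarith
  set δ : ℝ := min (σ / 8) (1 / 8) with hδ
  have hδ0 : 0 < δ := by positivity
  have hδ1 : δ ≤ σ / 8 := min_le_left _ _
  have hδ2 : δ ≤ 1 / 8 := min_le_right _ _
  refine ⟨⌈256 * C1 ^ 2 / (κ * σ) + 2 * M * (1 / 8 + σ / 4) / c2 +
    4 * M * (C1 + C5) / c2⌉₊ + 2, ?_⟩
  intro k hk
  have hk1 : 256 * C1 ^ 2 / (κ * σ) + 2 * M * (1 / 8 + σ / 4) / c2 +
    4 * M * (C1 + C5) / c2 + 2 ≤ (k : ℝ) := by
    have h1 := Nat.le_ceil (256 * C1 ^ 2 / (κ * σ) + 2 * M * (1 / 8 + σ / 4) / c2 +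
      4 * M * (C1 + C5) / c2)
    have h2 : ((⌈256 * C1 ^ 2 / (κ * σ) + 2 * M * (1 / 8 + σ / 4) / c2 +
      4 * M * (C1 + C5) / c2⌉₊ + 2 : ℕ) : ℝ) ≤ k := by exact_mod_cast hk
    push_cast at h2
    linarith
  have t1 : 0 < 256 * C1 ^ 2 / (κ * σ) := by positivity
  have t2 : 0 < 2 * M * (1 / 8 + σ / 4) / c2 := by positivity
  have t3 : 0 < 4 * M * (C1 + C5) / c2 := by positivity
  have hk2 : (2 : ℝ) ≤ k := by linarith
  have hkpos : (1 : ℝ) ≤ k := by linarith
  have hk0 : (0 : ℝ) < k := by linarith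
  have hkn : 0 < k := by exact_mod_cast hk0
  have ka : 256 * C1 ^ 2 ≤ κ * σ * k := by
    have h1 : 256 * C1 ^ 2 / (κ * σ) ≤ k := by linarith
    rw [div_le_iff₀ (by positivity)] at h1
    linarith
  have kb : 2 * M * (1 / 8 + σ / 4) ≤ c2 * k := by
    have h1 : 2 * M * (1 / 8 + σ / 4) / c2 ≤ k := by linarith
    rw [div_le_iff₀ hc2] at h1
    linarith
  have kc : 4 * M * (C1 + C5) ≤ c2 * k := by
    have h1 : 4 * M * (C1 + C5) / c2 ≤ k := by linarith
    rw [div_le_iff₀ hc2] at h1
    linarith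
  obtain ⟨D1, hD1⟩ := sample_rigid k M CR δ hM0 hCR hδ0
  obtain ⟨D2, hD2⟩ := Pool.Agent.Helper32.LK.exists_partialB 3 (C5 / k) (κ / 16) κ (2 * C1 / k)
    (σ / (4 * k)) (by norm_num) (by positivity) (by positivity) hκ hκ1 (by positivity)
    (by positivity) (by
      have h1 : 16 * (2 * C1 / (k : ℝ)) ^ 2 = 64 * C1 ^ 2 / k ^ 2 := by
        field_simp
        ring
      have h2 : κ * (σ / (4 * (k : ℝ))) = κ * σ * k / (4 * k ^ 2) := by
        field_simp
      rw [h1, h2, div_le_div_iff₀ (by positivity) (by positivity)]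
      have h3 : (0 : ℝ) ≤ (k : ℝ) ^ 2 := by positivity
      nlinarith)
  refine ⟨max D1 (max D2 ⌈2 + 1000 / κ⌉₊), ?_⟩
  intro D hD T hT1 hT2 V _ _ H _ C G R O dec
  have hDa : D1 ≤ D := (le_max_left _ _).trans hD
  have hDb : D2 ≤ D := ((le_max_left _ _).trans (le_max_right _ _)).trans hD
  have hDc : 2 + 1000 / κ ≤ (D : ℝ) := (Nat.le_ceil _).trans (by
    exact_mod_cast ((le_max_right _ _).trans (le_max_right _ _)).trans hD)
  have t4 : 0 < 1000 / κ := by positivity
  have hD' : (2 : ℝ) ≤ D := by linarith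
  have hD0 : (0 : ℝ) < D := by linarith
  have hκD : 1000 ≤ κ * D := by
    have h1 : 1000 / κ ≤ (D : ℝ) := by linarith
    rw [div_le_iff₀ hκ] at h1
    linarith
  have hκkD : 1000 ≤ κ * k * D := by
    have : κ * D * 1 ≤ κ * D * k := mul_le_mul_of_nonneg_left hkpos (by positivity)
    nlinarith
  set Rg := C.biUnion R with hRg
  set GG := C.biUnion G with hGG
  -- disjointness
  have dGR : ∀ x ∈ C, ∀ y ∈ C, ∀ u, u ∈ G x → u ∉ R y := by
    intro x hx y hy u hu hu'
    by_cases hxy : x = y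
    · subst hxy
      exact Finset.disjoint_left.1 (dec.disjGR x hx) hu hu'
    · exact Finset.disjoint_left.1 (dec.disj x hx y hy hxy) (Finset.mem_union_left _ hu)
        (Finset.mem_union_right _ hu')
  have dOR : ∀ y ∈ C, ∀ u, u ∈ O → u ∉ R y := by
    intro y hy u hu hu'
    exact Finset.disjoint_left.1 (dec.disjO y hy) (Finset.mem_union_right _ hu') hu
  have dGG : ∀ x ∈ C, ∀ y ∈ C, x ≠ y → Disjoint (G x) (G y) := fun x hx y hy hxy =>
    Finset.disjoint_of_subset_left Finset.subset_union_left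
      (Finset.disjoint_of_subset_right Finset.subset_union_left (dec.disj x hx y hy hxy))
  obtain ⟨Rs, hRs1, hRs2, hRs3⟩ := hD1 D hDa V H C R
    (fun x hx y hy hxy => Finset.disjoint_of_subset_left Finset.subset_union_right
      (Finset.disjoint_of_subset_right Finset.subset_union_right (dec.disj x hx y hy hxy)))
    dec.cardR dec.deg
  rw [← hRg] at hRs1 hRs3
  have hRsx : ∀ x ∈ C, ((R x ∩ Rs).card : ℝ) ≤ σ / 4 * D := by
    intro x hx
    refine (hRs2 x hx).trans ?_
    have h1 : ((R x).card : ℝ) / M ≤ σ / 8 * D := by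
      rw [div_le_iff₀ hM0']
      refine (dec.cardR x hx).trans ?_
      rw [div_le_iff₀ hM0'] at hMCR
      nlinarith
    have h2 : δ * D ≤ σ / 8 * D := mul_le_mul_of_nonneg_right hδ1 hD0.le
    linarith
  set Z := (GG ∪ O) ∪ Rs with hZ
  have hGZ : ∀ x ∈ C, G x ⊆ Z := by
    intro x hx u hu
    exact Finset.mem_union_left _ (Finset.mem_union_left _ (Finset.mem_biUnion.2 ⟨x, hx, hu⟩))
  have hsuppZ : ∀ v w, H.Adj v w → w ∉ Rg → w ∈ Z := by
    intro v w hvw hw
    have := dec.supp w v hvw.symm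
    rw [Finset.mem_union, Finset.mem_union] at this
    rcases this with (h | h) | h
    · exact Finset.mem_union_left _ (Finset.mem_union_left _ h)
    · exact absurd h hw
    · exact Finset.mem_union_left _ (Finset.mem_union_right _ h)
  have hZR : ∀ x ∈ C, ∀ u, u ∈ Z → u ∈ R x → u ∈ Rs := by
    intro x hx u hu huR
    rw [hZ, Finset.mem_union, Finset.mem_union, hGG, Finset.mem_biUnion] at hu
    rcases hu with (⟨y, hy, huy⟩ | hu) | hu
    · exact absurd huR (dGR y hy x hx u huy)
    · exact absurd huR (dOR x hx u hu)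
    · exact hu
  -- the blocks
  set ctr : V → V := fun v => if h : ∃ x ∈ C, v ∈ G x then h.choose else v with hctr
  have hctr' : ∀ x ∈ C, ∀ v ∈ G x, ctr v = x := by
    intro x hx v hv
    have h : ∃ x ∈ C, v ∈ G x := ⟨x, hx, hv⟩
    simp only [hctr]
    rw [dif_pos h]
    by_contra hne
    exact Finset.disjoint_left.1 (dGG _ h.choose_spec.1 x hx hne) h.choose_spec.2 hv
  set Low := (Finset.univ : Finset V).filter fun v =>
    C5 * k * D ^ 2 ≤ (nad H (nbr H Z v) : ℝ) with hLow
  have hcast : ((k * D : ℕ) : ℝ) = k * D := by push_cast; rfl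
  have hGne : ∀ x ∈ C, (G x).Nonempty := by
    intro x hx
    have h1 := dec.card_ge x hx
    have h2 : (0 : ℝ) < (G x).card := lt_of_lt_of_le (by positivity) h1
    exact Finset.card_pos.1 (by exact_mod_cast h2)
  obtain ⟨F, f, hFZ, hf, hFd, hFl, hFm⟩ := hD2 (k * D)
    (hDb.trans (Nat.le_mul_of_pos_left D hkn)) T (by
      have h1 : ((k * D : ℕ) : ℝ) ≤ T := by
        rw [hcast]
        refine le_trans ?_ hT1
        nlinarith
      exact_mod_cast h1) (by rw [hcast]; linarith) V H Z Low GG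
    (fun v => G (ctr v)) (fun v => R (ctr v)) (by
      intro v
      rw [hcast]
      have := dec.deg v
      linarith) (by
      intro v hv
      rw [hLow, Finset.mem_filter] at hv
      refine le_trans (le_of_eq ?_) hv.2
      rw [hcast]
      field_simp) (by
      intro v hv
      rw [hGG, Finset.mem_biUnion] at hv
      obtain ⟨x, hx, hvx⟩ := hv
      show G (ctr v) ⊆ _ ∧ (G (ctr v)).Nonempty
      rw [hctr' x hx v hvx]
      refine ⟨?_, hGne x hx⟩
      intro u hu
      rw [Finset.mem_insert, mem_nbr]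
      by_cases huv : u = v
      · exact Or.inl huv
      · exact Or.inr ⟨hGZ x hx hu, dec.clique x hx v hvx u hu (fun h => huv h.symm)⟩) (by
      intro v hv w _ hw hw'
      rw [hGG, Finset.mem_biUnion] at hv
      obtain ⟨x, hx, hvx⟩ := hv
      have hw2 : w ∉ G (ctr v) := hw
      have hw3 : w ∉ R (ctr v) := hw'
      rw [hctr' x hx v hvx] at hw2 hw3
      show (dg H (G (ctr v)) w : ℝ) ≤ (1 - κ) * (G (ctr v)).card
      rw [hctr' x hx v hvx]
      exact dec.far x hx w hw2 hw3) (by
      intro v hv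
      rw [hGG, Finset.mem_biUnion] at hv
      obtain ⟨x, hx, hvx⟩ := hv
      show ∑ w ∈ Z \ (G (ctr v) ∪ R (ctr v)), (dg H (G (ctr v)) w : ℝ) ≤
        2 * C1 / k * ((k * D : ℕ) : ℝ) * (G (ctr v)).card
      rw [hctr' x hx v hvx, hcast]
      have h1 : ∑ w ∈ Z \ (G x ∪ R x), (dg H (G x) w : ℝ) ≤
          ∑ w ∈ Finset.univ \ (G x ∪ R x), (dg H (G x) w : ℝ) := by
        apply Finset.sum_le_sum_of_subset_of_nonneg
        · exact Finset.sdiff_subset_sdiff (Finset.subset_univ _) (Finset.Subset.refl _)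
        · intro _ _ _; positivity
      have h2 : ∑ w ∈ Finset.univ \ (G x ∪ R x), (dg H (G x) w : ℝ) =
          ∑ u ∈ G x, (dg H (Finset.univ \ (G x ∪ R x)) u : ℝ) := by
        exact_mod_cast sum_dg_comm H (Finset.univ \ (G x ∪ R x)) (G x)
      have h3 := dec.tot x hx
      have h4 := dec.card_ge x hx
      have h5 : 2 * C1 / (k : ℝ) * (k * D) * (G x).card = 2 * C1 * D * (G x).card := by
        field_simp
      rw [h5]
      have h6 : 2 * C1 * D * ((k : ℝ) * D / 2) ≤ 2 * C1 * D * (G x).card :=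
        mul_le_mul_of_nonneg_left h4 (by positivity)
      rw [h2] at h1
      nlinarith)
  -- consequences of the partial colouring
  have hFG : ∀ x ∈ C, ((G x ∩ F).card : ℝ) ≤ κ / 16 * k * D + 1 := by
    intro x hx
    obtain ⟨v, hv⟩ := hGne x hx
    have h1 : G x ∩ F ⊆ insert v (nbr H F v) := by
      intro u hu
      rw [Finset.mem_inter] at hu
      rw [Finset.mem_insert, mem_nbr]
      by_cases huv : u = v
      · exact Or.inl huv
      · exact Or.inr ⟨hu.2, dec.clique x hx v hv u hu.1 (fun h => huv h.symm)⟩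
    have h2 := (Finset.card_le_card h1).trans (Finset.card_insert_le _ _)
    have h3 : ((G x ∩ F).card : ℝ) ≤ (nbr H F v).card + 1 := by exact_mod_cast h2
    have h4 := hFd v
    rw [dg_eq, hcast] at h4
    linarith
  have hFR : ∀ x ∈ C, ((F ∩ R x).card : ℝ) ≤ σ / 4 * D := by
    intro x hx
    refine le_trans ?_ (hRsx x hx)
    have : F ∩ R x ⊆ R x ∩ Rs := by
      intro u hu
      rw [Finset.mem_inter] at hu ⊢
      exact ⟨hu.2, hZR x hx u (hFZ hu.1) hu.2⟩
    exact_mod_cast Finset.card_le_card this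
  set Bad : V → Finset (Fin T) := fun x => (Finset.univ : Finset (Fin T)).filter fun γ =>
    (1 - κ / 2) * ((G x).card : ℝ) < (((G x).filter fun u =>
      ∃ w ∈ F, w ∉ G x ∧ w ∉ R x ∧ H.Adj u w ∧ f w = γ).card : ℝ) with hBad
  have hBadc : ∀ x ∈ C, ((Bad x).card : ℝ) ≤ σ / 4 * D := by
    intro x hx
    obtain ⟨v, hv⟩ := hGne x hx
    have h1 := hFm v (Finset.mem_biUnion.2 ⟨x, hx, hv⟩)
    simp only [hctr' x hx v hv] at h1
    rw [hcast] at h1
    have h2 : σ / (4 * (k : ℝ)) * (k * D) = σ / 4 * D := by field_simp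
    rw [h2] at h1
    convert h1 using 1
  set A : V → Finset (Fin T) := fun x => (Finset.univ \ (G x ∩ F).image f) \
    ((F ∩ R x).image f ∪ Bad x) with hA
  have hAc : ∀ x ∈ C, (G x \ F).card ≤ (A x).card := by
    intro x hx
    have h1 : (Finset.univ : Finset (Fin T)) ⊆ A x ∪ ((G x ∩ F).image f ∪
        ((F ∩ R x).image f ∪ Bad x)) := by
      intro γ _
      simp only [hA, Finset.mem_union, Finset.mem_sdiff, Finset.mem_univ, true_and]
      tauto
    have h2 := (Finset.card_le_card h1).trans ((Finset.card_union_le _ _).trans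
      (Nat.add_le_add_left ((Finset.card_union_le _ _).trans (add_le_add Finset.card_image_le
        ((Finset.card_union_le _ _).trans (Nat.add_le_add_right Finset.card_image_le _)))) _))
    rw [Finset.card_univ, Fintype.card_fin] at h2
    have h3 : (T : ℝ) ≤ (A x).card + ((G x ∩ F).card + ((F ∩ R x).card + (Bad x).card)) := by
      exact_mod_cast h2
    have h4 : ((G x \ F).card : ℝ) + (G x ∩ F).card = (G x).card := by
      exact_mod_cast Finset.card_sdiff_add_card_inter (G x) F
    have h5 := hFR x hx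
    have h6 := hBadc x hx
    have h7 := dec.card_le x hx
    have h8 : ((G x \ F).card : ℝ) ≤ (A x).card := by nlinarith
    exact_mod_cast h8
  have hw : ∀ x ∈ C, ∀ γ ∈ A x, ⌊κ / 8 * k * D⌋₊ ≤
      ((G x \ F).filter fun u => ∀ v ∈ F, H.Adj u v → f v ≠ γ).card := by
    intro x hx γ hγ
    simp only [hA, Finset.mem_sdiff, Finset.mem_univ, true_and, Finset.mem_union, not_or] at hγ
    obtain ⟨hγ1, hγ2, hγ3⟩ := hγ
    simp only [hBad, Finset.mem_filter, Finset.mem_univ, true_and, not_lt] at hγ3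
    set Bl := (G x).filter fun u => ∃ w ∈ F, w ∉ G x ∧ w ∉ R x ∧ H.Adj u w ∧ f w = γ with hBl
    have h1 : G x ⊆ ((G x \ F).filter fun u => ∀ v ∈ F, H.Adj u v → f v ≠ γ) ∪
        ((G x ∩ F) ∪ Bl) := by
      intro u hu
      rw [Finset.mem_union, Finset.mem_union]
      by_cases huF : u ∈ F
      · exact Or.inr (Or.inl (Finset.mem_inter.2 ⟨hu, huF⟩))
      · by_cases hub : ∃ v ∈ F, H.Adj u v ∧ f v = γ
        · right; right
          obtain ⟨v, hvF, huv, hfv⟩ := hub
          rw [hBl, Finset.mem_filter]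
          refine ⟨hu, v, hvF, fun hvG => ?_, fun hvR => ?_, huv, hfv⟩
          · exact hγ1 (Finset.mem_image.2 ⟨v, Finset.mem_inter.2 ⟨hvG, hvF⟩, hfv⟩)
          · exact hγ2 (Finset.mem_image.2 ⟨v, Finset.mem_inter.2 ⟨hvF, hvR⟩, hfv⟩)
        · left
          push Not at hub
          exact Finset.mem_filter.2 ⟨Finset.mem_sdiff.2 ⟨hu, huF⟩, hub⟩
    have h2 := (Finset.card_le_card h1).trans ((Finset.card_union_le _ _).trans
      (Nat.add_le_add_left (Finset.card_union_le _ _) _))
    have h3 : ((G x).card : ℝ) ≤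
        (((G x \ F).filter fun u => ∀ v ∈ F, H.Adj u v → f v ≠ γ).card : ℝ) +
        ((G x ∩ F).card + Bl.card) := by exact_mod_cast h2
    have h4 := hFG x hx
    have h5 := dec.card_ge x hx
    have h6 : κ / 2 * ((k : ℝ) * D / 2) ≤ κ / 2 * (G x).card :=
      mul_le_mul_of_nonneg_left h5 (by positivity)
    have h7 : κ / 8 * k * D ≤
        (((G x \ F).filter fun u => ∀ v ∈ F, H.Adj u v → f v ≠ γ).card : ℝ) := by
      nlinarith
    have h8 : ((⌊κ / 8 * k * D⌋₊ : ℕ) : ℝ) ≤ κ / 8 * k * D := Nat.floor_le (by positivity)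
    exact_mod_cast h8.trans h7
  obtain ⟨g, hgF, hg⟩ := completion H F f hf C G dGG dec.clique A hAc (by
      intro x _ u hu huF hcon
      simp only [hA, Finset.mem_sdiff] at hcon
      exact hcon.1.2 (Finset.mem_image.2 ⟨u, Finset.mem_inter.2 ⟨hu, huF⟩, rfl⟩))
    ⌊κ / 8 * k * D⌋₊ ⌊e * k * D⌋₊ hw (by
      intro x hx u hu
      exact Nat.le_floor (dec.ext x hx u hu)) (by
      have h1 : ((⌊e * k * D⌋₊ : ℕ) : ℝ) ≤ e * k * D := Nat.floor_le (by positivity)
      have h2 : κ / 8 * k * D < (⌊κ / 8 * k * D⌋₊ : ℝ) + 1 := Nat.lt_floor_add_one _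
      have h3 : e * (k * D) ≤ κ / 200 * (k * D) := mul_le_mul_of_nonneg_right heκ (by positivity)
      have h4 : ((20 * ⌊e * k * D⌋₊ + 20 : ℕ) : ℝ) ≤ ((⌊κ / 8 * k * D⌋₊ : ℕ) : ℝ) := by
        push_cast
        nlinarith
      exact_mod_cast h4)
  -- sparse vertices
  have hsave : ∀ v ∈ Low, (dg H Finset.univ v : ℝ) ≤ (2 * k - 1) * D →
      dg H Finset.univ v + ((F.filter fun u => H.Adj v u).image f).card < T + dg H F v := by
    intro v hv hdeg
    have h1 := hFl v hv
    rw [hcast] at h1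
    have h2 : C5 / (k : ℝ) / (32 * 3 * m ^ 2) * (k * D) = C5 / (96 * m ^ 2) * D := by
      field_simp
      norm_num
    rw [← hm, h2] at h1
    have h3 : 1 ≤ C5 / (96 * m ^ 2) := by
      rw [le_div_iff₀ (by positivity)]
      linarith
    have h4 : 1 * (D : ℝ) ≤ C5 / (96 * m ^ 2) * D := mul_le_mul_of_nonneg_right h3 hD0.le
    have h5 : (dg H Finset.univ v : ℝ) + ((F.filter fun u => H.Adj v u).image f).card <
        T + dg H F v := by nlinarith
    exact_mod_cast h5
  set Q1 := Finset.univ \ (Rg \ Rs) with hQ1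
  have hFQ1 : F ⊆ Q1 := by
    intro u hu
    rw [hQ1, Finset.mem_sdiff, Finset.mem_sdiff]
    refine ⟨Finset.mem_univ _, ?_⟩
    rintro ⟨h1, h2⟩
    rw [hRg, Finset.mem_biUnion] at h1
    obtain ⟨x, hx, hux⟩ := h1
    exact h2 (hZR x hx u (hFZ hu) hux)
  have hGQ1 : GG ⊆ Q1 := by
    intro u hu
    rw [hQ1, Finset.mem_sdiff, Finset.mem_sdiff]
    refine ⟨Finset.mem_univ _, ?_⟩
    rintro ⟨h1, h2⟩
    rw [hRg, Finset.mem_biUnion] at h1
    obtain ⟨x, hx, hux⟩ := h1
    rw [hGG, Finset.mem_biUnion] at hu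
    obtain ⟨y, hy, huy⟩ := hu
    exact dGR y hy x hx u huy hux
  have hOQ1 : O ⊆ Q1 := by
    intro u hu
    rw [hQ1, Finset.mem_sdiff, Finset.mem_sdiff]
    refine ⟨Finset.mem_univ _, ?_⟩
    rintro ⟨h1, h2⟩
    rw [hRg, Finset.mem_biUnion] at h1
    obtain ⟨x, hx, hux⟩ := h1
    exact dOR x hx u hu hux
  obtain ⟨f2, hf2, hf2F⟩ := extend_low' (H := H) (Q := Q1) (F := F) (f := g) f hFQ1
    (A := F ∪ GG) (Finset.union_subset hFQ1 hGQ1) Finset.subset_union_left hg hgF O hOQ1 (by
      intro v hv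
      have hdeg := dec.degO v (Finset.mem_union_right _ hv)
      rcases dec.sparse v hv with h1 | h1
      · -- many rigid neighbours
        have h2 : dg H Q1 v + dg H (Rg \ Rs) v = dg H Finset.univ v := by
          rw [← dg_union H Finset.sdiff_disjoint]
          congr 1
          exact Finset.sdiff_union_of_subset (Finset.subset_univ _)
        have h3 : dg H (Rg \ Rs) v + dg H Rs v = dg H Rg v := by
          rw [← dg_union H Finset.sdiff_disjoint]
          congr 1
          exact Finset.sdiff_union_of_subset hRs1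
        have h4 := (abs_le.1 (hRs3 v)).2
        have h5 : (dg H Q1 v : ℝ) + dg H (Rg \ Rs) v = dg H Finset.univ v := by exact_mod_cast h2
        have h6 : (dg H (Rg \ Rs) v : ℝ) + dg H Rs v = dg H Rg v := by exact_mod_cast h3
        have h7 : (dg H Rg v : ℝ) / M ≤ dg H Rg v / 4 :=
          div_le_div_of_nonneg_left (by positivity) (by norm_num) hM4
        have h8 : δ * D ≤ 1 / 8 * D := mul_le_mul_of_nonneg_right hδ2 hD0.le
        have h9 : (((F.filter fun u => H.Adj v u).image f).card : ℝ) ≤ dg H F v := by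
          rw [dg_eq]
          exact_mod_cast Finset.card_image_le
        have h10 : (dg H Q1 v : ℝ) + ((F.filter fun u => H.Adj v u).image f).card <
            T + dg H F v := by nlinarith
        exact_mod_cast h10
      · have h2 : v ∈ Low := by
          rw [hLow, Finset.mem_filter]
          refine ⟨Finset.mem_univ _, h1.trans ?_⟩
          have h3 : nbr H (Finset.univ \ C.biUnion R) v ⊆ nbr H Z v := by
            intro w hw
            rw [mem_nbr, Finset.mem_sdiff] at hw
            exact (mem_nbr H).2 ⟨hsuppZ v w hw.2 hw.1.2, hw.2⟩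
          exact_mod_cast nad_mono H h3
        have h3 := hsave v h2 hdeg
        have h4 := dg_mono H (Finset.subset_univ Q1) v
        omega)
  -- rigid vertices
  obtain ⟨f3, hf3, -⟩ := extend_low' (H := H) (Q := Finset.univ) (F := F) (f := f2) f
    (Finset.subset_univ _) (A := F ∪ GG ∪ O) (Finset.subset_univ _)
    (Finset.subset_union_left.trans Finset.subset_union_left) hf2 hf2F Rg
    (Finset.subset_univ _) (by
      intro v hv
      apply hsave v _ (dec.degO v (Finset.mem_union_left _ hv))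
      rw [hRg, Finset.mem_biUnion] at hv
      obtain ⟨x, hx, hvx⟩ := hv
      rw [hLow, Finset.mem_filter]
      refine ⟨Finset.mem_univ _, ?_⟩
      set P := nbr H (G x) v with hP
      set S := nbr H (Z \ (G x ∪ R x)) v with hS
      have h1 := prod_le_nad H (nbr H Z v) P S (nbr_mono H (hGZ x hx) v)
        (nbr_mono H Finset.sdiff_subset v) (by
          rw [Finset.disjoint_left]
          intro a ha haS
          rw [hP, mem_nbr] at ha
          rw [hS, mem_nbr, Finset.mem_sdiff] at haS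
          exact haS.1.2 (Finset.mem_union_left _ ha.1))
      have h2 : ∑ a ∈ P, dg H S a ≤ ∑ u ∈ G x, dg H (Finset.univ \ (G x ∪ R x)) u := by
        refine (Finset.sum_le_sum fun a _ => ?_).trans
          (Finset.sum_le_sum_of_subset (Finset.filter_subset _ _))
        apply dg_mono
        intro b hb
        rw [hS, mem_nbr, Finset.mem_sdiff] at hb
        exact Finset.mem_sdiff.2 ⟨Finset.mem_univ _, hb.1.2⟩
      have h3 := dec.tot x hx
      have h4 : (P.card : ℝ) * S.card ≤ nad H (nbr H Z v) + C1 * k * D ^ 2 := by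
        have h5 : (P.card : ℝ) * S.card ≤ nad H (nbr H Z v) +
            ∑ u ∈ G x, (dg H (Finset.univ \ (G x ∪ R x)) u : ℝ) := by
          exact_mod_cast h1.trans (Nat.add_le_add_left h2 _)
        exact h5.trans (by linarith)
      have h5 := dec.rig1 x hx v hvx
      have h6 := dec.rig2 x hx v hvx
      -- lower bound for `S`
      set a := dg H ((Finset.univ \ Rg) \ (G x ∪ R x)) v with ha
      set r := dg H (Rg \ R x) v with hr
      have h7 : dg H (Finset.univ \ (G x ∪ R x)) v ≤ a + r := by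
        rw [ha, hr, dg_eq, dg_eq, dg_eq]
        refine (Finset.card_le_card ?_).trans (Finset.card_union_le _ _)
        intro u hu
        rw [mem_nbr, Finset.mem_sdiff, Finset.mem_union, not_or] at hu
        rw [Finset.mem_union, mem_nbr, mem_nbr, Finset.mem_sdiff, Finset.mem_sdiff,
          Finset.mem_sdiff, Finset.mem_union, not_or]
        by_cases huR : u ∈ Rg
        · exact Or.inr ⟨⟨huR, hu.1.2.2⟩, hu.2⟩
        · exact Or.inl ⟨⟨⟨Finset.mem_univ _, huR⟩, hu.1.2⟩, hu.2⟩
      have h8 : a + dg H (Rs \ R x) v ≤ S.card := by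
        rw [ha, dg_eq, dg_eq, ← Finset.card_union_of_disjoint]
        · apply Finset.card_le_card
          intro u hu
          rw [Finset.mem_union, mem_nbr, mem_nbr, Finset.mem_sdiff, Finset.mem_sdiff,
            Finset.mem_sdiff] at hu
          rw [hS, mem_nbr, Finset.mem_sdiff]
          rcases hu with ⟨⟨⟨-, h9⟩, h10⟩, h11⟩ | ⟨⟨h9, h10⟩, h11⟩
          · exact ⟨⟨hsuppZ v u h11 h9, h10⟩, h11⟩
          · refine ⟨⟨Finset.mem_union_right _ h9, ?_⟩, h11⟩
            rw [Finset.mem_union, not_or]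
            refine ⟨fun huG => ?_, h10⟩
            have h12 := hRs1 h9
            rw [hRg, Finset.mem_biUnion] at h12
            obtain ⟨y, hy, huy⟩ := h12
            exact dGR x hx y hy u huG huy
        · rw [Finset.disjoint_left]
          intro u hu hu'
          rw [mem_nbr, Finset.mem_sdiff, Finset.mem_sdiff] at hu
          rw [mem_nbr, Finset.mem_sdiff] at hu'
          exact hu.1.1.2 (hRs1 hu'.1.1)
      have h9 : dg H Rs v ≤ dg H (Rs \ R x) v + (R x ∩ Rs).card := by
        rw [dg_eq, dg_eq]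
        refine (Finset.card_le_card ?_).trans (Finset.card_union_le _ _)
        intro u hu
        rw [mem_nbr] at hu
        rw [Finset.mem_union, mem_nbr, Finset.mem_sdiff, Finset.mem_inter]
        by_cases huR : u ∈ R x
        · exact Or.inr ⟨huR, hu.1⟩
        · exact Or.inl ⟨⟨hu.1, huR⟩, hu.2⟩
      have h10 : r ≤ dg H Rg v := dg_mono H Finset.sdiff_subset v
      have h7' : (dg H (Finset.univ \ (G x ∪ R x)) v : ℝ) ≤ a + r := by exact_mod_cast h7
      have h8' : (a : ℝ) + dg H (Rs \ R x) v ≤ S.card := by exact_mod_cast h8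
      have h9' : (dg H Rs v : ℝ) ≤ dg H (Rs \ R x) v + (R x ∩ Rs).card := by exact_mod_cast h9
      have h10' : (r : ℝ) ≤ dg H Rg v := by exact_mod_cast h10
      have h11 := (abs_le.1 (hRs3 v)).1
      have h12 := hRsx x hx
      have h13 : (r : ℝ) / M ≤ dg H Rg v / M := div_le_div_of_nonneg_right h10' hM0'.le
      have h14 : (a : ℝ) / M ≤ a := div_le_self (by positivity) (by linarith)
      have h15 : c2 * k * D / M ≤ a / M + r / M := by
        rw [← add_div]
        exact div_le_div_of_nonneg_right (h6.trans h7') hM0'.le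
      have h16 : δ * D ≤ 1 / 8 * D := mul_le_mul_of_nonneg_right hδ2 hD0.le
      have h17 : c2 * k * D / M - (1 / 8 + σ / 4) * D ≤ S.card := by linarith
      have h18 : (1 / 8 + σ / 4) * D ≤ c2 * k * D / (2 * M) := by
        rw [le_div_iff₀ (by positivity)]
        nlinarith
      have h19 : c2 * k * D / (2 * M) ≤ S.card := by
        have : c2 * k * D / M = c2 * k * D / (2 * M) + c2 * k * D / (2 * M) := by
          field_simp
          ring
        linarith
      have h20 : ((k : ℝ) * D / 2) * (c2 * k * D / (2 * M)) ≤ (P.card : ℝ) * S.card :=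
        mul_le_mul h5 h19 (by positivity) (by positivity)
      have h21 : (C1 + C5) * (k * D ^ 2) ≤ ((k : ℝ) * D / 2) * (c2 * k * D / (2 * M)) := by
        have h22 : ((k : ℝ) * D / 2) * (c2 * k * D / (2 * M)) = c2 * k / (4 * M) * (k * D ^ 2) := by
          field_simp
          ring
        rw [h22]
        apply mul_le_mul_of_nonneg_right _ (by positivity)
        rw [le_div_iff₀ (by positivity)]
        linarith
      nlinarith)
  refine ⟨f3, ?_⟩
  intro u _ v _ huv
  have h1 := dec.supp u v huv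
  have h2 := dec.supp v u huv.symm
  apply hf3 u _ v _ huv
  · rw [Finset.mem_union, Finset.mem_union] at h1
    rw [Finset.mem_union, Finset.mem_union, Finset.mem_union]
    tauto
  · rw [Finset.mem_union, Finset.mem_union] at h2
    rw [Finset.mem_union, Finset.mem_union, Finset.mem_union]
    tauto

end Pool.Agent.Helper48.LK
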