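import Pool.Agent.Helper48.LK.T5_Decomp
import Pool.Agent.Helper48.LK.T6b

/-!
# T6c. Colouring under the density condition
-/

set_option autoImplicit false
set_option linter.unusedSectionVars false

namespace Pool.Agent.Helper48.LK

open Pool.Agent.Helper32.Sq

variable {V : Type} [Fintype V] [DecidableEq V]

/-- A minimal subset of `Z` which cannot be coloured with `T` colours. -/
lemma exists_critical_in (H : SimpleGraph V) [DecidableRel H.Adj] {T : ℕ} (Z : Finset V)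
    (hT : ¬ ∃ f : V → Fin T, Proper H Z f) :
    ∃ Q ⊆ Z, (¬ ∃ f : V → Fin T, Proper H Q f) ∧ ∀ v ∈ Q, T ≤ dg H Q v := by
  classical
  obtain ⟨Q, hQ, hmin⟩ := Finset.exists_min_image
    (Z.powerset.filter fun Q => ¬ ∃ f : V → Fin T, Proper H Q f)
    Finset.card ⟨Z, Finset.mem_filter.2 ⟨Finset.mem_powerset.2 (Finset.Subset.refl Z), hT⟩⟩
  rw [Finset.mem_filter, Finset.mem_powerset] at hQ
  have hsub : ∀ S, S ⊂ Q → ∃ f : V → Fin T, Proper H S f := by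
    intro S hS
    by_contra hcon
    have := hmin S (Finset.mem_filter.2 ⟨Finset.mem_powerset.2 (hS.subset.trans hQ.1), hcon⟩)
    have h2 := Finset.card_lt_card hS
    omega
  refine ⟨Q, hQ.1, hQ.2, ?_⟩
  intro v hv
  by_contra hcon
  push Not at hcon
  obtain ⟨f, hf⟩ := hsub (Q.erase v) (Finset.erase_ssubset hv)
  obtain ⟨f', hf', -⟩ := hf.extend v (Finset.notMem_erase v Q) (by
    refine lt_of_le_of_lt Finset.card_image_le (lt_of_le_of_lt ?_ hcon)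
    exact dg_mono H (Finset.erase_subset v Q) v)
  rw [Finset.insert_erase hv] at hf'
  exact hQ.2 ⟨f', hf'⟩

theorem colour_RL : ∃ C : ℝ, 0 ≤ C ∧ ∀ η : ℝ, 0 < η → η ≤ 1 / 4 →
    ∃ k0 : ℕ, ∀ k : ℕ, k0 ≤ k → ∃ D0 : ℕ, ∀ D : ℕ, D0 ≤ D → ∀ T : ℕ,
      (2 * k - 3 / 2 + η) * D ≤ (T : ℝ) → (T : ℝ) ≤ 3 * k * D →
      ∀ (V : Type) [Fintype V] [DecidableEq V] (H : SimpleGraph V) [DecidableRel H.Adj]
        (Z : Finset V), (∀ v ∈ Z, (dg H Z v : ℝ) ≤ (2 * k - 1) * D) →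
        (∀ W ⊆ Z, ((W.card : ℝ) ≤ (2 * k + C) * D) →
          ∑ x ∈ W, (dg H W x : ℝ) ≤ (2 * k - 3 / 2 + η / 8) * D * W.card) →
        ∃ f : V → Fin T, Proper H Z f := by
  classical
  set C5 : ℝ := 96 * (pm 3 ((1 / 48) / 16) : ℝ) ^ 2 with hC5
  have hpm : (1 : ℝ) ≤ (pm 3 ((1 / 48) / 16) : ℝ) := by
    have h1 : (1 : ℝ) ≤ 16 * 3 + 2 * 3 / ((1 / 48) / 16) := by norm_num
    have h2 : (16 * 3 + 2 * 3 / ((1 / 48) / 16) : ℝ) ≤ (pm 3 ((1 / 48) / 16) : ℝ) := by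
      unfold pm
      exact Nat.le_ceil _
    linarith
  have hC51 : 1 ≤ C5 := by
    rw [hC5]
    nlinarith
  obtain ⟨C, C1, CR, hC0, hC10, hCR0, hdec⟩ := decomposition C5 (1 / 9600) hC51 (by norm_num)
    (by norm_num)
  refine ⟨C, hC0, ?_⟩
  intro η hη hη4
  obtain ⟨k1, hk1⟩ := hdec η hη hη4
  obtain ⟨k2, hk2⟩ := colour_dec (η / 2) (1 / 48) (1 / 9600) C1 CR C5 (1 / 9600 / 16)
    (by linarith) (by norm_num) (by norm_num) (by norm_num) (by norm_num) hC10 hCR0 hC5.ge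
    (by norm_num)
  refine ⟨max k1 k2, ?_⟩
  intro k hk
  obtain ⟨D1, hD1⟩ := hk1 k (le_trans (le_max_left _ _) hk)
  obtain ⟨D2, hD2⟩ := hk2 k (le_trans (le_max_right _ _) hk)
  refine ⟨max D1 D2, ?_⟩
  intro D hD T hT hT3 V _ _ H _ Z hZ hRL
  by_contra hcon
  obtain ⟨Q, hQZ, hQ, hdeg⟩ := exists_critical_in H Z hcon
  have hD0 : (0 : ℝ) ≤ D := Nat.cast_nonneg _
  obtain ⟨ρ, H', inst, Ct, G, R, O, hadj, hd⟩ := hD1 D (le_trans (le_max_left _ _) hD) T hT V H Q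
    hdeg (by
      intro v hv
      refine le_trans ?_ (hZ v (hQZ hv))
      exact_mod_cast dg_mono H hQZ v)
    (fun W hW hc => hRL W (hW.trans hQZ) hc)
  obtain ⟨f, hf⟩ := hD2 D (le_trans (le_max_right _ _) hD) T (by nlinarith) hT3 V H' Ct G R O hd
  apply hQ
  refine ⟨fun v => f (ρ v), ?_⟩
  intro x hx y hy hxy
  exact hf (ρ x) (Finset.mem_univ _) (ρ y) (Finset.mem_univ _) (hadj x hx y hy hxy)

end Pool.Agent.Helper48.LK
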