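import Pool.Agent.Helper32.Sq.Main

/-!
# Squares of sparse graphs for large `k`: the common definitions

`V` is a finite vertex set, `H` a graph on it. `dg H A v` is the number of neighbours of `v` in
`A`, `nbr H A v` the set of these neighbours, `Proper H A f` says that `f` is a proper colouring of
the part of `H` inside `A` (all three from `Pool.Agent.Helper32.Sq`).
-/

set_option autoImplicit false
set_option linter.unusedSectionVars false

namespace Pool.Agent.Helper48.LK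

open Pool.Agent.Helper32.Sq

variable {V : Type} [Fintype V] [DecidableEq V]

/-- The number of ordered pairs of distinct non adjacent vertices of `A`. -/
def nad (H : SimpleGraph V) [DecidableRel H.Adj] (A : Finset V) : ℕ :=
  ((A ×ˢ A).filter fun p : V × V => p.1 ≠ p.2 ∧ ¬ H.Adj p.1 p.2).card

/-- The inverse activation probability of the random partial colouring. -/
noncomputable def pm (K δ : ℝ) : ℕ := ⌈16 * K + 2 * K / δ⌉₊

/-- The dense decomposition (after contraction of matchings). `C` is the set of the centres, `G x`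
the clique of the centre `x`, `R x` the rigid vertices near the clique `G x`, `O` the other
(sparse) vertices. All constants are real numbers which do not depend on `k` and `D`, except that
`σ` may depend on the small parameter `η`. -/
structure Dec (k D T : ℕ) (σ κ e C1 CR C5 c2 : ℝ) (H : SimpleGraph V) [DecidableRel H.Adj]
    (C : Finset V) (G R : V → Finset V) (O : Finset V) : Prop where
  disj : ∀ x ∈ C, ∀ y ∈ C, x ≠ y → Disjoint (G x ∪ R x) (G y ∪ R y)
  disjGR : ∀ x ∈ C, Disjoint (G x) (R x)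
  disjO : ∀ x ∈ C, Disjoint (G x ∪ R x) O
  clique : ∀ x ∈ C, ∀ u ∈ G x, ∀ v ∈ G x, u ≠ v → H.Adj u v
  card_le : ∀ x ∈ C, ((G x).card : ℝ) + σ * D ≤ T
  card_ge : ∀ x ∈ C, (k : ℝ) * D / 2 ≤ (G x).card
  ext : ∀ x ∈ C, ∀ u ∈ G x, (dg H (Finset.univ \ G x) u : ℝ) ≤ e * k * D
  far : ∀ x ∈ C, ∀ w, w ∉ G x → w ∉ R x → (dg H (G x) w : ℝ) ≤ (1 - κ) * (G x).card
  tot : ∀ x ∈ C, ∑ u ∈ G x, (dg H (Finset.univ \ (G x ∪ R x)) u : ℝ) ≤ C1 * k * D ^ 2
  cardR : ∀ x ∈ C, ((R x).card : ℝ) ≤ CR * D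
  degO : ∀ v ∈ C.biUnion R ∪ O, (dg H Finset.univ v : ℝ) ≤ (2 * k - 1) * D
  sparse : ∀ v ∈ O, (D : ℝ) ≤ dg H (C.biUnion R) v ∨
    C5 * k * D ^ 2 ≤ (nad H (nbr H (Finset.univ \ C.biUnion R) v) : ℝ)
  rig1 : ∀ x ∈ C, ∀ v ∈ R x, (k : ℝ) * D / 2 ≤ dg H (G x) v
  rig2 : ∀ x ∈ C, ∀ v ∈ R x, c2 * k * D ≤ (dg H (Finset.univ \ (G x ∪ R x)) v : ℝ)
  deg : ∀ v, (dg H Finset.univ v : ℝ) ≤ 3 * k * D
  supp : ∀ v w, H.Adj v w → v ∈ C.biUnion G ∪ C.biUnion R ∪ O

end Pool.Agent.Helper48.LK
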