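import Pool.Agent.Helper48.LK.T5f

/-!
# T5. The dense decomposition of a critical graph: see `T5f`
-/
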