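import Pool.Agent.Helper48.LK.Defs

/-!
# T5a. Counting lemmas on neighbourhoods, and matchings of non adjacent pairs
-/

set_option autoImplicit false
set_option linter.unusedSectionVars false

namespace Pool.Agent.Helper48.LK

open Pool.Agent.Helper32.Sq

variable {V : Type} [Fintype V] [DecidableEq V] (H : SimpleGraph V) [DecidableRel H.Adj]

lemma mem_nbr {Z : Finset V} {v u : V} : u ∈ nbr H Z v ↔ u ∈ Z ∧ H.Adj v u := by
  unfold nbr
  rw [Finset.mem_filter]

lemma dg_eq (A : Finset V) (v : V) : dg H A v = (nbr H A v).card := rfl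

lemma nbr_inter (A B : Finset V) (v : V) : nbr H A v ∩ B = nbr H (A ∩ B) v := by
  ext u
  simp only [Finset.mem_inter, mem_nbr]
  tauto

lemma nbr_sdiff (A B : Finset V) (v : V) : nbr H A v \ B = nbr H (A \ B) v := by
  ext u
  simp only [Finset.mem_sdiff, mem_nbr]
  tauto

lemma nbr_mono {A B : Finset V} (h : A ⊆ B) (v : V) : nbr H A v ⊆ nbr H B v :=
  Finset.filter_subset_filter _ h

lemma nad_eq_sum (A : Finset V) :
    nad H A = ∑ y ∈ A, (A.filter fun b => y ≠ b ∧ ¬ H.Adj y b).card := by
  unfold nad
  exact card_pairs A fun a b => a ≠ b ∧ ¬ H.Adj a b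

lemma nad_mono {A B : Finset V} (h : A ⊆ B) : nad H A ≤ nad H B := by
  unfold nad
  exact Finset.card_le_card (Finset.filter_subset_filter _ (Finset.product_subset_product h h))

/-- Non adjacent pairs with the first entry in `P`. -/
lemma sum_le_nad (A P : Finset V) (hP : P ⊆ A) :
    ∑ y ∈ P, (A.filter fun b => y ≠ b ∧ ¬ H.Adj y b).card ≤ nad H A := by
  rw [nad_eq_sum]
  exact Finset.sum_le_sum_of_subset hP

/-- Pairs between two disjoint sets. -/
lemma prod_le_nad (A P S : Finset V) (hP : P ⊆ A) (hS : S ⊆ A) (hd : Disjoint P S) :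
    P.card * S.card ≤ nad H A + ∑ a ∈ P, dg H S a := by
  have h1 : ∀ a ∈ P, S.card ≤ (A.filter fun b => a ≠ b ∧ ¬ H.Adj a b).card + dg H S a := by
    intro a ha
    have h2 : S ⊆ (A.filter fun b => a ≠ b ∧ ¬ H.Adj a b) ∪ S.filter fun u => H.Adj a u := by
      intro b hb
      rw [Finset.mem_union, Finset.mem_filter, Finset.mem_filter]
      by_cases hab : H.Adj a b
      · exact Or.inr ⟨hb, hab⟩
      · refine Or.inl ⟨hS hb, ?_, hab⟩
        rintro rfl
        exact Finset.disjoint_left.1 hd ha hb
    exact (Finset.card_le_card h2).trans (Finset.card_union_le _ _)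
  calc P.card * S.card = ∑ _a ∈ P, S.card := by rw [Finset.sum_const, smul_eq_mul]
    _ ≤ ∑ a ∈ P, ((A.filter fun b => a ≠ b ∧ ¬ H.Adj a b).card + dg H S a) :=
        Finset.sum_le_sum h1
    _ = ∑ a ∈ P, (A.filter fun b => a ≠ b ∧ ¬ H.Adj a b).card + ∑ a ∈ P, dg H S a :=
        Finset.sum_add_distrib
    _ ≤ _ := Nat.add_le_add_right (sum_le_nad H A P hP) _

/-- The number of neighbours of `x` in `Q` which are not neighbours of `y`. -/
def ms (Q : Finset V) (x y : V) : ℕ := (nbr H Q x \ nbr H Q y).card

lemma ms_self (Q : Finset V) (x : V) : ms H Q x x = 0 := by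
  unfold ms
  rw [Finset.sdiff_self, Finset.card_empty]

/-- `|N(y) \ N(x)| + |N(x)| = |N(y)| + |N(x) \ N(y)|`. -/
lemma ext_add (Q : Finset V) (x y : V) :
    (nbr H Q y \ nbr H Q x).card + (nbr H Q x).card = (nbr H Q y).card + ms H Q x y := by
  unfold ms
  rw [Finset.card_sdiff_add_card, add_comm (nbr H Q y).card, Finset.card_sdiff_add_card,
    Finset.union_comm]

lemma inter_add (Q : Finset V) (x y : V) :
    ms H Q x y + (nbr H Q x ∩ nbr H Q y).card = (nbr H Q x).card := by
  unfold ms
  exact Finset.card_sdiff_add_card_inter _ _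

lemma sum_ms (Q : Finset V) (x : V) :
    ∑ y ∈ nbr H Q x, ms H Q x y = (nbr H Q x).card + nad H (nbr H Q x) := by
  rw [nad_eq_sum, Finset.card_eq_sum_ones, ← Finset.sum_add_distrib]
  apply Finset.sum_congr rfl
  intro y hy
  have hyQ := ((mem_nbr H).1 hy).1
  unfold ms
  have h1 : nbr H Q x \ nbr H Q y =
      insert y ((nbr H Q x).filter fun b => y ≠ b ∧ ¬ H.Adj y b) := by
    ext b
    rw [Finset.mem_sdiff, Finset.mem_insert, Finset.mem_filter]
    constructor
    · rintro ⟨h1, h2⟩
      by_cases hb : b = y
      · exact Or.inl hb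
      · refine Or.inr ⟨h1, fun h => hb h.symm, fun h => h2 ?_⟩
        exact (mem_nbr H).2 ⟨((mem_nbr H).1 h1).1, h⟩
    · rintro (rfl | ⟨h1, h2, h3⟩)
      · exact ⟨hy, fun h => H.irrefl ((mem_nbr H).1 h).2⟩
      · exact ⟨h1, fun h => h3 ((mem_nbr H).1 h).2⟩
  rw [h1, Finset.card_insert_of_notMem (by
    rw [Finset.mem_filter]
    rintro ⟨-, h, -⟩
    exact h rfl), add_comm]

/-- The number of edges leaving the neighbourhood of `x`. -/
def eo (Q : Finset V) (x : V) : ℕ := ∑ y ∈ nbr H Q x, (nbr H Q y \ nbr H Q x).card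

lemma eo_eq (Q : Finset V) (x : V) :
    eo H Q x = ∑ y ∈ nbr H Q x, dg H (Q \ nbr H Q x) y := by
  unfold eo
  apply Finset.sum_congr rfl
  intro y _
  rw [nbr_sdiff, dg_eq]

lemma eo_eq' (Q : Finset V) (x : V) :
    eo H Q x = ∑ w ∈ Q \ nbr H Q x, dg H (nbr H Q x) w := by
  rw [eo_eq, sum_dg_comm]

/-- The dichotomy inequality. -/
lemma dicho (Q : Finset V) (x v : V) :
    (nbr H Q v ∩ nbr H Q x).card * (nbr H Q v \ nbr H Q x).card ≤
      nad H (nbr H Q v) + eo H Q x := by
  refine (prod_le_nad H (nbr H Q v) _ _ Finset.inter_subset_left Finset.sdiff_subset ?_).trans ?_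
  · rw [Finset.disjoint_left]
    intro a ha ha'
    exact (Finset.mem_sdiff.1 ha').2 (Finset.mem_inter.1 ha).2
  · apply Nat.add_le_add_left
    rw [eo_eq]
    calc ∑ a ∈ nbr H Q v ∩ nbr H Q x, dg H (nbr H Q v \ nbr H Q x) a
        ≤ ∑ a ∈ nbr H Q v ∩ nbr H Q x, dg H (Q \ nbr H Q x) a := by
          apply Finset.sum_le_sum
          intro a _
          apply dg_mono
          apply Finset.sdiff_subset_sdiff _ (Finset.Subset.refl _)
          exact Finset.filter_subset _ _
      _ ≤ _ := Finset.sum_le_sum_of_subset Finset.inter_subset_right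

/-- Markov. -/
lemma markov (S : Finset V) (f : V → ℝ) (hf : ∀ v ∈ S, 0 ≤ f v) (t a : ℝ) (ht : 0 < t)
    (hs : ∑ v ∈ S, f v ≤ a * t) : (((S.filter fun v => t < f v).card : ℕ) : ℝ) ≤ a := by
  have h1 : ((S.filter fun v => t < f v).card : ℝ) * t ≤ ∑ v ∈ S, f v := by
    calc ((S.filter fun v => t < f v).card : ℝ) * t = ∑ _v ∈ S.filter fun v => t < f v, t := by
          rw [Finset.sum_const, nsmul_eq_mul]
      _ ≤ ∑ v ∈ S.filter fun v => t < f v, f v :=
          Finset.sum_le_sum fun v hv => (Finset.mem_filter.1 hv).2.le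
      _ ≤ ∑ v ∈ S, f v := Finset.sum_le_sum_of_subset_of_nonneg (Finset.filter_subset _ _)
          fun v hv _ => hf v hv
  exact le_of_mul_le_mul_right (h1.trans hs) ht

/-! ### Matchings -/

/-- A contraction map: the non fixed points form one side of a matching of `P`-pairs of `W`. -/
structure Ctr (W : Finset V) (P : V → V → Prop) (ρ : V → V) : Prop where
  idem : ∀ u, ρ (ρ u) = ρ u
  mem : ∀ u, ρ u ≠ u → u ∈ W ∧ ρ u ∈ W ∧ P u (ρ u)
  inj : ∀ u v, ρ u ≠ u → ρ v ≠ v → ρ u = ρ v → u = v

lemma exists_ctr (W : Finset V) (P : V → V → Prop) [DecidableRel P] (hP : ∀ u v, P u v → P v u)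
    (hP0 : ∀ u, ¬ P u u) (d : ℕ) (hd : ∀ u ∈ W, (W.filter fun v => P u v).card ≤ d) :
    ∀ M : ℕ, (M = 0 ∨ 4 * (M - 1) * d < ∑ u ∈ W, (W.filter fun v => P u v).card) →
      ∃ ρ : V → V, Ctr W P ρ ∧ (W.filter fun u => ρ u ≠ u).card = M := by
  intro M
  induction M with
  | zero =>
    intro _
    refine ⟨id, ⟨fun _ => rfl, fun u h => absurd rfl h, fun u v h => absurd rfl h⟩, ?_⟩
    simp
  | succ M ih =>
    intro hM
    have hM' : 4 * M * d < ∑ u ∈ W, (W.filter fun v => P u v).card := by
      rcases hM with hM | hM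
      · omega
      · simpa using hM
    obtain ⟨ρ, hρ, hcard⟩ := ih (by
      by_cases h0 : M = 0
      · exact Or.inl h0
      · right
        refine lt_of_le_of_lt ?_ hM'
        exact Nat.mul_le_mul_right _ (Nat.mul_le_mul_left _ (Nat.sub_le _ _)))
    set B := W.filter fun u => ρ u ≠ u with hB
    set T := B ∪ B.image ρ with hT
    have hTcard : T.card ≤ 2 * M := by
      refine (Finset.card_union_le _ _).trans ?_
      have := Finset.card_image_le (s := B) (f := ρ)
      omega
    have hTW : T ⊆ W := by
      intro u hu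
      rw [hT, Finset.mem_union, Finset.mem_image] at hu
      rcases hu with hu | ⟨v, hv, rfl⟩
      · exact (Finset.mem_filter.1 hu).1
      · exact (hρ.mem v (Finset.mem_filter.1 hv).2).2.1
    -- there is a pair outside `T`
    have hex : ∃ a ∈ W, ∃ b ∈ W, a ∉ T ∧ b ∉ T ∧ P a b := by
      by_contra hcon
      push Not at hcon
      have h1 : ∀ u ∈ W, (W.filter fun v => P u v).card ≤
          (T.filter fun v => P u v).card + if u ∈ T then d else 0 := by
        intro u hu
        by_cases huT : u ∈ T
        · rw [if_pos huT]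
          have := hd u hu
          omega
        · rw [if_neg huT, add_zero]
          apply Finset.card_le_card
          intro v hv
          rw [Finset.mem_filter] at hv ⊢
          refine ⟨?_, hv.2⟩
          by_contra hvT
          exact hcon u hu v hv.1 huT hvT hv.2
      have h2 : ∑ u ∈ W, (T.filter fun v => P u v).card ≤ T.card * d := by
        simp_rw [Finset.card_filter]
        rw [Finset.sum_comm]
        calc ∑ v ∈ T, ∑ u ∈ W, (if P u v then 1 else 0) ≤ ∑ _v ∈ T, d := by
              apply Finset.sum_le_sum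
              intro v hv
              rw [← Finset.card_filter]
              refine le_trans (Finset.card_le_card ?_) (hd v (hTW hv))
              intro u hu
              rw [Finset.mem_filter] at hu ⊢
              exact ⟨hu.1, hP _ _ hu.2⟩
          _ = T.card * d := by rw [Finset.sum_const, smul_eq_mul]
      have h3 : ∑ u ∈ W, (if u ∈ T then d else 0) = T.card * d := by
        rw [← Finset.sum_filter, Finset.sum_const, smul_eq_mul, Finset.filter_mem_eq_inter,
          Finset.inter_eq_right.2 hTW]
      have h4 : ∑ u ∈ W, (W.filter fun v => P u v).card ≤ T.card * d + T.card * d := by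
        calc _ ≤ ∑ u ∈ W, ((T.filter fun v => P u v).card + if u ∈ T then d else 0) :=
              Finset.sum_le_sum h1
          _ = ∑ u ∈ W, (T.filter fun v => P u v).card + ∑ u ∈ W, (if u ∈ T then d else 0) :=
              Finset.sum_add_distrib
          _ ≤ _ := by rw [h3]; exact Nat.add_le_add_right h2 _
      have h5 : T.card * d ≤ 2 * M * d := Nat.mul_le_mul_right _ hTcard
      have h6 : 4 * M * d = 2 * M * d + 2 * M * d := by ring
      omega
    obtain ⟨a, ha, b, hb, haT, hbT, hab⟩ := hex
    have hne : b ≠ a := by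
      rintro rfl
      exact hP0 _ hab
    have hfix : ∀ u, u ∈ W → u ∉ T → ρ u = u := by
      intro u hu huT
      by_contra hcon
      exact huT (Finset.mem_union_left _ (Finset.mem_filter.2 ⟨hu, hcon⟩))
    have hnot : ∀ u, ρ u ≠ u → ρ u ∈ T := by
      intro u hu
      exact Finset.mem_union_right _ (Finset.mem_image_of_mem _
        (Finset.mem_filter.2 ⟨(hρ.mem u hu).1, hu⟩))
    have hnot' : ∀ u, ρ u ≠ u → u ∈ T := by
      intro u hu
      exact Finset.mem_union_left _ (Finset.mem_filter.2 ⟨(hρ.mem u hu).1, hu⟩)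
    refine ⟨Function.update ρ b a, ⟨?_, ?_, ?_⟩, ?_⟩
    · intro u
      by_cases hu : u = b
      · subst hu
        rw [Function.update_self, Function.update_of_ne hne.symm]
        exact hfix a ha haT
      · rw [Function.update_of_ne hu]
        by_cases h2 : ρ u = b
        · exfalso
          by_cases h3 : ρ u = u
          · exact hu (h3.symm.trans h2)
          · have := hnot u h3
            rw [h2] at this
            exact hbT this
        · rw [Function.update_of_ne h2]
          exact hρ.idem u
    · intro u hu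
      by_cases hub : u = b
      · subst hub
        rw [Function.update_self]
        exact ⟨hb, ha, hP _ _ hab⟩
      · rw [Function.update_of_ne hub] at hu ⊢
        exact hρ.mem u hu
    · intro u v hu hv huv
      by_cases hub : u = b
      · by_cases hvb : v = b
        · rw [hub, hvb]
        · subst hub
          rw [Function.update_self, Function.update_of_ne hvb] at huv
          rw [Function.update_of_ne hvb] at hv
          exact absurd (huv ▸ hnot v hv) haT
      · rw [Function.update_of_ne hub] at hu huv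
        by_cases hvb : v = b
        · subst hvb
          rw [Function.update_self] at huv
          exact absurd (huv ▸ hnot u hu) haT
        · rw [Function.update_of_ne hvb] at hv huv
          exact hρ.inj u v hu hv huv
    · have h1 : (W.filter fun u => Function.update ρ b a u ≠ u) = insert b B := by
        ext u
        rw [Finset.mem_filter, Finset.mem_insert, hB, Finset.mem_filter]
        by_cases hub : u = b
        · subst hub
          simp only [Function.update_self, true_or, iff_true]
          exact ⟨hb, hne.symm⟩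
        · rw [Function.update_of_ne hub]
          simp only [hub, false_or]
      rw [h1, Finset.card_insert_of_notMem, hcard]
      intro hbB
      exact hbT (Finset.mem_union_left _ hbB)

end Pool.Agent.Helper48.LK
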