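import Pool.Agent.Helper48.LK.T5a

/-!
# T5b. Dense vertices and their clusters
-/

set_option autoImplicit false
set_option linter.unusedSectionVars false

namespace Pool.Agent.Helper48.LK

open Pool.Agent.Helper32.Sq

variable {V : Type} [Fintype V] [DecidableEq V] {H : SimpleGraph V} [DecidableRel H.Adj]
variable {Q : Finset V} {k D T : ℕ} {A z C2 : ℝ}

/-- The numerical context. -/
structure Cx (k D T : ℕ) (A z C2 : ℝ) (H : SimpleGraph V) [DecidableRel H.Adj] (Q : Finset V) :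
    Prop where
  hA : A = 2 * C2 + 2
  hC2 : 1 ≤ C2
  hz : 0 < z
  hz1 : z ≤ 1 / 400
  hD : (2 : ℝ) ≤ D
  k1 : 2 * (A + 2 * C2) ≤ z ^ 2 * k
  k2 : 4 * (A / z + 2 * A + 2) ≤ z * k
  hT : (2 * k - 3 / 2) * (D : ℝ) ≤ T
  lo : ∀ v ∈ Q, T ≤ dg H Q v
  hi : ∀ v ∈ Q, (dg H Q v : ℝ) ≤ (2 * k - 1) * D

/-- Dense vertices. -/
def Dn (k D : ℕ) (C2 : ℝ) (H : SimpleGraph V) [DecidableRel H.Adj] (Q : Finset V) (x : V) : Prop :=
  x ∈ Q ∧ (nad H (nbr H Q x) : ℝ) < 2 * C2 * k * D ^ 2

open Classical in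
/-- The good cluster. -/
noncomputable def Gs (k D : ℕ) (z : ℝ) (H : SimpleGraph V) [DecidableRel H.Adj] (Q : Finset V)
    (x : V) : Finset V := Q.filter fun y => (ms H Q x y : ℝ) ≤ z * k * D

open Classical in
/-- The large cluster. -/
noncomputable def Ds (k D : ℕ) (H : SimpleGraph V) [DecidableRel H.Adj] (Q : Finset V)
    (x : V) : Finset V := Q.filter fun y => (ms H Q x y : ℝ) ≤ k * D / 4

namespace Cx

lemma A4 (h : Cx k D T A z C2 H Q) : 4 ≤ A := by
  have := h.hC2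
  rw [h.hA]
  linarith

lemma Bk (h : Cx k D T A z C2 H Q) : 1600 * (A / z + 2 * A + 2) ≤ k := by
  have h1 := h.k2
  have h2 := h.hz1
  have h3 := h.hz
  have h4 := h.A4
  have hk : (0 : ℝ) ≤ k := Nat.cast_nonneg k
  have h5 : z * k ≤ 1 / 400 * k := mul_le_mul_of_nonneg_right h2 hk
  linarith

lemma Az (h : Cx k D T A z C2 H Q) : 400 * A ≤ A / z := by
  rw [le_div_iff₀ h.hz]
  have h1 := h.hz1
  have h2 := h.A4
  nlinarith

lemma kpos (h : Cx k D T A z C2 H Q) : (1000000 : ℝ) ≤ k := by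
  have h1 := h.Bk
  have h2 := h.Az
  have h3 := h.A4
  linarith

lemma D0 (h : Cx k D T A z C2 H Q) : (0 : ℝ) < D := by
  have := h.hD
  linarith

lemma kD (h : Cx k D T A z C2 H Q) : (0 : ℝ) < k * D := by
  have h1 := h.kpos
  have h2 := h.D0
  positivity

/-- numerical form of `k2` after multiplication by `D` -/
lemma zkD (h : Cx k D T A z C2 H Q) : 4 * (A / z + 2 * A + 2) * D ≤ z * k * D :=
  mul_le_mul_of_nonneg_right h.k2 h.D0.le

lemma BkD (h : Cx k D T A z C2 H Q) : 1600 * (A / z + 2 * A + 2) * D ≤ k * D :=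
  mul_le_mul_of_nonneg_right h.Bk h.D0.le

lemma lo' (h : Cx k D T A z C2 H Q) {v : V} (hv : v ∈ Q) :
    (2 * k - 3 / 2) * (D : ℝ) ≤ (nbr H Q v).card := by
  have h1 : ((T : ℕ) : ℝ) ≤ (dg H Q v : ℝ) := by exact_mod_cast h.lo v hv
  have h2 := h.hT
  rw [dg_eq] at h1
  linarith

lemma hi' (h : Cx k D T A z C2 H Q) {v : V} (hv : v ∈ Q) :
    ((nbr H Q v).card : ℝ) ≤ (2 * k - 1) * D := h.hi v hv

lemma ext_le (h : Cx k D T A z C2 H Q) {x y : V} (hx : x ∈ Q) (hy : y ∈ Q) :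
    ((nbr H Q y \ nbr H Q x).card : ℝ) ≤ D / 2 + ms H Q x y := by
  have h1 : (((nbr H Q y \ nbr H Q x).card : ℕ) : ℝ) + (nbr H Q x).card =
      (nbr H Q y).card + ms H Q x y := by exact_mod_cast ext_add H Q x y
  have h2 := h.lo' hx
  have h3 := h.hi' hy
  linarith

lemma le_ext (h : Cx k D T A z C2 H Q) {x y : V} (hx : x ∈ Q) (hy : y ∈ Q) :
    (ms H Q x y : ℝ) - D / 2 ≤ ((nbr H Q y \ nbr H Q x).card : ℝ) := by
  have h1 : (((nbr H Q y \ nbr H Q x).card : ℕ) : ℝ) + (nbr H Q x).card =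
      (nbr H Q y).card + ms H Q x y := by exact_mod_cast ext_add H Q x y
  have h2 := h.lo' hy
  have h3 := h.hi' hx
  linarith

lemma sum_ms_le (h : Cx k D T A z C2 H Q) {x : V} (hx : Dn k D C2 H Q x) :
    ∑ y ∈ nbr H Q x, (ms H Q x y : ℝ) ≤ (2 * C2 + 1) * k * D ^ 2 := by
  have h1 : ∑ y ∈ nbr H Q x, (ms H Q x y : ℝ) =
      (nbr H Q x).card + nad H (nbr H Q x) := by exact_mod_cast sum_ms H Q x
  rw [h1]
  have h2 := h.hi' hx.1
  have h3 := hx.2
  have h4 := h.hD
  have h5 := h.kD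
  have h6 : (2 : ℝ) * (k * D) ≤ D * (k * D) := mul_le_mul_of_nonneg_right h4 h5.le
  have h7 := h.D0
  nlinarith

lemma eo_le (h : Cx k D T A z C2 H Q) {x : V} (hx : Dn k D C2 H Q x) :
    (eo H Q x : ℝ) ≤ A * k * D ^ 2 := by
  have h1 : (eo H Q x : ℝ) ≤ ∑ y ∈ nbr H Q x, ((D : ℝ) / 2 + ms H Q x y) := by
    unfold eo
    rw [Nat.cast_sum]
    apply Finset.sum_le_sum
    intro y hy
    exact h.ext_le hx.1 ((mem_nbr H).1 hy).1
  rw [Finset.sum_add_distrib, Finset.sum_const, nsmul_eq_mul] at h1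
  have h2 := h.sum_ms_le hx
  have h3 := h.hi' hx.1
  have h4 := h.D0
  have h5 : ((nbr H Q x).card : ℝ) * (D / 2) ≤ (2 * k - 1) * D * (D / 2) :=
    mul_le_mul_of_nonneg_right h3 (by linarith)
  rw [h.hA]
  nlinarith [sq_nonneg (D : ℝ)]

lemma card_sdiff_Gs (h : Cx k D T A z C2 H Q) {x : V} (hx : Dn k D C2 H Q x) :
    ((nbr H Q x \ Gs k D z H Q x).card : ℝ) ≤ A / z * D := by
  classical
  have hz := h.hz
  have hkD := h.kD
  have h1 := markov (nbr H Q x) (fun y => (ms H Q x y : ℝ)) (fun y _ => by positivity)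
    (z * k * D) (A / z * D) (by rw [mul_assoc]; positivity) (by
      refine (h.sum_ms_le hx).trans ?_
      have h2 : A / z * D * (z * k * D) = A * k * D ^ 2 := by field_simp
      rw [h2, h.hA]
      have h3 : (0 : ℝ) ≤ k * D ^ 2 := by positivity
      nlinarith)
  refine le_trans ?_ h1
  have h2 : nbr H Q x \ Gs k D z H Q x ⊆
      (nbr H Q x).filter fun y => z * k * D < (ms H Q x y : ℝ) := by
    intro y hy
    rw [Finset.mem_sdiff, Gs, Finset.mem_filter] at hy
    rw [Finset.mem_filter]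
    refine ⟨hy.1, ?_⟩
    by_contra hcon
    exact hy.2 ⟨((mem_nbr H).1 hy.1).1, not_lt.1 hcon⟩
  exact_mod_cast Finset.card_le_card h2

lemma card_sdiff_Ds (h : Cx k D T A z C2 H Q) {x : V} (hx : Dn k D C2 H Q x) :
    ((nbr H Q x \ Ds k D H Q x).card : ℝ) ≤ 4 * A * D := by
  classical
  have hkD := h.kD
  have h1 := markov (nbr H Q x) (fun y => (ms H Q x y : ℝ)) (fun y _ => by positivity)
    (k * D / 4) (4 * A * D) (by positivity) (by
      refine (h.sum_ms_le hx).trans ?_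
      have h2 : 4 * A * D * ((k : ℝ) * D / 4) = A * k * D ^ 2 := by ring
      rw [h2, h.hA]
      have h3 : (0 : ℝ) ≤ k * D ^ 2 := by positivity
      nlinarith)
  refine le_trans ?_ h1
  have h2 : nbr H Q x \ Ds k D H Q x ⊆
      (nbr H Q x).filter fun y => (k : ℝ) * D / 4 < (ms H Q x y : ℝ) := by
    intro y hy
    rw [Finset.mem_sdiff, Ds, Finset.mem_filter] at hy
    rw [Finset.mem_filter]
    refine ⟨hy.1, ?_⟩
    by_contra hcon
    exact hy.2 ⟨((mem_nbr H).1 hy.1).1, not_lt.1 hcon⟩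
  exact_mod_cast Finset.card_le_card h2

lemma inter_eq (_h : Cx k D T A z C2 H Q) (x y : V) :
    ((nbr H Q x ∩ nbr H Q y).card : ℝ) = (nbr H Q x).card - ms H Q x y := by
  have h1 : (ms H Q x y : ℝ) + (nbr H Q x ∩ nbr H Q y).card = (nbr H Q x).card := by
    exact_mod_cast inter_add H Q x y
  linarith

lemma card_Ds_sdiff (h : Cx k D T A z C2 H Q) {x : V} (hx : Dn k D C2 H Q x) :
    ((Ds k D H Q x \ nbr H Q x).card : ℝ) ≤ A * D := by
  classical
  have hkD := h.kD
  have h1 : ((Ds k D H Q x \ nbr H Q x).card : ℝ) * (k * D) ≤ A * k * D ^ 2 := by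
    calc ((Ds k D H Q x \ nbr H Q x).card : ℝ) * (k * D)
        = ∑ _w ∈ Ds k D H Q x \ nbr H Q x, (k : ℝ) * D := by
          rw [Finset.sum_const, nsmul_eq_mul]
      _ ≤ ∑ w ∈ Ds k D H Q x \ nbr H Q x, (dg H (nbr H Q x) w : ℝ) := by
          apply Finset.sum_le_sum
          intro w hw
          rw [Finset.mem_sdiff, Ds, Finset.mem_filter] at hw
          have h2 : dg H (nbr H Q x) w = (nbr H Q x ∩ nbr H Q w).card := by
            rw [Finset.inter_comm, nbr_inter, dg_eq]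
            congr 1
            ext u
            simp only [mem_nbr, Finset.mem_inter]
            tauto
          rw [h2, h.inter_eq]
          have h3 := h.lo' hx.1
          have h4 := hw.1.2
          have h5 := h.BkD
          have h6 := h.kpos
          have h7 := h.D0
          nlinarith
      _ ≤ ∑ w ∈ Q \ nbr H Q x, (dg H (nbr H Q x) w : ℝ) := by
          apply Finset.sum_le_sum_of_subset_of_nonneg
          · apply Finset.sdiff_subset_sdiff _ (Finset.Subset.refl _)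
            exact Finset.filter_subset _ _
          · intro _ _ _; positivity
      _ = (eo H Q x : ℝ) := by
          rw [eo_eq']
          push_cast
          rfl
      _ ≤ _ := h.eo_le hx
  have h2 : A * k * (D : ℝ) ^ 2 = A * D * (k * D) := by ring
  rw [h2] at h1
  exact le_of_mul_le_mul_right h1 hkD

/-- The dichotomy. -/
lemma dichotomy (h : Cx k D T A z C2 H Q) {x v : V} (hx : Dn k D C2 H Q x) (hv : v ∈ Q)
    (h1 : z * k * D < ms H Q x v) (h2 : z * k * D ≤ ((nbr H Q x ∩ nbr H Q v).card : ℝ)) :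
    2 * C2 * k * D ^ 2 ≤ (nad H (nbr H Q v) : ℝ) := by
  have h3 : ((nbr H Q v ∩ nbr H Q x).card : ℝ) * ((nbr H Q v \ nbr H Q x).card : ℝ) ≤
      nad H (nbr H Q v) + eo H Q x := by exact_mod_cast dicho H Q x v
  have h4 := h.le_ext hx.1 hv
  have h5 := h.eo_le hx
  have hz := h.hz
  have hkD := h.kD
  have hD := h.D0
  have h6 : z * k * D / 2 ≤ ((nbr H Q v \ nbr H Q x).card : ℝ) := by
    have h7 := h.zkD
    have h8 := h.Az
    have h9 := h.A4
    nlinarith
  rw [Finset.inter_comm] at h3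
  have hz0 : 0 ≤ z * k * D := by rw [mul_assoc]; positivity
  have h7 : (z * k * D) * (z * k * D / 2) ≤
      ((nbr H Q x ∩ nbr H Q v).card : ℝ) * ((nbr H Q v \ nbr H Q x).card : ℝ) :=
    mul_le_mul h2 h6 (by positivity) (by positivity)
  have h8 := h.k1
  have h9 : 2 * (A + 2 * C2) * (k * D ^ 2) ≤ z ^ 2 * k * (k * D ^ 2) :=
    mul_le_mul_of_nonneg_right h8 (by positivity)
  nlinarith

lemma inter_of_mem (h : Cx k D T A z C2 H Q) {x x' y : V} (hx : x ∈ Q) (hx' : x' ∈ Q)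
    (hy : y ∈ Ds k D H Q x) (hy' : y ∈ Ds k D H Q x') :
    z * k * D < ((nbr H Q x ∩ nbr H Q x').card : ℝ) := by
  classical
  rw [Ds, Finset.mem_filter] at hy hy'
  have h1 := h.inter_eq x y
  have h2 := h.inter_eq x' y
  have h3 := h.lo' hx
  have h4 := h.lo' hx'
  have h5 := h.hi' hy.1
  have h6 : (nbr H Q x ∩ nbr H Q y).card + (nbr H Q x' ∩ nbr H Q y).card ≤
      (nbr H Q y).card + (nbr H Q x ∩ nbr H Q x').card := by
    rw [← Finset.card_union_add_card_inter]
    apply add_le_add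
    · apply Finset.card_le_card
      exact Finset.union_subset Finset.inter_subset_right Finset.inter_subset_right
    · apply Finset.card_le_card
      intro a ha
      simp only [Finset.mem_inter] at ha ⊢
      exact ⟨ha.1.1, ha.2.1⟩
  have h7 : ((nbr H Q x ∩ nbr H Q y).card : ℝ) + (nbr H Q x' ∩ nbr H Q y).card ≤
      (nbr H Q y).card + (nbr H Q x ∩ nbr H Q x').card := by exact_mod_cast h6
  have h8 := h.hz1
  have h9 := h.kD
  have h10 := h.kpos
  have h11 := h.D0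
  have h12 : z * k * D ≤ 1 / 400 * (k * D) := by
    rw [mul_assoc]
    exact mul_le_mul_of_nonneg_right h8 h9.le
  have h13 : (1000000 : ℝ) * D ≤ k * D := mul_le_mul_of_nonneg_right h10 h11.le
  linarith [hy.2, hy'.2]

lemma Gs_sub_Ds (h : Cx k D T A z C2 H Q) (x : V) : Gs k D z H Q x ⊆ Ds k D H Q x := by
  classical
  intro y hy
  rw [Gs, Finset.mem_filter] at hy
  rw [Ds, Finset.mem_filter]
  refine ⟨hy.1, hy.2.trans ?_⟩
  have h8 := h.hz1
  have h9 := h.kD
  have h12 : z * k * D ≤ 1 / 400 * (k * D) := by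
    rw [mul_assoc]
    exact mul_le_mul_of_nonneg_right h8 h9.le
  linarith

/-- Overlapping clusters. -/
lemma overlap (h : Cx k D T A z C2 H Q) {x x' : V} (hx : Dn k D C2 H Q x)
    (hx' : Dn k D C2 H Q x') (hi : z * k * D < ((nbr H Q x ∩ nbr H Q x').card : ℝ)) :
    x' ∈ Gs k D z H Q x := by
  classical
  rw [Gs, Finset.mem_filter]
  refine ⟨hx'.1, ?_⟩
  by_contra hcon
  push Not at hcon
  have := h.dichotomy hx hx'.1 hcon hi.le
  exact absurd hx'.2 (not_lt.2 this)

lemma self_mem_Gs (h : Cx k D T A z C2 H Q) {x : V} (hx : x ∈ Q) : x ∈ Gs k D z H Q x := by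
  classical
  rw [Gs, Finset.mem_filter, ms_self]
  refine ⟨hx, ?_⟩
  have h1 := h.hz
  have h2 := h.kD
  rw [mul_assoc, Nat.cast_zero]
  positivity

/-- The family of centres. -/
lemma exists_centres (h : Cx k D T A z C2 H Q) : ∃ C : Finset V,
    (∀ x ∈ C, Dn k D C2 H Q x) ∧
    (∀ x ∈ C, ∀ y ∈ C, x ≠ y → Disjoint (Ds k D H Q x) (Ds k D H Q y)) ∧
    (∀ x, Dn k D C2 H Q x → ∃ y ∈ C, x ∈ Gs k D z H Q y) := by
  classical
  obtain ⟨C, hC, hmax⟩ := Finset.exists_max_image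
    ((Finset.univ : Finset (Finset V)).filter fun C => (∀ x ∈ C, Dn k D C2 H Q x) ∧
      (∀ x ∈ C, ∀ y ∈ C, x ≠ y → Disjoint (Ds k D H Q x) (Ds k D H Q y)))
    Finset.card ⟨∅, by simp⟩
  rw [Finset.mem_filter] at hC
  refine ⟨C, hC.2.1, hC.2.2, ?_⟩
  intro x hx
  by_contra hcon
  push Not at hcon
  have hxC : x ∉ C := fun hxC => hcon x hxC (h.self_mem_Gs hx.1)
  have hdis : ∀ y ∈ C, Disjoint (Ds k D H Q x) (Ds k D H Q y) := by
    intro y hy
    rw [Finset.disjoint_left]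
    intro a ha ha'
    exact hcon y hy (h.overlap (hC.2.1 y hy) hx (h.inter_of_mem (hC.2.1 y hy).1 hx.1 ha' ha))
  have h1 := hmax (insert x C) (by
    rw [Finset.mem_filter]
    refine ⟨Finset.mem_univ _, ?_, ?_⟩
    · intro y hy
      rw [Finset.mem_insert] at hy
      rcases hy with rfl | hy
      · exact hx
      · exact hC.2.1 y hy
    · intro y hy y' hy' hne
      rw [Finset.mem_insert] at hy hy'
      rcases hy with rfl | hy
      · rcases hy' with rfl | hy'
        · exact absurd rfl hne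
        · exact hdis y' hy'
      · rcases hy' with rfl | hy'
        · exact (hdis y hy).symm
        · exact hC.2.2 y hy y' hy' hne)
  rw [Finset.card_insert_of_notMem hxC] at h1
  omega

end Cx

end Pool.Agent.Helper48.LK
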