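import Pool.Agent.Helper48.LK.T5b

/-!
# T5c. Sizes of the clusters and degrees between them
-/

set_option autoImplicit false
set_option linter.unusedSectionVars false

namespace Pool.Agent.Helper48.LK

open Pool.Agent.Helper32.Sq

variable {V : Type} [Fintype V] [DecidableEq V] {H : SimpleGraph V} [DecidableRel H.Adj]
variable {Q : Finset V} {k D T : ℕ} {A z C2 : ℝ}

/-- Triangle inequality for set differences. -/
lemma card_sdiff_tri (P S R : Finset V) :
    ((P \ R).card : ℝ) ≤ (P \ S).card + (S \ R).card := by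
  have h1 : P \ R ⊆ (P \ S) ∪ (S \ R) := by
    intro a ha
    simp only [Finset.mem_union, Finset.mem_sdiff] at ha ⊢
    tauto
  exact_mod_cast (Finset.card_le_card h1).trans (Finset.card_union_le _ _)

namespace Cx

lemma mem_Gs (_h : Cx k D T A z C2 H Q) {x y : V} :
    y ∈ Gs k D z H Q x ↔ y ∈ Q ∧ (ms H Q x y : ℝ) ≤ z * k * D := by
  classical
  rw [Gs, Finset.mem_filter]

lemma mem_Ds (_h : Cx k D T A z C2 H Q) {x y : V} :
    y ∈ Ds k D H Q x ↔ y ∈ Q ∧ (ms H Q x y : ℝ) ≤ k * D / 4 := by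
  classical
  rw [Ds, Finset.mem_filter]

lemma Gs_sub_Q (h : Cx k D T A z C2 H Q) (x : V) : Gs k D z H Q x ⊆ Q :=
  fun _ hy => (h.mem_Gs.1 hy).1

lemma Ds_sub_Q (h : Cx k D T A z C2 H Q) (x : V) : Ds k D H Q x ⊆ Q :=
  fun _ hy => (h.mem_Ds.1 hy).1

lemma Gs_ext (h : Cx k D T A z C2 H Q) {x y : V} (hx : Dn k D C2 H Q x)
    (hy : y ∈ Gs k D z H Q x) : ((nbr H Q y \ Gs k D z H Q x).card : ℝ) ≤ 2 * (z * k * D) := by
  have h1 := card_sdiff_tri (nbr H Q y) (nbr H Q x) (Gs k D z H Q x)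
  have h2 := h.card_sdiff_Gs hx
  have h3 := (h.mem_Gs.1 hy)
  have h4 := h.ext_le hx.1 h3.1
  have h5 := h.zkD
  have h6 := h.Az
  have h7 := h.A4
  have h8 := h.D0
  have h9 : 400 * A * D ≤ A / z * D := mul_le_mul_of_nonneg_right h6 h8.le
  nlinarith [h3.2]

lemma Gs_mis (h : Cx k D T A z C2 H Q) {x y : V} (hx : Dn k D C2 H Q x)
    (hy : y ∈ Gs k D z H Q x) : ((Gs k D z H Q x \ nbr H Q y).card : ℝ) ≤ 2 * (z * k * D) := by
  have h1 := card_sdiff_tri (Gs k D z H Q x) (nbr H Q x) (nbr H Q y)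
  have h2 : ((Gs k D z H Q x \ nbr H Q x).card : ℝ) ≤ A * D := by
    refine le_trans ?_ (h.card_Ds_sdiff hx)
    exact_mod_cast Finset.card_le_card (Finset.sdiff_subset_sdiff (h.Gs_sub_Ds x)
      (Finset.Subset.refl _))
  have h3 := (h.mem_Gs.1 hy)
  have h5 := h.zkD
  have h6 := h.Az
  have h7 := h.A4
  have h8 := h.D0
  have h9 : 400 * A * D ≤ A / z * D := mul_le_mul_of_nonneg_right h6 h8.le
  have h10 : ((nbr H Q x \ nbr H Q y).card : ℝ) ≤ z * k * D := h3.2
  nlinarith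

lemma Gs_card_le (h : Cx k D T A z C2 H Q) {x : V} (hx : Dn k D C2 H Q x) :
    ((Gs k D z H Q x).card : ℝ) ≤ (2 * k - 1 + A) * D := by
  have h2 : ((Gs k D z H Q x \ nbr H Q x).card : ℝ) ≤ A * D := by
    refine le_trans ?_ (h.card_Ds_sdiff hx)
    exact_mod_cast Finset.card_le_card (Finset.sdiff_subset_sdiff (h.Gs_sub_Ds x)
      (Finset.Subset.refl _))
  have h3 := h.hi' hx.1
  have h4 : (Gs k D z H Q x).card ≤ (Gs k D z H Q x \ nbr H Q x).card + (nbr H Q x).card := by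
    rw [Finset.card_sdiff_add_card]
    exact Finset.card_le_card Finset.subset_union_left
  have h5 : ((Gs k D z H Q x).card : ℝ) ≤
      (Gs k D z H Q x \ nbr H Q x).card + (nbr H Q x).card := by exact_mod_cast h4
  linarith

lemma le_Gs_card (h : Cx k D T A z C2 H Q) {x : V} (hx : Dn k D C2 H Q x) :
    (2 * k - 3 / 2 - A / z) * D ≤ ((Gs k D z H Q x).card : ℝ) := by
  have h2 := h.card_sdiff_Gs hx
  have h3 := h.lo' hx.1
  have h4 : (nbr H Q x).card ≤ (nbr H Q x \ Gs k D z H Q x).card + (Gs k D z H Q x).card := by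
    rw [Finset.card_sdiff_add_card]
    exact Finset.card_le_card Finset.subset_union_left
  have h5 : ((nbr H Q x).card : ℝ) ≤
      (nbr H Q x \ Gs k D z H Q x).card + (Gs k D z H Q x).card := by exact_mod_cast h4
  linarith

lemma Rs_card (h : Cx k D T A z C2 H Q) {x : V} (hx : Dn k D C2 H Q x) :
    ((Ds k D H Q x \ Gs k D z H Q x).card : ℝ) ≤ (A / z + A) * D := by
  have h1 := card_sdiff_tri (Ds k D H Q x) (nbr H Q x) (Gs k D z H Q x)
  have h2 := h.card_sdiff_Gs hx
  have h3 := h.card_Ds_sdiff hx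
  linarith

/-- Total number of edges leaving the cluster. -/
lemma tot_ext (h : Cx k D T A z C2 H Q) {x : V} (hx : Dn k D C2 H Q x) :
    ∑ y ∈ Gs k D z H Q x, ((nbr H Q y \ Ds k D H Q x).card : ℝ) ≤ 20 * A * k * D ^ 2 := by
  have h1 : ∀ y ∈ Gs k D z H Q x, ((nbr H Q y \ Ds k D H Q x).card : ℝ) ≤
      (nbr H Q y \ nbr H Q x).card + 4 * A * D := by
    intro y _
    have h2 := card_sdiff_tri (nbr H Q y) (nbr H Q x) (Ds k D H Q x)
    have h3 := h.card_sdiff_Ds hx
    linarith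
  refine (Finset.sum_le_sum h1).trans ?_
  rw [Finset.sum_add_distrib, Finset.sum_const, nsmul_eq_mul]
  have h4 := h.Gs_card_le hx
  have h5 : ∑ y ∈ Gs k D z H Q x, ((nbr H Q y \ nbr H Q x).card : ℝ) ≤
      (eo H Q x : ℝ) + ∑ y ∈ Gs k D z H Q x \ nbr H Q x, ((nbr H Q y \ nbr H Q x).card : ℝ) := by
    have h6 : Gs k D z H Q x ⊆ nbr H Q x ∪ (Gs k D z H Q x \ nbr H Q x) := by
      intro a ha
      simp only [Finset.mem_union, Finset.mem_sdiff]
      tauto
    refine (Finset.sum_le_sum_of_subset_of_nonneg h6 (fun _ _ _ => by positivity)).trans ?_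
    rw [Finset.sum_union Finset.disjoint_sdiff]
    unfold eo
    rw [Nat.cast_sum]
  have h6 : ∑ y ∈ Gs k D z H Q x \ nbr H Q x, ((nbr H Q y \ nbr H Q x).card : ℝ) ≤
      A * D * (k * D) := by
    calc ∑ y ∈ Gs k D z H Q x \ nbr H Q x, ((nbr H Q y \ nbr H Q x).card : ℝ)
        ≤ ∑ _y ∈ Gs k D z H Q x \ nbr H Q x, ((k : ℝ) * D) := by
          apply Finset.sum_le_sum
          intro y hy
          have hy' := h.mem_Gs.1 (Finset.mem_sdiff.1 hy).1
          have h7 := h.ext_le hx.1 hy'.1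
          have h8 := h.hz1
          have h9 := h.kD
          have h10 : z * k * D ≤ 1 / 400 * (k * D) := by
            rw [mul_assoc]
            exact mul_le_mul_of_nonneg_right h8 h9.le
          have h11 := h.kpos
          have h12 := h.D0
          have h13 : (1000000 : ℝ) * D ≤ k * D := mul_le_mul_of_nonneg_right h11 h12.le
          linarith [hy'.2]
      _ = ((Gs k D z H Q x \ nbr H Q x).card : ℝ) * (k * D) := by
          rw [Finset.sum_const, nsmul_eq_mul]
      _ ≤ A * D * (k * D) := by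
          apply mul_le_mul_of_nonneg_right _ h.kD.le
          refine le_trans ?_ (h.card_Ds_sdiff hx)
          exact_mod_cast Finset.card_le_card (Finset.sdiff_subset_sdiff (h.Gs_sub_Ds x)
            (Finset.Subset.refl _))
  have h7 := h.eo_le hx
  have h8 := h.A4
  have h9 := h.D0
  have h10 := h.BkD
  have h11 := h.Az
  have h12 : ((Gs k D z H Q x).card : ℝ) * (4 * A * D) ≤ (2 * k - 1 + A) * D * (4 * A * D) :=
    mul_le_mul_of_nonneg_right h4 (by positivity)
  have h13 : A * D ≤ k * D := by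
    have h14 : 400 * A * D ≤ A / z * D := mul_le_mul_of_nonneg_right h11 h9.le
    nlinarith
  have h15 : (A * D) * (4 * A * D) ≤ (k * D) * (4 * A * D) :=
    mul_le_mul_of_nonneg_right h13 (by positivity)
  nlinarith [sq_nonneg (D : ℝ), mul_pos h.kD (by linarith : (0 : ℝ) < A)]

/-- A vertex outside the large cluster misses many vertices of the cluster. -/
lemma far_mis (h : Cx k D T A z C2 H Q) {x v : V} (hx : Dn k D C2 H Q x) (hv : v ∈ Q)
    (hv' : v ∉ Ds k D H Q x) :
    (k : ℝ) * D / 4 - A / z * D ≤ ((Gs k D z H Q x \ nbr H Q v).card : ℝ) := by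
  have h1 := card_sdiff_tri (nbr H Q x) (Gs k D z H Q x) (nbr H Q v)
  have h2 := h.card_sdiff_Gs hx
  have h3 : (k : ℝ) * D / 4 < ms H Q x v := by
    by_contra hcon
    exact hv' (h.mem_Ds.2 ⟨hv, not_lt.1 hcon⟩)
  have h4 : ((nbr H Q x \ nbr H Q v).card : ℝ) = ms H Q x v := rfl
  linarith

/-- A vertex with many missing neighbours has many neighbours outside. -/
lemma ext_Ds (h : Cx k D T A z C2 H Q) {x v : V} (hx : Dn k D C2 H Q x) (hv : v ∈ Q) :
    (ms H Q x v : ℝ) - (1 / 2 + A) * D ≤ ((nbr H Q v \ Ds k D H Q x).card : ℝ) := by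
  have h1 := h.le_ext hx.1 hv
  have h2 := h.card_Ds_sdiff hx
  have h3 := card_sdiff_tri (nbr H Q v) (Ds k D H Q x) (nbr H Q x)
  linarith

/-- A vertex of the large cluster has many neighbours in the cluster. -/
lemma Ds_inter (h : Cx k D T A z C2 H Q) {x v : V} (hx : Dn k D C2 H Q x)
    (hv : v ∈ Ds k D H Q x) :
    (2 * k - 3 / 2 - A / z) * D - k * D / 4 ≤ ((nbr H Q v ∩ Gs k D z H Q x).card : ℝ) := by
  have h1 := h.inter_eq x v
  have h2 := h.card_sdiff_Gs hx
  have h3 := h.lo' hx.1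
  have h4 := (h.mem_Ds.1 hv).2
  have h5 : nbr H Q x ∩ nbr H Q v ⊆
      (nbr H Q x \ Gs k D z H Q x) ∪ (nbr H Q v ∩ Gs k D z H Q x) := by
    intro a ha
    simp only [Finset.mem_union, Finset.mem_sdiff, Finset.mem_inter] at ha ⊢
    tauto
  have h6 : ((nbr H Q x ∩ nbr H Q v).card : ℝ) ≤
      (nbr H Q x \ Gs k D z H Q x).card + (nbr H Q v ∩ Gs k D z H Q x).card := by
    exact_mod_cast (Finset.card_le_card h5).trans (Finset.card_union_le _ _)
  linarith

end Cx

end Pool.Agent.Helper48.LK
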