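import Pool.Agent.Helper48.LK.T5c

/-!
# T5d. The contraction
-/

set_option autoImplicit false
set_option linter.unusedSectionVars false

namespace Pool.Agent.Helper48.LK

open Pool.Agent.Helper32.Sq

variable {V : Type} [Fintype V] [DecidableEq V] {H : SimpleGraph V} [DecidableRel H.Adj]
variable {Q : Finset V} {k D T : ℕ} {A z C2 : ℝ}

lemma sum_nonadj (H : SimpleGraph V) [DecidableRel H.Adj] (W : Finset V) :
    (∑ u ∈ W, ((W.filter fun v => u ≠ v ∧ ¬ H.Adj u v).card : ℝ)) + ∑ u ∈ W, (dg H W u : ℝ) =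
      W.card * (W.card - 1) := by
  rw [← Finset.sum_add_distrib]
  have h1 : ∀ u ∈ W, ((W.filter fun v => u ≠ v ∧ ¬ H.Adj u v).card : ℝ) + (dg H W u : ℝ) =
      (W.card : ℝ) - 1 := by
    intro u hu
    have h2 : (W.filter fun v => u ≠ v ∧ ¬ H.Adj u v).card + dg H W u + 1 = W.card := by
      have h3 : W = insert u ((W.filter fun v => u ≠ v ∧ ¬ H.Adj u v) ∪
          W.filter fun v => H.Adj u v) := by
        ext v
        simp only [Finset.mem_insert, Finset.mem_union, Finset.mem_filter]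
        constructor
        · intro hv
          by_cases h4 : v = u
          · exact Or.inl h4
          · right
            by_cases h5 : H.Adj u v
            · exact Or.inr ⟨hv, h5⟩
            · exact Or.inl ⟨hv, fun h => h4 h.symm, h5⟩
        · rintro (rfl | ⟨hv, -⟩ | ⟨hv, -⟩)
          · exact hu
          · exact hv
          · exact hv
      conv_rhs => rw [h3]
      rw [Finset.card_insert_of_notMem, Finset.card_union_of_disjoint]
      · rfl
      · rw [Finset.disjoint_left]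
        intro a ha ha'
        exact (Finset.mem_filter.1 ha).2.2 (Finset.mem_filter.1 ha').2
      · simp only [Finset.mem_union, Finset.mem_filter]
        rintro (⟨-, h, -⟩ | ⟨-, h⟩)
        · exact h rfl
        · exact H.irrefl h
    have h3 : (((W.filter fun v => u ≠ v ∧ ¬ H.Adj u v).card + dg H W u + 1 : ℕ) : ℝ) =
      W.card := by rw [h2]
    push_cast at h3
    linarith
  rw [Finset.sum_congr rfl h1, Finset.sum_const, nsmul_eq_mul]

/-- The contraction of one cluster. -/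
lemma Cx.exists_contr (h : Cx k D T A z C2 H Q) {η : ℝ} (hη : 0 ≤ η)
    (RL : ∀ W ⊆ Q, ((W.card : ℝ) ≤ (2 * k + A) * D) →
      ∑ x ∈ W, (dg H W x : ℝ) ≤ (2 * k - 3 / 2 + η / 8) * D * W.card) {x : V}
    (hx : Dn k D C2 H Q x) :
    ∃ ρ : V → V, Ctr (Gs k D z H Q x) (fun u v => u ≠ v ∧ ¬ H.Adj u v) ρ ∧
      ((((Gs k D z H Q x).filter fun u => ρ u = u).card : ℕ) : ℝ) ≤
        (2 * k - 3 / 2 + η / 8) * D + 2 ∧
      ((((Gs k D z H Q x).filter fun u => ρ u ≠ u).card : ℕ) : ℝ) ≤ (A + 1 / 2) * D := by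
  classical
  set W := Gs k D z H Q x with hW
  set n : ℝ := (W.card : ℝ) with hn
  set s : ℝ := n - 1 - (2 * k - 3 / 2 + η / 8) * D with hs
  have hD := h.D0
  have hn1 := h.Gs_card_le hx
  have hn2 := h.le_Gs_card hx
  have hk := h.kpos
  have hB := h.BkD
  have hA := h.A4
  have hAz := h.Az
  have hAzD : 400 * A * D ≤ A / z * D := mul_le_mul_of_nonneg_right hAz hD.le
  have hkD' : (1000000 : ℝ) * D ≤ k * D := mul_le_mul_of_nonneg_right hk hD.le
  have hnk : (k : ℝ) * D ≤ n := by nlinarith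
  have hηD : 0 ≤ η * D := mul_nonneg hη hD.le
  have hz := h.hz
  have hz1 := h.hz1
  have hkD := h.kD
  have hzk : z * k * D ≤ 1 / 400 * (k * D) := by
    rw [mul_assoc]
    exact mul_le_mul_of_nonneg_right hz1 hkD.le
  have hzk0 : 0 < z * k * D := by rw [mul_assoc]; positivity
  set M : ℕ := ⌊s⌋₊ with hM
  have hsum : n * s ≤ ∑ u ∈ W, ((W.filter fun v => u ≠ v ∧ ¬ H.Adj u v).card : ℝ) := by
    have h1 := sum_nonadj H W
    have h2 := RL W (h.Gs_sub_Q x) (by
      refine hn1.trans ?_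
      apply mul_le_mul_of_nonneg_right _ hD.le
      linarith)
    rw [← hn] at h1 h2
    have h3 : n * s = n * (n - 1) - (2 * k - 3 / 2 + η / 8) * D * n := by
      rw [hs]; ring
    rw [h3]
    linarith
  have hdd : ∀ u ∈ W, (W.filter fun v => u ≠ v ∧ ¬ H.Adj u v).card ≤ ⌊2 * (z * k * D)⌋₊ := by
    intro u hu
    apply Nat.le_floor
    refine le_trans ?_ (h.Gs_mis hx hu)
    have h1 : (W.filter fun v => u ≠ v ∧ ¬ H.Adj u v) ⊆ W \ nbr H Q u := by
      intro v hv
      rw [Finset.mem_filter] at hv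
      rw [Finset.mem_sdiff]
      exact ⟨hv.1, fun hcon => hv.2.2 ((mem_nbr H).1 hcon).2⟩
    exact_mod_cast Finset.card_le_card h1
  obtain ⟨ρ, hρ, hcard⟩ := exists_ctr W (fun u v => u ≠ v ∧ ¬ H.Adj u v)
    (fun u v huv => ⟨huv.1.symm, fun hc => huv.2 hc.symm⟩) (fun u hu => hu.1 rfl)
    ⌊2 * (z * k * D)⌋₊ hdd M (by
      by_cases h0 : M = 0
      · exact Or.inl h0
      · right
        have h1 : 1 ≤ M := Nat.one_le_iff_ne_zero.2 h0
        have hs1 : 1 ≤ s := by
          by_contra hcon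
          push Not at hcon
          exact h0 (Nat.floor_eq_zero.2 hcon)
        have hMs : (M : ℝ) ≤ s := Nat.floor_le (by linarith)
        have h2 : ((4 * (M - 1) * ⌊2 * (z * k * D)⌋₊ : ℕ) : ℝ) <
            ((∑ u ∈ W, (W.filter fun v => u ≠ v ∧ ¬ H.Adj u v).card : ℕ) : ℝ) := by
          push_cast [Nat.cast_sub h1]
          refine lt_of_lt_of_le ?_ hsum
          have h3 : ((⌊2 * (z * k * D)⌋₊ : ℕ) : ℝ) ≤ 2 * (z * k * D) :=
            Nat.floor_le (by linarith)
          have h4 : (0 : ℝ) ≤ (M : ℝ) - 1 := by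
            have : (1 : ℝ) ≤ M := by exact_mod_cast h1
            linarith
          calc 4 * ((M : ℝ) - 1) * ((⌊2 * (z * k * D)⌋₊ : ℕ) : ℝ)
              ≤ 4 * ((M : ℝ) - 1) * (2 * (z * k * D)) :=
                mul_le_mul_of_nonneg_left h3 (by linarith)
            _ ≤ 4 * ((M : ℝ) - 1) * (k * D / 8) := by
                apply mul_le_mul_of_nonneg_left _ (by linarith)
                linarith
            _ ≤ (s - 1) * (k * D / 2) := by nlinarith
            _ < s * (k * D) := by nlinarith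
            _ ≤ n * s := by nlinarith
        exact_mod_cast h2)
  refine ⟨ρ, hρ, ?_, ?_⟩
  · have h1 : ((W.filter fun u => ρ u = u).card : ℝ) + (W.filter fun u => ρ u ≠ u).card = n := by
      rw [hn]
      exact_mod_cast Finset.card_filter_add_card_filter_not (s := W) (fun u => ρ u = u)
    rw [hcard] at h1
    have h2 : s < M + 1 := Nat.lt_floor_add_one s
    have h3 : n = s + 1 + (2 * k - 3 / 2 + η / 8) * D := by rw [hs]; ring
    linarith
  · rw [hcard]
    by_cases h0 : M = 0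
    · rw [h0, Nat.cast_zero]
      positivity
    · have hs1 : 1 ≤ s := by
        by_contra hcon
        push Not at hcon
        exact h0 (Nat.floor_eq_zero.2 hcon)
      have hMs : (M : ℝ) ≤ s := Nat.floor_le (by linarith)
      have h3 : s ≤ n - (2 * k - 3 / 2) * D := by
        rw [hs]
        nlinarith
      nlinarith

/-- The global contraction map. -/
structure Qt (H : SimpleGraph V) (Q C : Finset V) (Gf : V → Finset V) (ρ : V → V) : Prop where
  idem : ∀ v, ρ (ρ v) = ρ v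
  inj : ∀ u v, ρ u ≠ u → ρ v ≠ v → ρ u = ρ v → u = v
  nadj : ∀ v w, ρ v = ρ w → ¬ H.Adj v w
  fix : ∀ v, (∀ x ∈ C, v ∉ Gf x) → ρ v = v
  stab : ∀ x ∈ C, ∀ v ∈ Gf x, ρ v ∈ Gf x

lemma exists_qt (H : SimpleGraph V) [DecidableRel H.Adj] (Q C : Finset V) (Gf : V → Finset V)
    (hdis : ∀ x ∈ C, ∀ y ∈ C, x ≠ y → Disjoint (Gf x) (Gf y)) (ρf : V → V → V)
    (hρ : ∀ x ∈ C, Ctr (Gf x) (fun u v => u ≠ v ∧ ¬ H.Adj u v) (ρf x)) :
    ∃ ρ : V → V, Qt H Q C Gf ρ ∧ ∀ x ∈ C, ∀ v ∈ Gf x, ρ v = ρf x v := by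
  classical
  set ρ : V → V := fun v => if h : ∃ x ∈ C, v ∈ Gf x then ρf h.choose v else v with hρdef
  have hin : ∀ x ∈ C, ∀ v ∈ Gf x, ρ v = ρf x v := by
    intro x hx v hv
    have h : ∃ x ∈ C, v ∈ Gf x := ⟨x, hx, hv⟩
    have h2 : h.choose = x := by
      by_contra hne
      exact Finset.disjoint_left.1 (hdis _ h.choose_spec.1 x hx hne) h.choose_spec.2 hv
    simp only [hρdef]
    rw [dif_pos h, h2]
  have hout : ∀ v, (∀ x ∈ C, v ∉ Gf x) → ρ v = v := by
    intro v hv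
    simp only [hρdef]
    rw [dif_neg]
    rintro ⟨x, hx, hx'⟩
    exact hv x hx hx'
  have hstab : ∀ x ∈ C, ∀ v ∈ Gf x, ρ v ∈ Gf x := by
    intro x hx v hv
    rw [hin x hx v hv]
    by_cases h1 : ρf x v = v
    · rw [h1]; exact hv
    · exact ((hρ x hx).mem v h1).2.1
  have hne : ∀ v, ρ v ≠ v → ∃ x ∈ C, v ∈ Gf x := by
    intro v hv
    by_contra hcon
    push Not at hcon
    exact hv (hout v hcon)
  have hinj : ∀ u v, ρ u ≠ u → ρ v ≠ v → ρ u = ρ v → u = v := by
    intro u v hu hv huv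
    obtain ⟨x, hx, hux⟩ := hne u hu
    obtain ⟨y, hy, hvy⟩ := hne v hv
    have hxy : x = y := by
      by_contra hne'
      have h1 := hstab x hx u hux
      have h2 := hstab y hy v hvy
      rw [huv] at h1
      exact Finset.disjoint_left.1 (hdis x hx y hy hne') h1 h2
    subst hxy
    rw [hin x hx u hux] at hu huv
    rw [hin x hx v hvy] at hv huv
    exact (hρ x hx).inj u v hu hv huv
  have hP : ∀ v, ρ v ≠ v → ¬ H.Adj v (ρ v) := by
    intro v hv
    obtain ⟨x, hx, hvx⟩ := hne v hv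
    rw [hin x hx v hvx] at hv ⊢
    exact ((hρ x hx).mem v hv).2.2.2
  refine ⟨ρ, ⟨?_, hinj, ?_, hout, hstab⟩, hin⟩
  · intro v
    by_cases h : ∃ x ∈ C, v ∈ Gf x
    · obtain ⟨x, hx, hv⟩ := h
      rw [hin x hx (ρ v) (hstab x hx v hv), hin x hx v hv]
      exact (hρ x hx).idem v
    · push Not at h
      have := hout v h
      rw [this, this]
  · intro v w hvw hadj
    have hnevw : v ≠ w := H.ne_of_adj hadj
    by_cases h1 : ρ v = v
    · by_cases h2 : ρ w = w
      · exact hnevw (h1.symm.trans (hvw.trans h2))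
      · have h3 := hP w h2
        rw [← hvw, h1] at h3
        exact h3 hadj.symm
    · by_cases h2 : ρ w = w
      · have h3 := hP v h1
        rw [hvw, h2] at h3
        exact h3 hadj
      · exact hnevw (hinj v w h1 h2 hvw)

/-- The contracted graph. -/
def qg (H : SimpleGraph V) (Q C : Finset V) (Gf : V → Finset V) (ρ : V → V) : SimpleGraph V where
  Adj u u' := u ≠ u' ∧ (u ∈ Q ∧ ρ u = u) ∧ (u' ∈ Q ∧ ρ u' = u') ∧
    ((∃ v ∈ Q, ∃ v' ∈ Q, ρ v = u ∧ ρ v' = u' ∧ H.Adj v v') ∨ ∃ x ∈ C, u ∈ Gf x ∧ u' ∈ Gf x)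
  symm := ⟨by
    rintro u u' ⟨h1, h2, h3, h4⟩
    refine ⟨h1.symm, h3, h2, ?_⟩
    rcases h4 with ⟨v, hv, v', hv', h5, h6, h7⟩ | ⟨x, hx, h5, h6⟩
    · exact Or.inl ⟨v', hv', v, hv, h6, h5, h7.symm⟩
    · exact Or.inr ⟨x, hx, h6, h5⟩⟩
  loopless := ⟨fun u h => h.1 rfl⟩

noncomputable instance (H : SimpleGraph V) (Q C : Finset V) (Gf : V → Finset V) (ρ : V → V) :
    DecidableRel (qg H Q C Gf ρ).Adj := fun _ _ => Classical.propDecidable _

namespace Qt

variable {C : Finset V} {Gf : V → Finset V} {ρ : V → V}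

lemma fiber_card (q : Qt H Q C Gf ρ) (S : Finset V) (u : V) :
    (S.filter fun v => ρ v = u).card ≤ 2 := by
  have h1 : (S.filter fun v => ρ v = u) ⊆ insert u ((S.filter fun v => ρ v = u).filter
      fun v => v ≠ u) := by
    intro v hv
    rw [Finset.mem_insert, Finset.mem_filter]
    by_cases h : v = u
    · exact Or.inl h
    · exact Or.inr ⟨hv, h⟩
  have h2 : ((S.filter fun v => ρ v = u).filter fun v => v ≠ u).card ≤ 1 := by
    rw [Finset.card_le_one]
    intro a ha b hb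
    rw [Finset.mem_filter, Finset.mem_filter] at ha hb
    apply q.inj a b
    · rw [ha.1.2]; exact ha.2.symm
    · rw [hb.1.2]; exact hb.2.symm
    · rw [ha.1.2, hb.1.2]
  refine (Finset.card_le_card h1).trans ((Finset.card_insert_le _ _).trans ?_)
  omega

lemma card_le_image (q : Qt H Q C Gf ρ) (S : Finset V) : S.card ≤ 2 * (S.image ρ).card :=
  Finset.card_le_mul_card_image S 2 fun a _ => q.fiber_card S a

/-- The fibre of a vertex outside the clusters. -/
lemma eq_of_rho (q : Qt H Q C Gf ρ) {v w : V} (hw : ∀ x ∈ C, w ∉ Gf x) (h : ρ v = w) :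
    v = w := by
  have h1 : ∀ x ∈ C, v ∉ Gf x := by
    intro x hx hv
    have := q.stab x hx v hv
    rw [h] at this
    exact hw x hx this
  rw [← h]
  exact (q.fix v h1).symm

lemma mem_of_rho (q : Qt H Q C Gf ρ)
    (hdis : ∀ x ∈ C, ∀ y ∈ C, x ≠ y → Disjoint (Gf x) (Gf y)) {v : V} {x : V} (hx : x ∈ C)
    (h : ρ v ∈ Gf x) : v ∈ Gf x := by
  by_cases h1 : ∃ y ∈ C, v ∈ Gf y
  · obtain ⟨y, hy, hv⟩ := h1
    have h2 := q.stab y hy v hv
    by_cases h3 : x = y
    · rw [h3]; exact hv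
    · exact absurd h2 (Finset.disjoint_left.1 (hdis x hx y hy h3) h)
  · push Not at h1
    rw [q.fix v h1] at h
    exact h

/-- The images of adjacent vertices are adjacent. -/
lemma adj_image (q : Qt H Q C Gf ρ) (hρQ : ∀ v ∈ Q, ρ v ∈ Q) {v w : V} (hv : v ∈ Q)
    (hw : w ∈ Q) (h : H.Adj v w) : (qg H Q C Gf ρ).Adj (ρ v) (ρ w) := by
  refine ⟨fun he => q.nadj v w he h, ⟨hρQ v hv, q.idem v⟩, ⟨hρQ w hw, q.idem w⟩, Or.inl ?_⟩
  exact ⟨v, hv, w, hw, rfl, rfl, h⟩

/-- Upper bound for degrees: all neighbours of `u` in `S` are outside the cluster of `u`. -/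
lemma dg_le (_q : Qt H Q C Gf ρ) (S : Finset V) (u : V)
    (hS : ∀ u' ∈ S, (qg H Q C Gf ρ).Adj u u' → ∀ x ∈ C, u ∈ Gf x → u' ∉ Gf x) :
    dg (qg H Q C Gf ρ) S u ≤
      ∑ v ∈ Q.filter (fun v => ρ v = u), (nbr H Q v ∩ Q.filter fun w => ρ w ∈ S).card := by
  classical
  have h1 : nbr (qg H Q C Gf ρ) S u ⊆ (Q.filter (fun v => ρ v = u)).biUnion
      fun v => (nbr H Q v ∩ Q.filter fun w => ρ w ∈ S).image ρ := by
    intro u' hu'
    rw [mem_nbr] at hu'
    have h2 := hS u' hu'.1 hu'.2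
    obtain ⟨-, -, -, h3 | ⟨x, hx, h4, h5⟩⟩ := hu'.2
    · obtain ⟨v, hv, v', hv', h4, h5, h6⟩ := h3
      rw [Finset.mem_biUnion]
      refine ⟨v, Finset.mem_filter.2 ⟨hv, h4⟩, ?_⟩
      rw [Finset.mem_image]
      refine ⟨v', ?_, h5⟩
      rw [Finset.mem_inter, mem_nbr, Finset.mem_filter]
      refine ⟨⟨hv', h6⟩, hv', ?_⟩
      rw [h5]
      exact hu'.1
    · exact absurd h5 (h2 x hx h4)
  rw [dg_eq]
  exact (Finset.card_le_card h1).trans (Finset.card_biUnion_le.trans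
    (Finset.sum_le_sum fun v _ => Finset.card_image_le))

/-- Lower bound for degrees. -/
lemma le_dg (q : Qt H Q C Gf ρ) (hρQ : ∀ v ∈ Q, ρ v ∈ Q) (S : Finset V) (v : V) (hv : v ∈ Q)
    (hv' : ρ v = v) :
    (nbr H Q v ∩ Q.filter fun w => ρ w ∈ S).card ≤ 2 * dg (qg H Q C Gf ρ) S v := by
  refine (q.card_le_image _).trans (Nat.mul_le_mul_left _ ?_)
  rw [dg_eq]
  apply Finset.card_le_card
  intro u hu
  rw [Finset.mem_image] at hu
  obtain ⟨w, hw, rfl⟩ := hu
  rw [Finset.mem_inter, mem_nbr, Finset.mem_filter] at hw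
  rw [mem_nbr]
  refine ⟨hw.2.2, ?_⟩
  have := q.adj_image hρQ hv hw.1.1 hw.1.2
  rwa [hv'] at this

end Qt

end Pool.Agent.Helper48.LK
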