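import Pool.Agent.Helper48.LK.T5d

/-!
# T5e. Degrees in the contracted graph
-/

set_option autoImplicit false
set_option linter.unusedSectionVars false

namespace Pool.Agent.Helper48.LK

open Pool.Agent.Helper32.Sq

variable {V : Type} [Fintype V] [DecidableEq V] {H : SimpleGraph V} [DecidableRel H.Adj]
variable {Q C : Finset V} {k D T : ℕ} {A z C2 η : ℝ} {ρ : V → V}

/-- The state after the choice of centres and contractions. -/
structure St (k D T : ℕ) (A z C2 η : ℝ) (H : SimpleGraph V) [DecidableRel H.Adj] (Q C : Finset V)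
    (ρ : V → V) : Prop where
  h : Cx k D T A z C2 H Q
  hη : 0 ≤ η
  hC1 : ∀ x ∈ C, Dn k D C2 H Q x
  hC2 : ∀ x ∈ C, ∀ y ∈ C, x ≠ y → Disjoint (Ds k D H Q x) (Ds k D H Q y)
  hC3 : ∀ x, Dn k D C2 H Q x → ∃ y ∈ C, x ∈ Gs k D z H Q y
  q : Qt H Q C (Gs k D z H Q) ρ
  m1 : ∀ x ∈ C, ((((Gs k D z H Q x).filter fun u => ρ u = u).card : ℕ) : ℝ) ≤
        (2 * k - 3 / 2 + η / 8) * D + 2
  m2 : ∀ x ∈ C, ((((Gs k D z H Q x).filter fun u => ρ u ≠ u).card : ℕ) : ℝ) ≤ (A + 1 / 2) * D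

/-- The contracted cluster. -/
noncomputable def Gp (k D : ℕ) (z : ℝ) (H : SimpleGraph V) [DecidableRel H.Adj] (Q : Finset V)
    (ρ : V → V) (x : V) : Finset V := (Gs k D z H Q x).filter fun u => ρ u = u

/-- The rigid vertices near the cluster. -/
noncomputable def Rp (k D : ℕ) (z : ℝ) (H : SimpleGraph V) [DecidableRel H.Adj] (Q : Finset V)
    (x : V) : Finset V := Ds k D H Q x \ Gs k D z H Q x

/-- The other vertices. -/
noncomputable def Op (k D : ℕ) (H : SimpleGraph V) [DecidableRel H.Adj] (Q C : Finset V) :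
    Finset V := Q \ C.biUnion (Ds k D H Q)

/-- The contracted graph. -/
noncomputable abbrev Hq (k D : ℕ) (z : ℝ) (H : SimpleGraph V) [DecidableRel H.Adj]
    (Q C : Finset V) (ρ : V → V) : SimpleGraph V := qg H Q C (Gs k D z H Q) ρ

namespace St

lemma mem_Gp (_s : St k D T A z C2 η H Q C ρ) {x u : V} :
    u ∈ Gp k D z H Q ρ x ↔ u ∈ Gs k D z H Q x ∧ ρ u = u := by
  rw [Gp, Finset.mem_filter]

lemma mem_Rp (_s : St k D T A z C2 η H Q C ρ) {x u : V} :
    u ∈ Rp k D z H Q x ↔ u ∈ Ds k D H Q x ∧ u ∉ Gs k D z H Q x := by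
  rw [Rp, Finset.mem_sdiff]

lemma mem_Op (_s : St k D T A z C2 η H Q C ρ) {u : V} :
    u ∈ Op k D H Q C ↔ u ∈ Q ∧ ∀ x ∈ C, u ∉ Ds k D H Q x := by
  rw [Op, Finset.mem_sdiff, Finset.mem_biUnion]
  push Not
  rfl

lemma Gdis (s : St k D T A z C2 η H Q C ρ) : ∀ x ∈ C, ∀ y ∈ C, x ≠ y →
    Disjoint (Gs k D z H Q x) (Gs k D z H Q y) := fun x hx y hy hxy =>
  Finset.disjoint_of_subset_left (s.h.Gs_sub_Ds x)
    (Finset.disjoint_of_subset_right (s.h.Gs_sub_Ds y) (s.hC2 x hx y hy hxy))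

lemma Deq (s : St k D T A z C2 η H Q C ρ) {x y u : V} (hx : x ∈ C) (hy : y ∈ C)
    (hux : u ∈ Ds k D H Q x) (huy : u ∈ Ds k D H Q y) : x = y := by
  by_contra hne
  exact Finset.disjoint_left.1 (s.hC2 x hx y hy hne) hux huy

lemma rhoQ (s : St k D T A z C2 η H Q C ρ) : ∀ v ∈ Q, ρ v ∈ Q := by
  intro v hv
  by_cases h : ∃ x ∈ C, v ∈ Gs k D z H Q x
  · obtain ⟨x, hx, hvx⟩ := h
    exact s.h.Gs_sub_Q x (s.q.stab x hx v hvx)
  · push Not at h
    rw [s.q.fix v h]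
    exact hv

lemma Rp_not (s : St k D T A z C2 η H Q C ρ) {x u : V} (hx : x ∈ C)
    (hu : u ∈ Rp k D z H Q x) : ∀ y ∈ C, u ∉ Gs k D z H Q y := by
  intro y hy huy
  rw [s.mem_Rp] at hu
  have := s.Deq hx hy hu.1 (s.h.Gs_sub_Ds y huy)
  rw [← this] at huy
  exact hu.2 huy

lemma Op_not (s : St k D T A z C2 η H Q C ρ) {u : V}
    (hu : u ∈ Op k D H Q C) : ∀ y ∈ C, u ∉ Gs k D z H Q y := by
  intro y hy huy
  rw [s.mem_Op] at hu
  exact hu.2 y hy (s.h.Gs_sub_Ds y huy)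

/-- The fibre of a vertex of a cluster. -/
lemma fib (s : St k D T A z C2 η H Q C ρ) {x u v : V} (hx : x ∈ C)
    (hu : u ∈ Gs k D z H Q x) (hv : ρ v = u) : v ∈ Gs k D z H Q x :=
  s.q.mem_of_rho s.Gdis hx (hv ▸ hu)

/-- `ρ` maps the cluster to the contracted cluster. -/
lemma maps (s : St k D T A z C2 η H Q C ρ) {x v : V} (hx : x ∈ C)
    (hv : v ∈ Gs k D z H Q x) : ρ v ∈ Gp k D z H Q ρ x :=
  s.mem_Gp.2 ⟨s.q.stab x hx v hv, s.q.idem v⟩

/-- Degree of a vertex outside the clusters. -/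
lemma single (s : St k D T A z C2 η H Q C ρ) {v : V}
    (hv : ∀ x ∈ C, v ∉ Gs k D z H Q x) (S : Finset V) :
    dg (Hq k D z H Q C ρ) S v ≤ (nbr H Q v ∩ Q.filter fun w => ρ w ∈ S).card := by
  refine (s.q.dg_le S v (fun u' _ _ x hx hvx => absurd hvx (hv x hx))).trans ?_
  calc ∑ v' ∈ Q.filter (fun v' => ρ v' = v), (nbr H Q v' ∩ Q.filter fun w => ρ w ∈ S).card
      ≤ ∑ v' ∈ {v}, (nbr H Q v' ∩ Q.filter fun w => ρ w ∈ S).card := by
        apply Finset.sum_le_sum_of_subset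
        intro v' hv'
        rw [Finset.mem_filter] at hv'
        rw [Finset.mem_singleton]
        exact s.q.eq_of_rho hv hv'.2
    _ = _ := Finset.sum_singleton _ _

lemma hS_out (s : St k D T A z C2 η H Q C ρ) {x u : V} (hx : x ∈ C)
    (hu : u ∈ Gs k D z H Q x) (S : Finset V) (hS : ∀ u' ∈ S, u' ∉ Gp k D z H Q ρ x) :
    ∀ u' ∈ S, (Hq k D z H Q C ρ).Adj u u' → ∀ y ∈ C, u ∈ Gs k D z H Q y →
      u' ∉ Gs k D z H Q y := by
  intro u' hu' hadj y hy huy hcon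
  have hxy := s.Deq hx hy (s.h.Gs_sub_Ds x hu) (s.h.Gs_sub_Ds y huy)
  subst hxy
  exact hS u' hu' (s.mem_Gp.2 ⟨hcon, hadj.2.2.1.2⟩)

/-- External degree. -/
lemma ext (s : St k D T A z C2 η H Q C ρ) {x u : V} (hx : x ∈ C)
    (hu : u ∈ Gp k D z H Q ρ x) :
    (dg (Hq k D z H Q C ρ) (Finset.univ \ Gp k D z H Q ρ x) u : ℝ) ≤ 4 * (z * k * D) := by
  have hu' := s.mem_Gp.1 hu
  have h1 := s.q.dg_le (Finset.univ \ Gp k D z H Q ρ x) u (s.hS_out hx hu'.1 _
    (fun u' h => (Finset.mem_sdiff.1 h).2))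
  have h2 : ((∑ v ∈ Q.filter (fun v => ρ v = u), (nbr H Q v ∩ Q.filter fun w =>
      ρ w ∈ Finset.univ \ Gp k D z H Q ρ x).card : ℕ) : ℝ) ≤
      ∑ _v ∈ Q.filter (fun v => ρ v = u), 2 * (z * k * D) := by
    push_cast
    apply Finset.sum_le_sum
    intro v hv
    rw [Finset.mem_filter] at hv
    have hvG := s.fib hx hu'.1 hv.2
    refine le_trans ?_ (s.h.Gs_ext (s.hC1 x hx) hvG)
    have h3 : (nbr H Q v ∩ Q.filter fun w => ρ w ∈ Finset.univ \ Gp k D z H Q ρ x) ⊆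
        nbr H Q v \ Gs k D z H Q x := by
      intro w hw
      rw [Finset.mem_inter, Finset.mem_filter, Finset.mem_sdiff] at hw
      rw [Finset.mem_sdiff]
      exact ⟨hw.1, fun hcon => hw.2.2.2 (s.maps hx hcon)⟩
    exact_mod_cast Finset.card_le_card h3
  rw [Finset.sum_const, nsmul_eq_mul] at h2
  have h3 : (((Q.filter (fun v => ρ v = u)).card : ℕ) : ℝ) ≤ 2 := by
    exact_mod_cast s.q.fiber_card Q u
  have h4 : 0 ≤ z * k * D := by
    have := s.h.hz
    have := s.h.kD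
    rw [mul_assoc]
    positivity
  have h5 : (dg (Hq k D z H Q C ρ) (Finset.univ \ Gp k D z H Q ρ x) u : ℝ) ≤
      ((∑ v ∈ Q.filter (fun v => ρ v = u), (nbr H Q v ∩ Q.filter fun w =>
      ρ w ∈ Finset.univ \ Gp k D z H Q ρ x).card : ℕ) : ℝ) := by exact_mod_cast h1
  nlinarith

/-- Total external degree. -/
lemma tot (s : St k D T A z C2 η H Q C ρ) {x : V} (hx : x ∈ C) :
    ∑ u ∈ Gp k D z H Q ρ x, (dg (Hq k D z H Q C ρ)
      (Finset.univ \ (Gp k D z H Q ρ x ∪ Rp k D z H Q x)) u : ℝ) ≤ 20 * A * k * D ^ 2 := by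
  refine le_trans ?_ (s.h.tot_ext (s.hC1 x hx))
  have h1 : ∀ u ∈ Gp k D z H Q ρ x, (dg (Hq k D z H Q C ρ)
      (Finset.univ \ (Gp k D z H Q ρ x ∪ Rp k D z H Q x)) u : ℝ) ≤
      ∑ v ∈ (Gs k D z H Q x).filter (fun v => ρ v = u), ((nbr H Q v \ Ds k D H Q x).card : ℝ) := by
    intro u hu
    have hu' := s.mem_Gp.1 hu
    have h2 := s.q.dg_le (Finset.univ \ (Gp k D z H Q ρ x ∪ Rp k D z H Q x)) u
      (s.hS_out hx hu'.1 _ (fun u' h hcon => (Finset.mem_sdiff.1 h).2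
        (Finset.mem_union_left _ hcon)))
    have h3 : ∑ v ∈ Q.filter (fun v => ρ v = u), (nbr H Q v ∩ Q.filter fun w =>
      ρ w ∈ Finset.univ \ (Gp k D z H Q ρ x ∪ Rp k D z H Q x)).card ≤
      ∑ v ∈ (Gs k D z H Q x).filter (fun v => ρ v = u), (nbr H Q v \ Ds k D H Q x).card := by
      have h4 : Q.filter (fun v => ρ v = u) ⊆ (Gs k D z H Q x).filter (fun v => ρ v = u) := by
        intro v hv
        rw [Finset.mem_filter] at hv ⊢
        exact ⟨s.fib hx hu'.1 hv.2, hv.2⟩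
      refine (Finset.sum_le_sum fun v _ => ?_).trans (Finset.sum_le_sum_of_subset h4)
      apply Finset.card_le_card
      intro w hw
      rw [Finset.mem_inter, Finset.mem_filter, Finset.mem_sdiff, Finset.mem_union] at hw
      rw [Finset.mem_sdiff]
      refine ⟨hw.1, fun hcon => hw.2.2.2 ?_⟩
      by_cases hwG : w ∈ Gs k D z H Q x
      · exact Or.inl (s.maps hx hwG)
      · right
        have hwR : w ∈ Rp k D z H Q x := s.mem_Rp.2 ⟨hcon, hwG⟩
        rw [s.q.fix w (s.Rp_not hx hwR)]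
        exact hwR
    exact_mod_cast h2.trans h3
  refine (Finset.sum_le_sum h1).trans (le_of_eq ?_)
  exact Finset.sum_fiberwise_of_maps_to (fun v hv => s.maps hx hv) _

lemma card_Gp_add (_s : St k D T A z C2 η H Q C ρ) (x : V) :
    ((Gp k D z H Q ρ x).card : ℝ) + ((Gs k D z H Q x).filter fun u => ρ u ≠ u).card =
      (Gs k D z H Q x).card := by
  rw [Gp]
  exact_mod_cast Finset.card_filter_add_card_filter_not (s := Gs k D z H Q x) (fun u => ρ u = u)

lemma card_ge (s : St k D T A z C2 η H Q C ρ) {x : V} (hx : x ∈ C) :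
    (k : ℝ) * D ≤ (Gp k D z H Q ρ x).card := by
  have h1 := s.card_Gp_add x
  have h2 := s.m2 x hx
  have h3 := s.h.le_Gs_card (s.hC1 x hx)
  have h4 := s.h.BkD
  have h5 := s.h.D0
  have h6 := s.h.kpos
  have h7 := s.h.A4
  nlinarith

lemma card_le (s : St k D T A z C2 η H Q C ρ) {x : V} (hx : x ∈ C) :
    ((Gp k D z H Q ρ x).card : ℝ) ≤ (2 * k - 1 + A) * D := by
  refine le_trans ?_ (s.h.Gs_card_le (s.hC1 x hx))
  exact_mod_cast Finset.card_le_card (Finset.filter_subset _ _)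

lemma zk (s : St k D T A z C2 η H Q C ρ) : z * k * D ≤ 1 / 400 * (k * D) := by
  rw [mul_assoc]
  exact mul_le_mul_of_nonneg_right s.h.hz1 s.h.kD.le

/-- Non units are isolated. -/
lemma iso (_s : St k D T A z C2 η H Q C ρ) {v : V} (hv : ¬ (v ∈ Q ∧ ρ v = v)) (S : Finset V) :
    dg (Hq k D z H Q C ρ) S v = 0 := by
  rw [dg_eq, Finset.card_eq_zero, Finset.eq_empty_iff_forall_notMem]
  intro u hu
  exact hv ((mem_nbr _).1 hu).2.2.1

/-- Vertices outside see a bounded fraction of the cluster. -/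
lemma far (s : St k D T A z C2 η H Q C ρ) {x w : V} (hx : x ∈ C)
    (hw : w ∉ Gp k D z H Q ρ x) (hwR : w ∉ Rp k D z H Q x) :
    (dg (Hq k D z H Q C ρ) (Gp k D z H Q ρ x) w : ℝ) ≤
      (1 - 1 / 48) * (Gp k D z H Q ρ x).card := by
  have hcg := s.card_ge hx
  have hkD := s.h.kD
  by_cases hun : w ∈ Q ∧ ρ w = w
  swap
  · rw [s.iso hun, Nat.cast_zero]
    linarith
  by_cases hin : ∃ y ∈ C, w ∈ Gs k D z H Q y
  · obtain ⟨y, hy, hwy⟩ := hin
    have hne : y ≠ x := by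
      rintro rfl
      exact hw (s.mem_Gp.2 ⟨hwy, hun.2⟩)
    have h1 := s.ext hy (s.mem_Gp.2 ⟨hwy, hun.2⟩)
    have h2 : (dg (Hq k D z H Q C ρ) (Gp k D z H Q ρ x) w : ℝ) ≤
        dg (Hq k D z H Q C ρ) (Finset.univ \ Gp k D z H Q ρ y) w := by
      have : Gp k D z H Q ρ x ⊆ Finset.univ \ Gp k D z H Q ρ y := by
        intro u hu
        rw [Finset.mem_sdiff]
        refine ⟨Finset.mem_univ _, fun hcon => ?_⟩
        exact Finset.disjoint_left.1 (s.Gdis y hy x hx hne) (s.mem_Gp.1 hcon).1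
          (s.mem_Gp.1 hu).1
      exact_mod_cast dg_mono _ this w
    have h3 := s.zk
    linarith
  · push Not at hin
    have hwD : w ∉ Ds k D H Q x := by
      intro hcon
      exact hwR (s.mem_Rp.2 ⟨hcon, hin x hx⟩)
    have h1 := s.h.far_mis (s.hC1 x hx) hun.1 hwD
    set B := (Gs k D z H Q x).filter fun u => ρ u ≠ u with hB
    set Y := (Gs k D z H Q x \ nbr H Q w) \ (B ∪ B.image ρ) with hY
    have hYc : ((Gs k D z H Q x \ nbr H Q w).card : ℝ) ≤ Y.card + (B.card + B.card) := by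
      have h2 : Gs k D z H Q x \ nbr H Q w ⊆ Y ∪ (B ∪ B.image ρ) := by
        intro a ha
        rw [Finset.mem_union, hY, Finset.mem_sdiff]
        by_cases h3 : a ∈ B ∪ B.image ρ
        · exact Or.inr h3
        · exact Or.inl ⟨ha, h3⟩
      have h3 := (Finset.card_le_card h2).trans ((Finset.card_union_le _ _).trans
        (Nat.add_le_add_left ((Finset.card_union_le _ _).trans
          (Nat.add_le_add_left Finset.card_image_le _)) _))
      exact_mod_cast h3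
    have hYG : Y ⊆ Gp k D z H Q ρ x := by
      intro a ha
      rw [hY, Finset.mem_sdiff, Finset.mem_sdiff] at ha
      refine s.mem_Gp.2 ⟨ha.1.1, ?_⟩
      by_contra hcon
      exact ha.2 (Finset.mem_union_left _ (Finset.mem_filter.2 ⟨ha.1.1, hcon⟩))
    have hYd : Disjoint (nbr (Hq k D z H Q C ρ) (Gp k D z H Q ρ x) w) Y := by
      rw [Finset.disjoint_left]
      intro u hu huY
      rw [mem_nbr] at hu
      obtain ⟨hu1, -, -, -, h2 | ⟨y, hy, h3, -⟩⟩ := hu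
      · obtain ⟨v, hv, v', hv', h3, h4, h5⟩ := h2
        have hvw := s.q.eq_of_rho hin h3
        subst hvw
        rw [hY, Finset.mem_sdiff, Finset.mem_sdiff] at huY
        by_cases h6 : v' = u
        · subst h6
          exact huY.1.2 ((mem_nbr H).2 ⟨hv', h5⟩)
        · apply huY.2
          apply Finset.mem_union_right
          rw [Finset.mem_image]
          refine ⟨v', Finset.mem_filter.2 ⟨s.fib hx huY.1.1 h4, ?_⟩, h4⟩
          rw [h4]
          exact fun h => h6 h.symm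
      · exact hin y hy h3
    have h3 : (dg (Hq k D z H Q C ρ) (Gp k D z H Q ρ x) w : ℝ) + Y.card ≤
        (Gp k D z H Q ρ x).card := by
      rw [dg_eq]
      have h4 := Finset.card_union_of_disjoint hYd
      have h5 : nbr (Hq k D z H Q C ρ) (Gp k D z H Q ρ x) w ∪ Y ⊆ Gp k D z H Q ρ x :=
        Finset.union_subset (Finset.filter_subset _ _) hYG
      have h6 := Finset.card_le_card h5
      rw [h4] at h6
      exact_mod_cast h6
    have h4 := s.m2 x hx
    have h5 := s.card_le hx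
    have h6 := s.h.BkD
    have h7 := s.h.D0
    have h8 := s.h.A4
    have h9 := s.h.Az
    have h10 : 400 * A * D ≤ A / z * D := mul_le_mul_of_nonneg_right h9 h7.le
    have h11 : 0 ≤ A * D := by positivity
    rw [← hB] at h4
    nlinarith

lemma Rg_fix (s : St k D T A z C2 η H Q C ρ) {w : V} (hw : w ∈ C.biUnion (Rp k D z H Q)) :
    ρ w = w := by
  rw [Finset.mem_biUnion] at hw
  obtain ⟨x, hx, hwx⟩ := hw
  exact s.q.fix w (s.Rp_not hx hwx)

lemma Rg_rho (s : St k D T A z C2 η H Q C ρ) {w : V}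
    (hw : ρ w ∈ C.biUnion (Rp k D z H Q)) : w ∈ C.biUnion (Rp k D z H Q) := by
  have hw' := hw
  rw [Finset.mem_biUnion] at hw
  obtain ⟨x, hx, hwx⟩ := hw
  rw [s.q.eq_of_rho (s.Rp_not hx hwx) rfl]
  exact hw'

/-- Degrees of the vertices outside the clusters. -/
lemma degO (s : St k D T A z C2 η H Q C ρ) {v : V} (hv : v ∈ Q)
    (hv' : ∀ x ∈ C, v ∉ Gs k D z H Q x) (S : Finset V) :
    (dg (Hq k D z H Q C ρ) S v : ℝ) ≤ (2 * k - 1) * D := by
  refine le_trans ?_ (s.h.hi' hv)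
  have h1 := (s.single hv' S).trans (Finset.card_le_card Finset.inter_subset_left)
  exact_mod_cast h1

lemma deg (s : St k D T A z C2 η H Q C ρ) (v : V) :
    (dg (Hq k D z H Q C ρ) Finset.univ v : ℝ) ≤ 3 * k * D := by
  have hkD := s.h.kD
  have hD := s.h.D0
  by_cases hun : v ∈ Q ∧ ρ v = v
  swap
  · rw [s.iso hun, Nat.cast_zero]
    linarith
  by_cases hin : ∃ y ∈ C, v ∈ Gs k D z H Q y
  · obtain ⟨y, hy, hvy⟩ := hin
    have h1 := s.ext hy (s.mem_Gp.2 ⟨hvy, hun.2⟩)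
    have h2 := s.card_le hy
    have h3 : dg (Hq k D z H Q C ρ) Finset.univ v ≤ (Gp k D z H Q ρ y).card +
        dg (Hq k D z H Q C ρ) (Finset.univ \ Gp k D z H Q ρ y) v := by
      rw [dg_eq, dg_eq]
      refine (Finset.card_le_card ?_).trans (Finset.card_union_le _ _)
      intro u hu
      rw [mem_nbr] at hu
      rw [Finset.mem_union, mem_nbr, Finset.mem_sdiff]
      by_cases h4 : u ∈ Gp k D z H Q ρ y
      · exact Or.inl h4
      · exact Or.inr ⟨⟨Finset.mem_univ _, h4⟩, hu.2⟩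
    have h4 : (dg (Hq k D z H Q C ρ) Finset.univ v : ℝ) ≤ (Gp k D z H Q ρ y).card +
        dg (Hq k D z H Q C ρ) (Finset.univ \ Gp k D z H Q ρ y) v := by exact_mod_cast h3
    have h5 := s.zk
    have h6 := s.h.BkD
    have h7 := s.h.A4
    have h8 := s.h.Az
    have h9 : 400 * A * D ≤ A / z * D := mul_le_mul_of_nonneg_right h8 hD.le
    nlinarith
  · push Not at hin
    have h1 := s.degO hun.1 hin Finset.univ
    nlinarith

/-- Rigid vertices see many vertices of the cluster. -/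
lemma rig1 (s : St k D T A z C2 η H Q C ρ) {x v : V} (hx : x ∈ C)
    (hv : v ∈ Rp k D z H Q x) :
    (k : ℝ) * D / 2 ≤ dg (Hq k D z H Q C ρ) (Gp k D z H Q ρ x) v := by
  have hv' := s.mem_Rp.1 hv
  have h1 := s.h.Ds_inter (s.hC1 x hx) hv'.1
  have h2 := s.q.le_dg s.rhoQ (Gp k D z H Q ρ x) v (s.h.Ds_sub_Q x hv'.1)
    (s.q.fix v (s.Rp_not hx hv))
  have h3 : (nbr H Q v ∩ Gs k D z H Q x).card ≤
      (nbr H Q v ∩ Q.filter fun w => ρ w ∈ Gp k D z H Q ρ x).card := by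
    apply Finset.card_le_card
    intro w hw
    rw [Finset.mem_inter] at hw ⊢
    exact ⟨hw.1, Finset.mem_filter.2 ⟨s.h.Gs_sub_Q x hw.2, s.maps hx hw.2⟩⟩
  have h4 : ((nbr H Q v ∩ Gs k D z H Q x).card : ℝ) ≤
      2 * dg (Hq k D z H Q C ρ) (Gp k D z H Q ρ x) v := by exact_mod_cast h3.trans h2
  have h5 := s.h.BkD
  have h6 := s.h.D0
  have h7 := s.h.kpos
  have h8 := s.h.A4
  nlinarith

/-- Rigid vertices see many vertices outside. -/
lemma rig2 (s : St k D T A z C2 η H Q C ρ) {x v : V} (hx : x ∈ C)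
    (hv : v ∈ Rp k D z H Q x) :
    z * k * D / 4 ≤ dg (Hq k D z H Q C ρ)
      (Finset.univ \ (Gp k D z H Q ρ x ∪ Rp k D z H Q x)) v := by
  have hv' := s.mem_Rp.1 hv
  have hvQ := s.h.Ds_sub_Q x hv'.1
  have h1 := s.h.ext_Ds (s.hC1 x hx) hvQ
  have h2 := s.q.le_dg s.rhoQ (Finset.univ \ (Gp k D z H Q ρ x ∪ Rp k D z H Q x)) v hvQ
    (s.q.fix v (s.Rp_not hx hv))
  have h3 : (nbr H Q v \ Ds k D H Q x).card ≤ (nbr H Q v ∩ Q.filter fun w =>
      ρ w ∈ Finset.univ \ (Gp k D z H Q ρ x ∪ Rp k D z H Q x)).card := by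
    apply Finset.card_le_card
    intro w hw
    rw [Finset.mem_sdiff] at hw
    rw [Finset.mem_inter, Finset.mem_filter, Finset.mem_sdiff, Finset.mem_union]
    refine ⟨hw.1, ((mem_nbr H).1 hw.1).1, Finset.mem_univ _, ?_⟩
    rintro (h4 | h4)
    · exact hw.2 (s.h.Gs_sub_Ds x (s.fib hx (s.mem_Gp.1 h4).1 rfl))
    · have h5 := s.q.eq_of_rho (s.Rp_not hx h4) rfl
      rw [← h5] at h4
      exact hw.2 (s.mem_Rp.1 h4).1
  have h4 : ((nbr H Q v \ Ds k D H Q x).card : ℝ) ≤ 2 * dg (Hq k D z H Q C ρ)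
      (Finset.univ \ (Gp k D z H Q ρ x ∪ Rp k D z H Q x)) v := by exact_mod_cast h3.trans h2
  have h5 : z * k * D < ms H Q x v := by
    by_contra hcon
    exact hv'.2 (s.h.mem_Gs.2 ⟨hvQ, not_lt.1 hcon⟩)
  have h6 := s.h.zkD
  have h7 := s.h.D0
  have h8 := s.h.A4
  have h9 := s.h.Az
  have h10 : 400 * A * D ≤ A / z * D := mul_le_mul_of_nonneg_right h9 h7.le
  nlinarith

end St

end Pool.Agent.Helper48.LK
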