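import Pool.Agent.Helper48.LK.T5e

/-!
# T5f. Sparse vertices remain sparse after the contraction
-/

set_option autoImplicit false
set_option linter.unusedSectionVars false

namespace Pool.Agent.Helper48.LK

open Pool.Agent.Helper32.Sq

variable {V : Type} [Fintype V] [DecidableEq V] {H : SimpleGraph V} [DecidableRel H.Adj]
variable {Q C : Finset V} {k D T : ℕ} {A z C2 η : ℝ} {ρ : V → V}

/-- Removing a set from the vertex set of the pairs. -/
lemma nad_union (H : SimpleGraph V) [DecidableRel H.Adj] (N X : Finset V) :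
    nad H N ≤ nad H (N \ X) + 2 * (N ∩ X).card * N.card := by
  unfold nad
  have h1 : ((N ×ˢ N).filter fun p : V × V => p.1 ≠ p.2 ∧ ¬ H.Adj p.1 p.2) ⊆
      (((N \ X) ×ˢ (N \ X)).filter fun p : V × V => p.1 ≠ p.2 ∧ ¬ H.Adj p.1 p.2) ∪
        ((N ∩ X) ×ˢ N ∪ N ×ˢ (N ∩ X)) := by
    intro p hp
    simp only [Finset.mem_filter, Finset.mem_product, Finset.mem_union, Finset.mem_sdiff,
      Finset.mem_inter] at hp ⊢
    tauto
  refine (Finset.card_le_card h1).trans ((Finset.card_union_le _ _).trans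
    (Nat.add_le_add_left ((Finset.card_union_le _ _).trans ?_) _))
  rw [Finset.card_product, Finset.card_product]
  apply le_of_eq
  ring

namespace St

/-- The sparse vertices. -/
lemma sparse (s : St k D T A z C2 η H Q C ρ) {C5 : ℝ} (hC5 : 1 ≤ C5)
    (hC2' : C2 = 9 * C5 + 2) (k3 : 64 * (20 * A + C5) ≤ (k : ℝ)) {v : V}
    (hv : v ∈ Op k D H Q C) :
    (D : ℝ) ≤ dg (Hq k D z H Q C ρ) (C.biUnion (Rp k D z H Q)) v ∨
      C5 * k * D ^ 2 ≤ (nad (Hq k D z H Q C ρ)
        (nbr (Hq k D z H Q C ρ) (Finset.univ \ C.biUnion (Rp k D z H Q)) v) : ℝ) := by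
  classical
  set H' := Hq k D z H Q C ρ with hH'
  set Rg := C.biUnion (Rp k D z H Q) with hRg
  set U := nbr H' (Finset.univ \ Rg) v with hU
  rcases le_or_gt (D : ℝ) (dg H' Rg v) with hb | hb
  · exact Or.inl hb
  right
  have hkD := s.h.kD
  have hD := s.h.D0
  have hk := s.h.kpos
  have hBk := s.h.BkD
  have hA := s.h.A4
  have hAz := s.h.Az
  have hAzD : 400 * A * D ≤ A / z * D := mul_le_mul_of_nonneg_right hAz hD.le
  have hAD : 0 < A * D := by positivity
  have hkk : (1000000 : ℝ) * D ≤ k * D := mul_le_mul_of_nonneg_right hk hD.le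
  have hvG := s.Op_not hv
  have hv' := s.mem_Op.1 hv
  have hfix := s.q.fix v hvG
  have hvN : v ∉ Ds k D H Q v ∨ True := Or.inr trivial
  -- `v` is not dense
  have hnd : 2 * C2 * k * D ^ 2 ≤ (nad H (nbr H Q v) : ℝ) := by
    by_contra hcon
    push Not at hcon
    obtain ⟨y, hy, hvy⟩ := s.hC3 v ⟨hv'.1, hcon⟩
    exact hvG y hy hvy
  -- adjacency of singles
  have hadj : ∀ w, w ∈ nbr H Q v → ρ w = w → H'.Adj v w := by
    intro w hw hρw
    rw [mem_nbr] at hw
    have := s.q.adj_image s.rhoQ hv'.1 hw.1 hw.2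
    rwa [hfix, hρw] at this
  have hbR : ((nbr H Q v ∩ Rg).card : ℝ) ≤ dg H' Rg v := by
    rw [dg_eq]
    have : nbr H Q v ∩ Rg ⊆ nbr H' Rg v := by
      intro w hw
      rw [Finset.mem_inter] at hw
      exact (mem_nbr H').2 ⟨hw.2, hadj w hw.1 (s.Rg_fix hw.2)⟩
    exact_mod_cast Finset.card_le_card this
  by_cases hc2 : ∃ x ∈ C, (k : ℝ) * D / 4 ≤ dg H' (Gp k D z H Q ρ x) v
  · -- many neighbours in one cluster
    obtain ⟨x, hx, hx4⟩ := hc2
    set P := nbr H' (Gp k D z H Q ρ x) v with hP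
    set S := nbr H' (Finset.univ \ (Gp k D z H Q ρ x ∪ Rg)) v with hS
    have hRG : Disjoint (Gp k D z H Q ρ x) Rg := by
      rw [Finset.disjoint_left]
      intro a ha haR
      rw [hRg, Finset.mem_biUnion] at haR
      obtain ⟨y, hy, hay⟩ := haR
      exact s.Rp_not hy hay x hx (s.mem_Gp.1 ha).1
    have hPU : P ⊆ U := by
      intro a ha
      rw [hP, mem_nbr] at ha
      rw [hU, mem_nbr, Finset.mem_sdiff]
      exact ⟨⟨Finset.mem_univ _, Finset.disjoint_left.1 hRG ha.1⟩, ha.2⟩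
    have hSU : S ⊆ U := by
      intro a ha
      rw [hS, mem_nbr, Finset.mem_sdiff, Finset.mem_union] at ha
      rw [hU, mem_nbr, Finset.mem_sdiff]
      exact ⟨⟨Finset.mem_univ _, fun h => ha.1.2 (Or.inr h)⟩, ha.2⟩
    have hPS : Disjoint P S := by
      rw [Finset.disjoint_left]
      intro a ha haS
      rw [hP, mem_nbr] at ha
      rw [hS, mem_nbr, Finset.mem_sdiff, Finset.mem_union] at haS
      exact haS.1.2 (Or.inl ha.1)
    have h1 := prod_le_nad H' U P S hPU hSU hPS
    have h2 : ∑ a ∈ P, dg H' S a ≤ ∑ u ∈ Gp k D z H Q ρ x, dg H'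
        (Finset.univ \ (Gp k D z H Q ρ x ∪ Rp k D z H Q x)) u := by
      refine (Finset.sum_le_sum fun a _ => ?_).trans
        (Finset.sum_le_sum_of_subset (Finset.filter_subset _ _))
      apply dg_mono
      intro b hbS
      rw [hS, mem_nbr, Finset.mem_sdiff, Finset.mem_union] at hbS
      rw [Finset.mem_sdiff, Finset.mem_union]
      refine ⟨Finset.mem_univ _, ?_⟩
      rintro (h | h)
      · exact hbS.1.2 (Or.inl h)
      · exact hbS.1.2 (Or.inr (Finset.mem_biUnion.2 ⟨x, hx, h⟩))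
    have h3 := s.tot hx
    have h4 : ((P.card : ℝ)) * S.card ≤ nad H' U + 20 * A * k * D ^ 2 := by
      have h5 : ((P.card : ℝ)) * S.card ≤ nad H' U + ∑ u ∈ Gp k D z H Q ρ x, (dg H'
        (Finset.univ \ (Gp k D z H Q ρ x ∪ Rp k D z H Q x)) u : ℝ) := by
        exact_mod_cast h1.trans (Nat.add_le_add_left h2 _)
      exact h5.trans (by linarith)
    -- lower bound for `S`
    have h5 := s.q.le_dg s.rhoQ (Finset.univ \ (Gp k D z H Q ρ x ∪ Rg)) v hv'.1 hfix
    have h6 : nbr H Q v \ Ds k D H Q x ⊆ (nbr H Q v ∩ Q.filter fun w =>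
        ρ w ∈ Finset.univ \ (Gp k D z H Q ρ x ∪ Rg)) ∪ (nbr H Q v ∩ Rg) := by
      intro w hw
      rw [Finset.mem_sdiff] at hw
      rw [Finset.mem_union, Finset.mem_inter, Finset.mem_inter, Finset.mem_filter,
        Finset.mem_sdiff, Finset.mem_union]
      by_cases hwR : w ∈ Rg
      · exact Or.inr ⟨hw.1, hwR⟩
      · left
        refine ⟨hw.1, ((mem_nbr H).1 hw.1).1, Finset.mem_univ _, ?_⟩
        rintro (h7 | h7)
        · exact hw.2 (s.h.Gs_sub_Ds x (s.fib hx (s.mem_Gp.1 h7).1 rfl))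
        · exact hwR (s.Rg_rho h7)
    have h7 : ((nbr H Q v \ Ds k D H Q x).card : ℝ) ≤ 2 * (S.card : ℝ) +
        (nbr H Q v ∩ Rg).card := by
      have h8 := (Finset.card_le_card h6).trans ((Finset.card_union_le _ _).trans
        (Nat.add_le_add_right h5 _))
      exact_mod_cast h8
    have h8 := s.h.ext_Ds (s.hC1 x hx) hv'.1
    have h9 : (k : ℝ) * D / 4 < ms H Q x v := by
      by_contra hcon
      exact hv'.2 x hx (s.h.mem_Ds.2 ⟨hv'.1, not_lt.1 hcon⟩)
    have h10 : (k : ℝ) * D / 16 ≤ S.card := by nlinarith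
    have h11 : ((k : ℝ) * D / 4) * (k * D / 16) ≤ (P.card : ℝ) * S.card :=
      mul_le_mul hx4 h10 (by positivity) (by positivity)
    have h12 : 64 * (20 * A + C5) * (k * D ^ 2) ≤ (k : ℝ) * (k * D ^ 2) :=
      mul_le_mul_of_nonneg_right k3 (by positivity)
    nlinarith
  · push Not at hc2
    by_cases hc3 : 2 * C5 * D ≤ (dg H' (C.biUnion (Gp k D z H Q ρ)) v : ℝ)
    · -- many neighbours in clusters
      set P := nbr H' (C.biUnion (Gp k D z H Q ρ)) v with hP
      have hPU : P ⊆ U := by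
        intro a ha
        rw [hP, mem_nbr, Finset.mem_biUnion] at ha
        obtain ⟨⟨x, hx, hax⟩, h1⟩ := ha
        rw [hU, mem_nbr, Finset.mem_sdiff]
        refine ⟨⟨Finset.mem_univ _, fun haR => ?_⟩, h1⟩
        rw [hRg, Finset.mem_biUnion] at haR
        obtain ⟨y, hy, hay⟩ := haR
        exact s.Rp_not hy hay x hx (s.mem_Gp.1 hax).1
      have h1 := sum_le_nad H' U P hPU
      have h5 := s.q.le_dg s.rhoQ (Finset.univ \ Rg) v hv'.1 hfix
      have h6 : nbr H Q v ⊆ (nbr H Q v ∩ Q.filter fun w => ρ w ∈ Finset.univ \ Rg) ∪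
          (nbr H Q v ∩ Rg) := by
        intro w hw
        rw [Finset.mem_union, Finset.mem_inter, Finset.mem_inter, Finset.mem_filter,
          Finset.mem_sdiff]
        by_cases hwR : w ∈ Rg
        · exact Or.inr ⟨hw, hwR⟩
        · left
          exact ⟨hw, ((mem_nbr H).1 hw).1, Finset.mem_univ _, fun h7 => hwR (s.Rg_rho h7)⟩
      have h7 : ((nbr H Q v).card : ℝ) ≤ 2 * (U.card : ℝ) + (nbr H Q v ∩ Rg).card := by
        have h8 := (Finset.card_le_card h6).trans ((Finset.card_union_le _ _).trans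
          (Nat.add_le_add_right h5 _))
        exact_mod_cast h8
      have h8 := s.h.lo' hv'.1
      have h9 : ∀ y ∈ P, (k : ℝ) * D / 2 ≤
          ((U.filter fun b => y ≠ b ∧ ¬ H'.Adj y b).card : ℝ) := by
        intro y hy
        rw [hP, mem_nbr, Finset.mem_biUnion] at hy
        obtain ⟨⟨x, hx, hyx⟩, -⟩ := hy
        have h10 := hc2 x hx
        have h11 := s.ext hx hyx
        have h12 : U ⊆ (U.filter fun b => y ≠ b ∧ ¬ H'.Adj y b) ∪
            (nbr H' (Gp k D z H Q ρ x) v ∪ nbr H' (Finset.univ \ Gp k D z H Q ρ x) y) := by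
          intro b hbU
          rw [Finset.mem_union, Finset.mem_union, Finset.mem_filter]
          by_cases hbG : b ∈ Gp k D z H Q ρ x
          · exact Or.inr (Or.inl ((mem_nbr H').2 ⟨hbG, ((mem_nbr H').1 hbU).2⟩))
          · by_cases hyb : H'.Adj y b
            · exact Or.inr (Or.inr ((mem_nbr H').2
                ⟨Finset.mem_sdiff.2 ⟨Finset.mem_univ _, hbG⟩, hyb⟩))
            · refine Or.inl ⟨hbU, ?_, hyb⟩
              rintro rfl
              exact hbG hyx
        have h13 : (U.card : ℝ) ≤ ((U.filter fun b => y ≠ b ∧ ¬ H'.Adj y b).card : ℝ) +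
            (dg H' (Gp k D z H Q ρ x) v + dg H' (Finset.univ \ Gp k D z H Q ρ x) y) := by
          have h14 := (Finset.card_le_card h12).trans ((Finset.card_union_le _ _).trans
            (Nat.add_le_add_left (Finset.card_union_le _ _) _))
          rw [dg_eq, dg_eq]
          exact_mod_cast h14
        have h14 := s.zk
        nlinarith
      have h10 : (P.card : ℝ) * (k * D / 2) ≤ nad H' U := by
        calc (P.card : ℝ) * (k * D / 2) = ∑ _y ∈ P, ((k : ℝ) * D / 2) := by
              rw [Finset.sum_const, nsmul_eq_mul]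
          _ ≤ ∑ y ∈ P, ((U.filter fun b => y ≠ b ∧ ¬ H'.Adj y b).card : ℝ) :=
              Finset.sum_le_sum h9
          _ ≤ _ := by exact_mod_cast h1
      rw [dg_eq] at hc3
      have h11 : 2 * C5 * D * (k * D / 2) ≤ (P.card : ℝ) * (k * D / 2) :=
        mul_le_mul_of_nonneg_right hc3 (by positivity)
      nlinarith
    · -- few neighbours in clusters
      push Not at hc3
      set X := C.biUnion (Gs k D z H Q) ∪ Rg with hX
      have h1 : nbr H Q v \ X ⊆ U := by
        intro w hw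
        rw [Finset.mem_sdiff, hX, Finset.mem_union, not_or, Finset.mem_biUnion] at hw
        obtain ⟨hw1, hw2, hw3⟩ := hw
        push Not at hw2
        rw [hU, mem_nbr, Finset.mem_sdiff]
        exact ⟨⟨Finset.mem_univ _, hw3⟩, hadj w hw1 (s.q.fix w hw2)⟩
      have h2 : nad H (nbr H Q v \ X) ≤ nad H' U := by
        refine le_trans ?_ (nad_mono H' h1)
        unfold nad
        apply Finset.card_le_card
        intro p hp
        rw [Finset.mem_filter, Finset.mem_product] at hp ⊢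
        refine ⟨hp.1, hp.2.1, fun hcon => hp.2.2 ?_⟩
        have hs : ∀ w ∈ nbr H Q v \ X, ∀ x ∈ C, w ∉ Gs k D z H Q x := by
          intro w hw x hx hwx
          rw [Finset.mem_sdiff, hX, Finset.mem_union, not_or] at hw
          exact hw.2.1 (Finset.mem_biUnion.2 ⟨x, hx, hwx⟩)
        obtain ⟨-, -, -, h3 | ⟨x, hx, h4, -⟩⟩ := hcon
        · obtain ⟨a, ha, b, hb', h4, h5, h6⟩ := h3
          rw [← s.q.eq_of_rho (hs _ hp.1.1) h4, ← s.q.eq_of_rho (hs _ hp.1.2) h5]
          exact h6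
        · exact absurd h4 (hs _ hp.1.1 x hx)
      have h3 := nad_union H (nbr H Q v) X
      have h4 := s.q.le_dg s.rhoQ (C.biUnion (Gp k D z H Q ρ)) v hv'.1 hfix
      have h5 : nbr H Q v ∩ X ⊆ (nbr H Q v ∩ Q.filter fun w =>
          ρ w ∈ C.biUnion (Gp k D z H Q ρ)) ∪ (nbr H Q v ∩ Rg) := by
        intro w hw
        rw [Finset.mem_inter, hX, Finset.mem_union, Finset.mem_biUnion] at hw
        rw [Finset.mem_union, Finset.mem_inter, Finset.mem_inter, Finset.mem_filter,
          Finset.mem_biUnion]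
        rcases hw.2 with ⟨x, hx, hwx⟩ | h6
        · exact Or.inl ⟨hw.1, ((mem_nbr H).1 hw.1).1, x, hx, s.maps hx hwx⟩
        · exact Or.inr ⟨hw.1, h6⟩
      have h6 : ((nbr H Q v ∩ X).card : ℝ) ≤
          2 * (dg H' (C.biUnion (Gp k D z H Q ρ)) v : ℝ) + (nbr H Q v ∩ Rg).card := by
        have h8 := (Finset.card_le_card h5).trans ((Finset.card_union_le _ _).trans
          (Nat.add_le_add_right h4 _))
        exact_mod_cast h8
      have h7 : ((nbr H Q v ∩ X).card : ℝ) ≤ (4 * C5 + 1) * D := by linarith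
      have h8 := s.h.hi' hv'.1
      have h9 : (nad H (nbr H Q v) : ℝ) ≤ nad H (nbr H Q v \ X) +
          2 * (nbr H Q v ∩ X).card * (nbr H Q v).card := by exact_mod_cast h3
      have h10 : (nad H (nbr H Q v \ X) : ℝ) ≤ nad H' U := by exact_mod_cast h2
      have h11 : 2 * ((nbr H Q v ∩ X).card : ℝ) * (nbr H Q v).card ≤
          2 * ((4 * C5 + 1) * D) * (2 * k * D) := by
        apply mul_le_mul (by linarith) (by linarith) (by positivity) (by positivity)
      have h12 : (0 : ℝ) < k * D ^ 2 := by positivity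
      rw [hC2'] at hnd
      nlinarith

end St

/-- The decomposition theorem. -/
theorem decomposition (C5 e : ℝ) (hC5 : 1 ≤ C5) (he : 0 < e) (he1 : e ≤ 1 / 100) :
    ∃ C C1 CR : ℝ, 0 ≤ C ∧ 0 < C1 ∧ 0 < CR ∧ ∀ η : ℝ, 0 < η → η ≤ 1 / 4 →
      ∃ k0 : ℕ, ∀ k : ℕ, k0 ≤ k → ∃ D0 : ℕ, ∀ D : ℕ, D0 ≤ D → ∀ T : ℕ,
        (2 * k - 3 / 2 + η) * D ≤ (T : ℝ) →
        ∀ (V : Type) [Fintype V] [DecidableEq V] (H : SimpleGraph V) [DecidableRel H.Adj]
          (Q : Finset V),
          (∀ v ∈ Q, T ≤ dg H Q v) → (∀ v ∈ Q, (dg H Q v : ℝ) ≤ (2 * k - 1) * D) →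
          (∀ W ⊆ Q, ((W.card : ℝ) ≤ (2 * k + C) * D) →
            ∑ x ∈ W, (dg H W x : ℝ) ≤ (2 * k - 3 / 2 + η / 8) * D * W.card) →
          ∃ (ρ : V → V) (H' : SimpleGraph V) (_ : DecidableRel H'.Adj) (Ct : Finset V)
            (G R : V → Finset V) (O : Finset V),
            (∀ v ∈ Q, ∀ w ∈ Q, H.Adj v w → H'.Adj (ρ v) (ρ w)) ∧
            Dec k D T (η / 2) (1 / 48) e C1 CR C5 (e / 16) H' Ct G R O := by
  set C2 : ℝ := 9 * C5 + 2 with hC2
  set A : ℝ := 2 * C2 + 2 with hA
  set z : ℝ := e / 4 with hz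
  have hC2' : 1 ≤ C2 := by rw [hC2]; linarith
  have hA4 : 4 ≤ A := by rw [hA]; linarith
  have hz0 : 0 < z := by rw [hz]; linarith
  refine ⟨A, 20 * A, A / z + A, by linarith, by linarith, by positivity, ?_⟩
  intro η hη hη1
  refine ⟨⌈2 * (A + 2 * C2) / z ^ 2 + 4 * (A / z + 2 * A + 2) / z + 64 * (20 * A + C5)⌉₊, ?_⟩
  intro k hk
  have hk' : 2 * (A + 2 * C2) / z ^ 2 + 4 * (A / z + 2 * A + 2) / z + 64 * (20 * A + C5) ≤
      (k : ℝ) := (Nat.le_ceil _).trans (by exact_mod_cast hk)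
  have t1 : 0 < 2 * (A + 2 * C2) / z ^ 2 := by positivity
  have t2 : 0 < 4 * (A / z + 2 * A + 2) / z := by positivity
  have t3 : 0 < 64 * (20 * A + C5) := by positivity
  have k1 : 2 * (A + 2 * C2) ≤ z ^ 2 * k := by
    have : 2 * (A + 2 * C2) / z ^ 2 ≤ k := by linarith
    rw [div_le_iff₀ (by positivity)] at this
    linarith
  have k2 : 4 * (A / z + 2 * A + 2) ≤ z * k := by
    have : 4 * (A / z + 2 * A + 2) / z ≤ k := by linarith
    rw [div_le_iff₀ hz0] at this
    linarith
  have k3 : 64 * (20 * A + C5) ≤ (k : ℝ) := by linarith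
  refine ⟨⌈2 + 16 / (3 * η)⌉₊, ?_⟩
  intro D hD T hT V _ _ H _ Q lo hi RL
  classical
  have hD' : 2 + 16 / (3 * η) ≤ (D : ℝ) := (Nat.le_ceil _).trans (by exact_mod_cast hD)
  have hη3 : 0 < 16 / (3 * η) := by positivity
  have hDη : 2 ≤ 3 / 8 * η * D := by
    have h1 : 16 / (3 * η) ≤ (D : ℝ) := by linarith
    rw [div_le_iff₀ (by positivity)] at h1
    linarith
  have hD2 : (2 : ℝ) ≤ D := by linarith
  have hCx : Cx k D T A z C2 H Q :=
    { hA := hA
      hC2 := hC2'
      hz := hz0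
      hz1 := by rw [hz]; linarith
      hD := hD2
      k1 := k1
      k2 := k2
      hT := by
        refine le_trans ?_ hT
        apply mul_le_mul_of_nonneg_right _ (by linarith)
        linarith
      lo := lo
      hi := hi }
  obtain ⟨C, hCa, hCb, hCc⟩ := hCx.exists_centres
  have hGdis : ∀ x ∈ C, ∀ y ∈ C, x ≠ y → Disjoint (Gs k D z H Q x) (Gs k D z H Q y) :=
    fun x hx y hy hxy => Finset.disjoint_of_subset_left (hCx.Gs_sub_Ds x)
      (Finset.disjoint_of_subset_right (hCx.Gs_sub_Ds y) (hCb x hx y hy hxy))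
  have hex : ∀ x ∈ C, ∃ ρ : V → V, Ctr (Gs k D z H Q x) (fun u v => u ≠ v ∧ ¬ H.Adj u v) ρ ∧
      ((((Gs k D z H Q x).filter fun u => ρ u = u).card : ℕ) : ℝ) ≤
        (2 * k - 3 / 2 + η / 8) * D + 2 ∧
      ((((Gs k D z H Q x).filter fun u => ρ u ≠ u).card : ℕ) : ℝ) ≤ (A + 1 / 2) * D :=
    fun x hx => hCx.exists_contr hη.le RL (hCa x hx)
  choose! ρf hρf using hex
  obtain ⟨ρ, hq, hρ⟩ := exists_qt H Q C (Gs k D z H Q) hGdis ρf (fun x hx => (hρf x hx).1)
  have s : St k D T A z C2 η H Q C ρ :=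
    { h := hCx
      hη := hη.le
      hC1 := hCa
      hC2 := hCb
      hC3 := hCc
      q := hq
      m1 := by
        intro x hx
        have h1 := (hρf x hx).2.1
        have h2 : ((Gs k D z H Q x).filter fun u => ρ u = u) =
            (Gs k D z H Q x).filter fun u => ρf x u = u := by
          apply Finset.filter_congr
          intro u hu
          rw [hρ x hx u hu]
        rw [h2]
        exact h1
      m2 := by
        intro x hx
        have h1 := (hρf x hx).2.2
        have h2 : ((Gs k D z H Q x).filter fun u => ρ u ≠ u) =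
            (Gs k D z H Q x).filter fun u => ρf x u ≠ u := by
          apply Finset.filter_congr
          intro u hu
          rw [hρ x hx u hu]
        rw [h2]
        exact h1 }
  have hGD : ∀ x, Gp k D z H Q ρ x ∪ Rp k D z H Q x ⊆ Ds k D H Q x := by
    intro x u hu
    rw [Finset.mem_union] at hu
    rcases hu with hu | hu
    · exact hCx.Gs_sub_Ds x (s.mem_Gp.1 hu).1
    · exact (s.mem_Rp.1 hu).1
  refine ⟨ρ, Hq k D z H Q C ρ, inferInstance, C, Gp k D z H Q ρ, Rp k D z H Q,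
    Op k D H Q C, fun v hv w hw hvw => hq.adj_image s.rhoQ hv hw hvw, ?_⟩
  exact
    { disj := fun x hx y hy hxy => Finset.disjoint_of_subset_left (hGD x)
        (Finset.disjoint_of_subset_right (hGD y) (hCb x hx y hy hxy))
      disjGR := by
        intro x _
        rw [Finset.disjoint_left]
        intro u hu hu'
        exact (s.mem_Rp.1 hu').2 (s.mem_Gp.1 hu).1
      disjO := by
        intro x hx
        rw [Finset.disjoint_left]
        intro u hu hu'
        exact (s.mem_Op.1 hu').2 x hx (hGD x hu)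
      clique := by
        intro x hx u hu v hv huv
        have h1 := s.mem_Gp.1 hu
        have h2 := s.mem_Gp.1 hv
        exact ⟨huv, ⟨hCx.Gs_sub_Q x h1.1, h1.2⟩, ⟨hCx.Gs_sub_Q x h2.1, h2.2⟩,
          Or.inr ⟨x, hx, h1.1, h2.1⟩⟩
      card_le := by
        intro x hx
        have h1 := s.m1 x hx
        have h2 : ((Gp k D z H Q ρ x).card : ℝ) ≤ (2 * k - 3 / 2 + η / 8) * D + 2 := h1
        nlinarith
      card_ge := by
        intro x hx
        have h1 := s.card_ge hx
        have h2 := hCx.kD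
        linarith
      ext := by
        intro x hx u hu
        have h1 := s.ext hx hu
        have h2 : 4 * (z * k * D) = e * k * D := by rw [hz]; ring
        rw [h2] at h1
        exact h1
      far := fun x hx w hw hwR => s.far hx hw hwR
      tot := fun x hx => s.tot hx
      cardR := fun x hx => hCx.Rs_card (hCa x hx)
      degO := by
        intro v hv
        rw [Finset.mem_union, Finset.mem_biUnion] at hv
        rcases hv with ⟨x, hx, hv⟩ | hv
        · exact s.degO (hCx.Ds_sub_Q x (s.mem_Rp.1 hv).1) (s.Rp_not hx hv) _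
        · exact s.degO (s.mem_Op.1 hv).1 (s.Op_not hv) _
      sparse := fun v hv => s.sparse hC5 hC2 k3 hv
      rig1 := fun x hx v hv => s.rig1 hx hv
      rig2 := by
        intro x hx v hv
        have h1 := s.rig2 hx hv
        have h2 : z * k * D / 4 = e / 16 * k * D := by rw [hz]; ring
        rw [h2] at h1
        exact h1
      deg := s.deg
      supp := by
        intro v w hvw
        obtain ⟨-, ⟨hvQ, hρv⟩, -⟩ := hvw
        rw [Finset.mem_union, Finset.mem_union, Finset.mem_biUnion, Finset.mem_biUnion]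
        by_cases h1 : ∃ x ∈ C, v ∈ Ds k D H Q x
        · obtain ⟨x, hx, hvx⟩ := h1
          by_cases h2 : v ∈ Gs k D z H Q x
          · exact Or.inl (Or.inl ⟨x, hx, s.mem_Gp.2 ⟨h2, hρv⟩⟩)
          · exact Or.inl (Or.inr ⟨x, hx, s.mem_Rp.2 ⟨hvx, h2⟩⟩)
        · push Not at h1
          exact Or.inr (s.mem_Op.2 ⟨hvQ, h1⟩) }

end Pool.Agent.Helper48.LK
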