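import Pool.Agent.Helper48.LK.T5_Decomp
import Pool.Agent.Helper32.LK.Sampling
import Pool.Agent.Helper32.LK.Part

/-!
# T6a. Greedy extension and sampling of the rigid vertices
-/

set_option autoImplicit false
set_option linter.unusedSectionVars false

namespace Pool.Agent.Helper48.LK

open Pool.Agent.Helper32.Sq

section

variable {V : Type} [Fintype V] [DecidableEq V] {H : SimpleGraph V} [DecidableRel H.Adj]

/-- Extension to vertices seeing repeated colours. -/
lemma extend_low' {X : ℕ} {Q F : Finset V} {f : V → Fin X} (g : V → Fin X) (hFQ : F ⊆ Q)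
    {A : Finset V} (hA : A ⊆ Q) (hFA : F ⊆ A) (h : Proper H A f) (hfg : ∀ u ∈ F, f u = g u)
    (L : Finset V) (hLQ : L ⊆ Q)
    (hL : ∀ v ∈ L, dg H Q v + ((F.filter fun u => H.Adj v u).image g).card <
      X + dg H F v) :
    ∃ f' : V → Fin X, Proper H (A ∪ L) f' ∧ ∀ u ∈ F, f' u = g u := by
  suffices hs : ∀ L' ⊆ L, ∃ f' : V → Fin X, Proper H (A ∪ L') f' ∧ ∀ u ∈ F, f' u = g u from
    hs L (Finset.Subset.refl L)
  intro L'
  induction L' using Finset.induction_on with
  | empty => intro _; exact ⟨f, by rwa [Finset.union_empty], hfg⟩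
  | insert v L' hv ih =>
    intro hsub
    obtain ⟨f1, hf1, hf1'⟩ := ih ((Finset.subset_insert _ _).trans hsub)
    have hvL : v ∈ L := hsub (Finset.mem_insert_self _ _)
    by_cases hvA : v ∈ A ∪ L'
    · refine ⟨f1, ?_, hf1'⟩
      apply hf1.mono
      intro x hx
      rw [Finset.mem_union, Finset.mem_insert] at hx
      rcases hx with hx | rfl | hx
      · exact Finset.mem_union_left _ hx
      · exact hvA
      · exact Finset.mem_union_right _ hx
    · have hcard : (((A ∪ L').filter fun u => H.Adj v u).image f1).card < X := by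
        have hAL : A ∪ L' ⊆ Q :=
          Finset.union_subset hA (((Finset.subset_insert _ _).trans hsub).trans hLQ)
        have h1 : ((A ∪ L').filter fun u => H.Adj v u).image f1 ⊆
            ((F.filter fun u => H.Adj v u).image g) ∪
            (((A ∪ L') \ F).filter fun u => H.Adj v u).image f1 := by
          intro γ hγ
          rw [Finset.mem_image] at hγ
          obtain ⟨u, hu, rfl⟩ := hγ
          rw [Finset.mem_filter] at hu
          rw [Finset.mem_union, Finset.mem_image, Finset.mem_image]
          by_cases huF : u ∈ F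
          · exact Or.inl ⟨u, Finset.mem_filter.2 ⟨huF, hu.2⟩, (hf1' u huF).symm⟩
          · exact Or.inr ⟨u, Finset.mem_filter.2 ⟨Finset.mem_sdiff.2 ⟨hu.1, huF⟩, hu.2⟩, rfl⟩
        have h2 := (Finset.card_le_card h1).trans (Finset.card_union_le _ _)
        have h3 : ((((A ∪ L') \ F).filter fun u => H.Adj v u).image f1).card + dg H F v ≤
            dg H Q v := by
          have h4 : dg H ((A ∪ L') \ F ∪ F) v = dg H ((A ∪ L') \ F) v + dg H F v :=
            dg_union H Finset.sdiff_disjoint v
          have h5 : (A ∪ L') \ F ∪ F ⊆ Q :=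
            Finset.union_subset (Finset.sdiff_subset.trans hAL) hFQ
          have h6 := dg_mono H h5 v
          have h7 : ((((A ∪ L') \ F).filter fun u => H.Adj v u).image f1).card ≤
            dg H ((A ∪ L') \ F) v := Finset.card_image_le
          omega
        have h4 := hL v hvL
        omega
      obtain ⟨f2, hf2, hf2'⟩ := hf1.extend v hvA hcard
      refine ⟨f2, ?_, ?_⟩
      · apply hf2.mono
        intro x hx
        rw [Finset.mem_union, Finset.mem_insert] at hx
        rw [Finset.mem_insert, Finset.mem_union]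
        rcases hx with hx | rfl | hx
        · exact Or.inr (Or.inl hx)
        · exact Or.inl rfl
        · exact Or.inr (Or.inr hx)
      · intro u hu
        rw [hf2' u (Finset.mem_union_left _ (hFA hu)), hf1' u hu]

end

/-- A random sample of the rigid vertices. -/
lemma sample_rigid (k M : ℕ) (CR δ : ℝ) (hM : 0 < M) (hCR : 0 < CR) (hδ : 0 < δ) :
    ∃ D0 : ℕ, ∀ D : ℕ, D0 ≤ D → ∀ (V : Type) [Fintype V] [DecidableEq V] (H : SimpleGraph V)
      [DecidableRel H.Adj] (C : Finset V) (R : V → Finset V),
      (∀ x ∈ C, ∀ y ∈ C, x ≠ y → Disjoint (R x) (R y)) →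
      (∀ x ∈ C, ((R x).card : ℝ) ≤ CR * D) → (∀ v, (dg H Finset.univ v : ℝ) ≤ 3 * k * D) →
      ∃ Rs : Finset V, Rs ⊆ C.biUnion R ∧
        (∀ x ∈ C, ((R x ∩ Rs).card : ℝ) ≤ (R x).card / M + δ * D) ∧
        ∀ v, |(dg H Rs v : ℝ) - dg H (C.biUnion R) v / M| ≤ δ * D := by
  classical
  set K : ℝ := (CR + 3 * k) * (1 + 3 * k) with hK
  have hk0 : (0 : ℝ) ≤ k := Nat.cast_nonneg k
  have hK0 : 0 < K := by positivity
  obtain ⟨D0, hD0⟩ := Pool.Agent.Helper32.LK.sampling M K δ hM hK0 hδ
  refine ⟨max D0 1, fun D hD V _ _ H _ C R hdis hR hdeg => ?_⟩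
  have hD1 : (1 : ℝ) ≤ D := by
    have : 1 ≤ D := (le_max_right _ _).trans hD
    exact_mod_cast this
  set Rg := C.biUnion R with hRg
  set A : V × Bool → Finset V := fun j =>
    if j.2 then nbr H Rg j.1 else if j.1 ∈ C then R j.1 else ∅ with hA
  have hA1 : ∀ v, A (v, true) = nbr H Rg v := fun v => by simp [hA]
  have hA2 : ∀ x ∈ C, A (x, false) = R x := fun x hx => by simp [hA, hx]
  have hA3 : ∀ x, x ∉ C → A (x, false) = ∅ := fun x hx => by simp [hA, hx]
  have hnbr : ∀ v, ((nbr H Rg v).card : ℝ) ≤ 3 * k * D := by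
    intro v
    refine le_trans ?_ (hdeg v)
    rw [dg_eq]
    exact_mod_cast Finset.card_le_card (nbr_mono H (Finset.subset_univ _) v)
  have hAc : ∀ j, ((A j).card : ℝ) ≤ (CR + 3 * k) * D := by
    rintro ⟨v, b⟩
    cases b
    · by_cases hv : v ∈ C
      · rw [hA2 v hv]
        have := hR v hv
        nlinarith
      · rw [hA3 v hv, Finset.card_empty, Nat.cast_zero]
        positivity
    · rw [hA1]
      have := hnbr v
      nlinarith
  obtain ⟨β, hβ⟩ := hD0 D ((le_max_left _ _).trans hD) V (V × Bool) A (by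
    intro j
    refine (hAc j).trans ?_
    apply mul_le_mul_of_nonneg_right _ (by linarith)
    rw [hK]
    nlinarith [mul_nonneg (by positivity : (0:ℝ) ≤ CR + 3 * k) (by positivity : (0:ℝ) ≤ 3 * (k:ℝ))]) (by
    intro j
    have h1 : ((Finset.univ : Finset (V × Bool)).filter fun j' => ¬ Disjoint (A j) (A j')) ⊆
        (A j).biUnion fun a => ((C.filter fun x => a ∈ R x).image fun x => (x, false)) ∪
          ((nbr H Finset.univ a).image fun v => (v, true)) := by
      rintro ⟨v, b⟩ hj'
      rw [Finset.mem_filter, Finset.not_disjoint_iff] at hj'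
      obtain ⟨-, a, ha, ha'⟩ := hj'
      rw [Finset.mem_biUnion]
      refine ⟨a, ha, ?_⟩
      rw [Finset.mem_union, Finset.mem_image, Finset.mem_image]
      cases b
      · left
        by_cases hv : v ∈ C
        · rw [hA2 v hv] at ha'
          exact ⟨v, Finset.mem_filter.2 ⟨hv, ha'⟩, rfl⟩
        · rw [hA3 v hv] at ha'
          exact absurd ha' (Finset.notMem_empty _)
      · right
        rw [hA1, mem_nbr] at ha'
        exact ⟨v, (mem_nbr H).2 ⟨Finset.mem_univ _, ha'.2.symm⟩, rfl⟩
    have h2 : ∀ a : V, (((C.filter fun x => a ∈ R x).image fun x => (x, false)) ∪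
          ((nbr H Finset.univ a).image fun v => (v, true))).card ≤
          1 + (nbr H Finset.univ a).card := by
      intro a
      refine (Finset.card_union_le _ _).trans (add_le_add ?_ Finset.card_image_le)
      refine Finset.card_image_le.trans ?_
      rw [Finset.card_le_one]
      intro x hx y hy
      rw [Finset.mem_filter] at hx hy
      by_contra hne
      exact Finset.disjoint_left.1 (hdis x hx.1 y hy.1 hne) hx.2 hy.2
    have h3 : (((Finset.univ : Finset (V × Bool)).filter fun j' =>
        ¬ Disjoint (A j) (A j')).card : ℝ) ≤ ∑ a ∈ A j, (1 + ((nbr H Finset.univ a).card : ℝ)) := by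
      have h4 := (Finset.card_le_card h1).trans (Finset.card_biUnion_le.trans
        (Finset.sum_le_sum fun a _ => h2 a))
      exact_mod_cast h4
    refine h3.trans ?_
    calc ∑ a ∈ A j, (1 + ((nbr H Finset.univ a).card : ℝ))
        ≤ ∑ _a ∈ A j, (1 + 3 * (k : ℝ)) * D := by
          apply Finset.sum_le_sum
          intro a _
          have := hdeg a
          rw [dg_eq] at this
          nlinarith
      _ = (A j).card * ((1 + 3 * (k : ℝ)) * D) := by rw [Finset.sum_const, nsmul_eq_mul]
      _ ≤ ((CR + 3 * k) * D) * ((1 + 3 * (k : ℝ)) * D) :=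
          mul_le_mul_of_nonneg_right (hAc j) (by positivity)
      _ = K * D ^ 2 := by rw [hK]; ring
      _ ≤ K * D ^ 3 := by
          apply mul_le_mul_of_nonneg_left _ hK0.le
          exact pow_le_pow_right₀ hD1 (by norm_num))
  set c0 : Fin M := ⟨0, hM⟩ with hc0
  refine ⟨Rg.filter fun v => β v = c0, Finset.filter_subset _ _, ?_, ?_⟩
  · intro x hx
    have h1 := hβ (x, false) c0
    rw [hA2 x hx] at h1
    have h2 : R x ∩ Rg.filter (fun v => β v = c0) = (R x).filter fun v => β v = c0 := by
      ext v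
      rw [Finset.mem_inter, Finset.mem_filter, Finset.mem_filter]
      constructor
      · rintro ⟨h3, h4, h5⟩
        exact ⟨h3, h5⟩
      · rintro ⟨h3, h5⟩
        exact ⟨h3, Finset.mem_biUnion.2 ⟨x, hx, h3⟩, h5⟩
    rw [h2]
    have h3 := (abs_le.1 h1).2
    linarith
  · intro v
    have h1 := hβ (v, true) c0
    rw [hA1] at h1
    have h2 : ((nbr H Rg v).filter fun v => β v = c0).card =
        dg H (Rg.filter fun v => β v = c0) v := by
      rw [dg_eq]
      congr 1
      ext u
      simp only [mem_nbr, Finset.mem_filter]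
      tauto
    rw [h2, ← dg_eq] at h1
    exact h1

end Pool.Agent.Helper48.LK
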